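import Pool.Agent.K6.H57.ML.Cmp2
import Pool.Agent.R320.JL.Leb

/-! # The law of the smooth statistic at a random height -/

set_option autoImplicit false

open MeasureTheory Set Filter Topology
open scoped ContDiff FourierTransform

namespace Pool.Agent.K6.H57.ML

open SP (bt ps)
open SG (ord NZ)
open Pool.Agent.R320.JL (PP nz PP_cont cf exp_lip exp_dif)
open Pool.Agent.Y743.CL (Pr mem_Pr VS VS_nonneg)

noncomputable section

lemma J_nonneg (w : ℝ → ℝ) : 0 ≤ J w := by
  unfold J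
  refine setIntegral_nonneg measurableSet_Ioi fun ξ hξ => ?_
  have : (0 : ℝ) < ξ := hξ
  positivity

lemma log_sqrt_le (p : ℕ) : Real.log p / Real.sqrt p ≤ 1 := by
  rcases Nat.eq_zero_or_pos p with h | h
  · subst h; simp
  · have hp : (0 : ℝ) < p := by exact_mod_cast h
    have hs : 0 < Real.sqrt p := Real.sqrt_pos.2 hp
    rw [div_le_one hs]
    obtain ⟨s, hsd⟩ : ∃ s : ℝ, s = Real.sqrt (Real.sqrt p) := ⟨_, rfl⟩
    have hs0 : 0 < s := by rw [hsd]; exact Real.sqrt_pos.2 hs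
    have h1 : s ^ 2 = Real.sqrt p := by rw [hsd, Real.sq_sqrt hs.le]
    have h2 : (p : ℝ) = s ^ 4 := by
      have : s ^ 4 = (s ^ 2) ^ 2 := by ring
      rw [this, h1, Real.sq_sqrt hp.le]
    rw [← h1, h2, Real.log_pow]
    have h3 := Real.log_le_sub_one_of_pos (show (0 : ℝ) < s / 2 by positivity)
    rw [Real.log_div hs0.ne' (by norm_num)] at h3
    have h4 : Real.log 2 < 0.7 := by have := Real.log_two_lt_d9; linarith
    push_cast
    nlinarith [sq_nonneg (s - 1)]

/-- the growth condition -/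
lemma cond {R B : ℝ} (hR : 0 < R) (hB : 1 ≤ B) (h0 e0 T0 : ℝ) (he0 : 0 < e0) : ∃ h1 : ℝ, 3 ≤ h1 ∧
    ∀ h : ℝ, h1 ≤ h → ∀ T : ℝ, 1 ≤ T → h * Real.log h ^ 2 ≤ B * Real.log T →
    h0 ≤ h ∧ h / Real.log T ≤ e0 ∧ T0 ≤ T ∧ (h * R) * Real.log (h * R) ≤ B * Real.log T ∧ 1 ≤ Real.log T := by
  have hlog := Real.tendsto_log_atTop
  have ev : ∀ᶠ h : ℝ in atTop, h0 ≤ h ∧ 3 ≤ h ∧ R ≤ h ∧ B / e0 ≤ Real.log h ∧ 2 * R ≤ Real.log h ∧
      B * Real.log (max T0 (Real.exp 1)) < h ∧ 1 ≤ Real.log h := by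
    filter_upwards [eventually_ge_atTop h0, eventually_ge_atTop 3, eventually_ge_atTop R,
      hlog.eventually_ge_atTop (B / e0), hlog.eventually_ge_atTop (2 * R),
      eventually_gt_atTop (B * Real.log (max T0 (Real.exp 1))), hlog.eventually_ge_atTop 1] with h a1 a2 a3 a4 a5 a6 a7
    exact ⟨a1, a2, a3, a4, a5, a6, a7⟩
  obtain ⟨h1, hh1⟩ := ev.exists_forall_of_atTop
  refine ⟨max h1 3, le_max_right _ _, fun h hh T hT hc => ?_⟩
  obtain ⟨a1, a2, a3, a4, a5, a6, a7⟩ := hh1 h ((le_max_left _ _).trans hh)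
  have hhp : 0 < h := by linarith
  have hBp : 0 < B := by linarith
  have hlh : 0 < Real.log h := by linarith
  have hLT : h ≤ B * Real.log T := by
    refine le_trans ?_ hc
    nlinarith [mul_le_mul_of_nonneg_left (by nlinarith : (1 : ℝ) ≤ Real.log h ^ 2) hhp.le]
  have hL : 0 < Real.log T := by
    by_contra hcon
    push Not at hcon
    nlinarith
  have hTm : max T0 (Real.exp 1) ≤ T := by
    by_contra hcon
    push Not at hcon
    have h3 : Real.log T ≤ Real.log (max T0 (Real.exp 1)) := Real.log_le_log (by linarith) hcon.le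
    nlinarith
  refine ⟨a1, ?_, (le_max_left _ _).trans hTm, ?_, ?_⟩
  · rw [div_le_iff₀ hL]
    rw [div_le_iff₀ he0] at a4
    have h5 : h * B ≤ h * (Real.log h * (Real.log h * e0)) := by
      apply mul_le_mul_of_nonneg_left _ hhp.le
      have : Real.log h * e0 ≤ Real.log h * (Real.log h * e0) := by
        nlinarith [mul_pos hlh he0]
      linarith
    have h6 : h * (Real.log h * (Real.log h * e0)) = e0 * (h * Real.log h ^ 2) := by ring
    have h7 : h * B ≤ e0 * (B * Real.log T) := by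
      rw [h6] at h5
      exact h5.trans (mul_le_mul_of_nonneg_left hc he0.le)
    have h8 : h * B ≤ (e0 * Real.log T) * B := by linarith
    exact le_of_mul_le_mul_right h8 hBp
  · refine le_trans ?_ hc
    have h9 : Real.log (h * R) ≤ 2 * Real.log h := by
      have : Real.log (h * R) ≤ Real.log (h * h) := Real.log_le_log (by positivity) (by gcongr)
      rw [Real.log_mul hhp.ne' hhp.ne'] at this
      linarith
    calc h * R * Real.log (h * R) ≤ h * R * (2 * Real.log h) := by gcongr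
      _ = h * (2 * R) * Real.log h := by ring
      _ ≤ h * Real.log h * Real.log h := by gcongr
      _ = _ := by ring
  · rw [Real.le_log_iff_exp_le (by linarith)]
    exact (le_max_right _ _).trans hTm

/-- **the law at a random height** -/
theorem tavg (RH : RiemannHypothesis) {R : ℝ} {w : ℝ → ℝ} (hw : Ts R w) (B : ℝ) (hB : 1 ≤ B)
    (ε : ℝ) (hε : 0 < ε) : ∃ h0 : ℝ, 3 ≤ h0 ∧ ∀ h : ℝ, h0 ≤ h → ∀ T : ℝ, 1 ≤ T →
    h * Real.log h ^ 2 ≤ B * Real.log T → ∀ A A' : ℝ, T + Real.log T ≤ A → A ≤ A' →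
    A' ≤ 2 * T - Real.log T →
    ‖(∫ t in A..A', Complex.exp (Complex.I * (Z T h w t : ℂ))) -
      (((A' - A) * Real.exp (-J w) : ℝ) : ℂ)‖ ≤ ε * T := by
  obtain ⟨C5, hC5, hb⟩ := btW hw.cc
  have hJ0 := J_nonneg w
  obtain ⟨m, D, hD, hcf⟩ := cf (4 * (J w + 1)) (C5 ^ 2) (ε / 3) (by positivity) (by positivity) (by positivity)
  obtain ⟨κ, hκd⟩ : ∃ κ : ℝ, κ = min (1 / 16 : ℝ) (1 / (4 * ((m : ℝ) + 1))) := ⟨_, rfl⟩
  have hκ : 0 < κ := by rw [hκd]; positivity
  have hκ1 : κ ≤ 1 / 16 := by rw [hκd]; exact min_le_left _ _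
  have hκ2 : κ * (4 * ((m : ℝ) + 1)) ≤ 1 := by
    have : κ ≤ 1 / (4 * ((m : ℝ) + 1)) := by rw [hκd]; exact min_le_right _ _
    rwa [le_div_iff₀ (by positivity)] at this
  obtain ⟨h1, e1, T1, hh1, he1, hT1, hcmp⟩ := cmp_int RH hw κ hκ (by linarith) B hB (ε / 3) (by positivity)
  obtain ⟨h2, e2, hh2, he2, hvar⟩ := var_lim hw.cc κ hκ (by linarith) (min 1 (ε / 6)) (by positivity)
  obtain ⟨h3, hh3, hcond⟩ := cond hw.pos hB (max h1 h2) (min (min e1 e2) (min 1 (1 / D))) (max T1 D) (by positivity)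
  refine ⟨h3, hh3, fun h hh T hT hc A A' hA hAA hA' => ?_⟩
  obtain ⟨c1, c2, c3, c4, c5⟩ := hcond h hh T hT hc
  have d1 : h1 ≤ h := (le_max_left _ _).trans c1
  have d2 : h2 ≤ h := (le_max_right _ _).trans c1
  have d3 : h / Real.log T ≤ e1 := c2.trans ((min_le_left _ _).trans (min_le_left _ _))
  have d4 : h / Real.log T ≤ e2 := c2.trans ((min_le_left _ _).trans (min_le_right _ _))
  have d5 : h / Real.log T ≤ 1 := c2.trans ((min_le_right _ _).trans (min_le_left _ _))
  have d6 : h / Real.log T ≤ 1 / D := c2.trans ((min_le_right _ _).trans (min_le_right _ _))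
  have d7 : T1 ≤ T := (le_max_left _ _).trans c3
  have d8 : D ≤ T := (le_max_right _ _).trans c3
  have hL : 0 < Real.log T := by linarith
  have hT10 : 10 ≤ T := hT1.trans d7
  have hTp : 0 < T := by linarith
  have hhp : 0 < h := by linarith
  obtain ⟨e, hed⟩ : ∃ e : ℝ, e = h / Real.log T := ⟨_, rfl⟩
  have he0 : 0 < e := by rw [hed]; positivity
  have g1 := hcmp T h d7 d1 d3 c4
  have g2 := hvar T h (by linarith) d2 d4
  rw [← hed] at d5 d6
  obtain ⟨W, hW⟩ : ∃ W : ℝ → ℂ, W = Wt w κ (Real.log T) h := ⟨_, rfl⟩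
  obtain ⟨X, hX⟩ : ∃ X : ℕ, X = ⌊Real.exp (2 * (κ * Real.log T))⌋₊ := ⟨_, rfl⟩
  rw [← hW, ← hX] at g1 g2
  obtain ⟨z, hz⟩ : ∃ z : ℕ → ℂ, z = fun p => ((-(1 / e) : ℝ) : ℂ) * zp T W p := ⟨_, rfl⟩
  have hzn : ∀ p, ‖z p‖ = 1 / e * ‖zp T W p‖ := by
    intro p
    rw [hz]
    simp only
    rw [norm_mul, Complex.norm_real, norm_neg, Real.norm_of_nonneg (by positivity)]
  have hzb : ∀ p, ‖z p‖ ^ 2 ≤ C5 ^ 2 := by
    intro p
    apply pow_le_pow_left₀ (norm_nonneg _)
    rw [hzn]
    unfold zp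
    have hlp : 0 ≤ Real.log p := Real.log_natCast_nonneg p
    rw [norm_mul, Complex.norm_real, Real.norm_of_nonneg (by positivity)]
    have b1 := hb T κ h p (by linarith) hhp (by rw [← hed]; exact d5)
    rw [← hed, ← hW] at b1
    have b2 : C5 * e / (1 + (e * Real.log p) ^ 2) ≤ C5 * e := by
      apply div_le_self (by positivity)
      have : 0 ≤ (e * Real.log p) ^ 2 := sq_nonneg _
      linarith
    calc 1 / e * (Real.log p / Real.sqrt p * ‖bt T W p‖) ≤ 1 / e * (1 * (C5 * e)) := by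
          have := log_sqrt_le p
          gcongr
          exact b1.trans b2
      _ = C5 := by field_simp
  have hVz : VS (nz z) X = VS (nz (zp T W)) X / e ^ 2 := by
    unfold VS nz
    rw [Finset.sum_div]
    refine Finset.sum_congr rfl fun p _ => ?_
    rw [hzn]
    field_simp
  have hVK : VS (nz z) X ≤ 4 * (J w + 1) * (1 / e) ^ 2 := by
    rw [hVz]
    have : VS (nz (zp T W)) X ≤ 4 * (J w + 1) := by
      have a1 := (abs_le.1 g2).2
      have a2 := min_le_left (1 : ℝ) (ε / 6)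
      linarith
    calc VS (nz (zp T W)) X / e ^ 2 ≤ 4 * (J w + 1) / e ^ 2 := by gcongr
      _ = _ := by ring
  have hX1 : 1 ≤ X := by
    rw [hX]
    apply Nat.le_floor
    push_cast
    rw [Real.one_le_exp_iff]
    positivity
  have hXm : ((X ^ m : ℕ) : ℝ) ≤ Real.sqrt T := by
    push_cast
    have a1 : (X : ℝ) ≤ Real.exp (2 * (κ * Real.log T)) := by
      rw [hX]; exact Nat.floor_le (Real.exp_pos _).le
    have a2 : Real.sqrt T = Real.exp (Real.log T / 2) := by
      rw [Real.sqrt_eq_rpow, Real.rpow_def_of_pos hTp]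
      congr 1
      ring
    rw [a2]
    calc (X : ℝ) ^ m ≤ Real.exp (2 * (κ * Real.log T)) ^ m := by gcongr
      _ = Real.exp (m * (2 * (κ * Real.log T))) := by rw [← Real.exp_nat_mul]
      _ ≤ _ := by
          apply Real.exp_le_exp.2
          have : m * (2 * (κ * Real.log T)) = (κ * (4 * m)) * (Real.log T / 2) := by ring
          rw [this]
          have h4 : κ * (4 * m) ≤ 1 := by nlinarith
          nlinarith
  have hDe : D ≤ 1 / e := by
    rw [le_div_iff₀ he0]
    rw [le_div_iff₀ (by linarith)] at d6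
    linarith
  have hLT : Real.log T ≤ T := (Real.log_le_sub_one_of_pos hTp).trans (by linarith)
  have g3 := hcf z X T A A' (1 / e) hzb hX1 d8 hDe hXm hAA (by linarith) hVK
  have hPP : ∀ t, (PP z X t).re / (1 / e) = -(PP (zp T W) X t).re := by
    intro t
    have : PP z X t = ((-(1 / e) : ℝ) : ℂ) * PP (zp T W) X t := by
      unfold PP
      rw [hz, Finset.mul_sum]
      refine Finset.sum_congr rfl fun p _ => ?_
      ring
    rw [this, Complex.re_ofReal_mul]
    field_simp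
  simp only [hPP] at g3
  have hV4 : VS (nz z) X / (4 * (1 / e) ^ 2) = VS (nz (zp T W)) X / 4 := by
    rw [hVz]
    field_simp
  rw [hV4] at g3
  -- the comparison
  have k1 : ‖(∫ t in A..A', Complex.exp (Complex.I * (Z T h w t : ℂ))) -
      ∫ t in A..A', Complex.exp (Complex.I * ((-(PP (zp T W) X t).re : ℝ) : ℂ))‖ ≤ ε / 3 * T := by
    have hZc := Z_cont hw.cc.cont T h
    have hPc : Continuous fun t => (PP (zp T W) X t).re := Complex.continuous_re.comp (PP_cont _ _)
    have i1 : IntervalIntegrable (fun t => Complex.exp (Complex.I * (Z T h w t : ℂ))) volume A A' :=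
      Continuous.intervalIntegrable (by fun_prop) _ _
    have i2 : IntervalIntegrable (fun t => Complex.exp (Complex.I * ((-(PP (zp T W) X t).re : ℝ) : ℂ)))
        volume A A' := Continuous.intervalIntegrable (by fun_prop) _ _
    have hEc : Continuous fun t => |Z T h w t + (PP (zp T W) X t).re| := (hZc.add hPc).abs
    rw [← intervalIntegral.integral_sub i1 i2]
    have l1 : ‖∫ t in A..A', (Complex.exp (Complex.I * (Z T h w t : ℂ)) -
        Complex.exp (Complex.I * ((-(PP (zp T W) X t).re : ℝ) : ℂ)))‖ ≤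
        ∫ t in A..A', |Z T h w t + (PP (zp T W) X t).re| := by
      refine intervalIntegral.norm_integral_le_of_norm_le hAA (ae_of_all _ fun t _ => ?_)
        (hEc.intervalIntegrable _ _)
      refine (exp_lip _ _).trans (le_of_eq ?_)
      rw [sub_neg_eq_add]
    refine l1.trans (le_trans ?_ g1)
    rw [intervalIntegral.integral_of_le hAA]
    exact setIntegral_mono_set hEc.continuousOn.integrableOn_Icc (ae_of_all _ fun _ => abs_nonneg _)
      (Filter.Eventually.of_forall fun x hx => ⟨by linarith [hx.1], by linarith [hx.2]⟩)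
  have k2 : ‖(((A' - A) * Real.exp (-(VS (nz (zp T W)) X / 4)) : ℝ) : ℂ) -
      (((A' - A) * Real.exp (-J w) : ℝ) : ℂ)‖ ≤ ε / 3 * T := by
    rw [← Complex.ofReal_sub, Complex.norm_real, Real.norm_eq_abs, ← mul_sub, abs_mul,
      abs_of_nonneg (by linarith : 0 ≤ A' - A)]
    have a1 := exp_dif (x := VS (nz (zp T W)) X / 4) (y := J w) (δ := min 1 (ε / 6))
      (by have := VS_nonneg (nz (zp T W)) X; positivity) g2 (min_le_left _ _)
    have a2 := min_le_right (1 : ℝ) (ε / 6)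
    calc (A' - A) * |Real.exp (-(VS (nz (zp T W)) X / 4)) - Real.exp (-J w)| ≤ T * (ε / 3) := by
          apply mul_le_mul (by linarith) (by linarith) (abs_nonneg _) hTp.le
      _ = _ := by ring
  have k3 := norm_sub_le_norm_sub_add_norm_sub (∫ t in A..A', Complex.exp (Complex.I * (Z T h w t : ℂ)))
    (∫ t in A..A', Complex.exp (Complex.I * ((-(PP (zp T W) X t).re : ℝ) : ℂ)))
    (((A' - A) * Real.exp (-J w) : ℝ) : ℂ)
  have k4 := norm_sub_le_norm_sub_add_norm_sub
    (∫ t in A..A', Complex.exp (Complex.I * ((-(PP (zp T W) X t).re : ℝ) : ℂ)))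
    (((A' - A) * Real.exp (-(VS (nz (zp T W)) X / 4)) : ℝ) : ℂ)
    (((A' - A) * Real.exp (-J w) : ℝ) : ℂ)
  linarith

end

end Pool.Agent.K6.H57.ML
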