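import Pool.Agent.K6.H57.ML.Gp
import Pool.Agent.K6.H57.ML.Ta

/-! # Averaged comparison -/

set_option autoImplicit false

open MeasureTheory Set Filter Topology
open scoped ContDiff

namespace Pool.Agent.K6.H57.ML

open SG (ord NZ)
open SP (RHs)
open Pool.Agent.R320.CL (SS dl SS_ge)
open Pool.Agent.Y743.CL (lm)

noncomputable section

theorem gavg (hRH : RHs) {R : ℝ} {w : ℝ → ℝ} (hw : Ts R w) (B : ℝ) (hB : 1 ≤ B) (ε : ℝ) (hε : 0 < ε) :
    ∃ h0 : ℝ, 3 ≤ h0 ∧ ∀ h : ℝ, h0 ≤ h → ∀ T : ℝ, 1 ≤ T → h * Real.log h ^ 2 ≤ B * Real.log T →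
    ∀ A A' : ℝ, T ≤ A → A' ≤ 2 * T →
    ∑ n ∈ Finset.Ioc (NZ A) (NZ A'), min 2 |Z T h w (ord n) + Gs w h ⌈2 * (R * h)⌉₊ n| ≤
      ε * (T * Real.log T) := by
  have hpi := Real.pi_pos
  have hpi3 := Real.pi_gt_three
  have hR := hw.pos
  obtain ⟨C1, hC1, hptw⟩ := ptw hw
  obtain ⟨C2, hC2, hmom⟩ := Pool.Agent.R320.JL.mom1 hRH 2
  obtain ⟨r0, hr0⟩ := eventually_atTop.1 hmom
  obtain ⟨C3, T3, hC3, hT3, hup⟩ := LG.GapAux.NZ_up
  obtain ⟨c4, T4, hc4, hT4, hlow⟩ := LG.GapAux.NZ_low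
  -- the small constants
  obtain ⟨e1, he1⟩ : ∃ e1 : ℝ, e1 = ε / (8 * C3 * C1) := ⟨_, rfl⟩
  have he10 : 0 < e1 := by rw [he1]; positivity
  obtain ⟨c, hc⟩ : ∃ c : ℝ, c = ε / (8 * C3 * (C1 * (C2 + 1) * 9 * R ^ 2 + 24 * (C2 + 1) / R)) := ⟨_, rfl⟩
  have hc0 : 0 < c := by rw [hc]; positivity
  have hlog := Real.tendsto_log_atTop
  have ev : ∀ᶠ h : ℝ in atTop, 3 ≤ h ∧ 1 / R ≤ h ∧ 1 / e1 ≤ h ∧ (r0 : ℝ) ≤ 2 * (R * h) ∧ 3 * R ≤ h ∧
      6 * R * B ≤ Real.log h ∧ Real.log (3 * (R * h)) ≤ c * (3 * (R * h)) ∧ 0 ≤ Real.log (3 * (R * h)) := by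
    have h2 := Real.isLittleO_log_id_atTop.bound (c := c) hc0
    have h3 : Tendsto (fun h : ℝ => 3 * (R * h)) atTop atTop := by
      have : Tendsto (fun h : ℝ => (3 * R) * h) atTop atTop := tendsto_id.const_mul_atTop (by positivity)
      refine this.congr fun h => ?_
      ring
    have h4 := h3.eventually h2
    filter_upwards [h4, eventually_ge_atTop 3, eventually_ge_atTop (1 / R), eventually_ge_atTop (1 / e1),
      eventually_ge_atTop (r0 / (2 * R)), eventually_ge_atTop (3 * R), hlog.eventually_ge_atTop (6 * R * B),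
      h3.eventually_ge_atTop 1] with h a1 a2 a3 a4 a5 a6 a7 a8
    refine ⟨a2, a3, a4, ?_, a6, a7, ?_, Real.log_nonneg a8⟩
    · rw [div_le_iff₀ (by positivity)] at a5
      linarith
    · rw [id, Real.norm_of_nonneg (Real.log_nonneg a8), Real.norm_of_nonneg (by linarith)] at a1
      exact a1
  obtain ⟨h5, hh5⟩ := ev.exists_forall_of_atTop
  obtain ⟨h6, hh6, hcond⟩ := cond hR hB h5 (min e1 (1 / (128 * R)))
    (max (max (max T3 T4) 100) (Real.exp (max 48 (1 / c4)))) (by positivity)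
  refine ⟨h6, hh6, fun h hh T hT hct A A' hA hA' => ?_⟩
  obtain ⟨k1, k2, k3, k4, k5⟩ := hcond h hh T hT hct
  obtain ⟨a1, a2, a3, a4, a5, a6, a7, a8⟩ := hh5 h k1
  have hhp : 0 < h := by linarith
  have hRh : 1 ≤ R * h := by
    rw [div_le_iff₀ hR] at a2
    linarith
  have d1 : T3 ≤ T := ((le_max_left _ _).trans ((le_max_left _ _).trans (le_max_left _ _))).trans k3
  have d2 : T4 ≤ T := ((le_max_right _ _).trans ((le_max_left _ _).trans (le_max_left _ _))).trans k3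
  have d3 : 100 ≤ T := ((le_max_right _ _).trans (le_max_left _ _)).trans k3
  have d4 : Real.exp (max 48 (1 / c4)) ≤ T := (le_max_right _ _).trans k3
  have hTp : 0 < T := by linarith
  have d5 : max 48 (1 / c4) ≤ Real.log T := by rw [Real.le_log_iff_exp_le hTp]; exact d4
  obtain ⟨L, hL⟩ : ∃ L : ℝ, L = Real.log T := ⟨_, rfl⟩
  rw [← hL] at d5 k2 hct ⊢
  have hL48 : 48 ≤ L := (le_max_left _ _).trans d5
  have hLc4 : 1 / c4 ≤ L := (le_max_right _ _).trans d5
  have hL0 : 0 < L := by linarith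
  have hhe1 : h / L ≤ e1 := k2.trans (min_le_left _ _)
  have hhR : 128 * (R * h) ≤ L := by
    have := k2.trans (min_le_right _ _)
    rw [div_le_div_iff₀ hL0 (by positivity)] at this
    linarith
  obtain ⟨K, hK⟩ : ∃ K : ℕ, K = ⌈2 * (R * h)⌉₊ := ⟨_, rfl⟩
  rw [← hK]
  have hK1 : 2 * (R * h) ≤ K := by rw [hK]; exact Nat.le_ceil _
  have hK2 : (K : ℝ) ≤ 3 * (R * h) := by
    have : (K : ℝ) < 2 * (R * h) + 1 := by rw [hK]; exact Nat.ceil_lt_add_one (by positivity)
    linarith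
  have hKr : r0 ≤ K := by
    have : (r0 : ℝ) ≤ K := a4.trans hK1
    exact_mod_cast this
  have hK1' : (1 : ℝ) ≤ K := by linarith
  have hKn1 : 1 ≤ K := by exact_mod_cast hK1'
  obtain ⟨N, hN⟩ : ∃ N : ℕ, N = NZ (2 * T) := ⟨_, rfl⟩
  have hNup : (N : ℝ) ≤ C3 * (T * L) := by rw [hN, hL]; exact hup T d1
  have hNlow : T ≤ N := by
    have b1 := hlow T d2
    rw [← hL, ← hN] at b1
    have b2 : 1 ≤ c4 * L := by
      rw [div_le_iff₀ hc4] at hLc4
      linarith
    have b3 : T * 1 ≤ T * (c4 * L) := mul_le_mul_of_nonneg_left b2 hTp.le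
    linarith
  have hN1 : 1 ≤ N := by
    have : (1 : ℝ) ≤ N := by linarith
    exact_mod_cast this
  have hlogK : Real.log K ≤ Real.log (3 * (R * h)) := Real.log_le_log (by linarith) hK2
  have hlogK0 : 0 ≤ Real.log K := Real.log_nonneg hK1'
  have hKlog : (K : ℝ) * Real.log K ≤ Real.log N := by
    have b1 : (K : ℝ) * Real.log K ≤ 3 * (R * h) * (2 * Real.log h) := by
      apply mul_le_mul hK2 _ hlogK0 (by positivity)
      refine hlogK.trans ?_
      have b2 : Real.log (3 * (R * h)) ≤ Real.log (h * h) := by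
        apply Real.log_le_log (by positivity)
        have : 3 * R * h ≤ h * h := mul_le_mul_of_nonneg_right a5 hhp.le
        linarith
      rw [Real.log_mul hhp.ne' hhp.ne'] at b2
      linarith
    have hlh : 0 ≤ Real.log h := Real.log_nonneg (by linarith)
    have b3 : 6 * R * B * (h * Real.log h) ≤ Real.log h * (h * Real.log h) :=
      mul_le_mul_of_nonneg_right a6 (by positivity)
    have b4 : B * (3 * (R * h) * (2 * Real.log h)) ≤ B * L := by
      refine le_trans (le_of_eq ?_) (b3.trans ((le_of_eq ?_).trans hct))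
      · ring
      · ring
    have b5 : 3 * (R * h) * (2 * Real.log h) ≤ L := le_of_mul_le_mul_left b4 (by linarith)
    refine (b1.trans b5).trans ?_
    rw [hL]
    exact Real.log_le_log hTp hNlow
  have hmK := hr0 K hKr N hN1 hKlog
  have hlm : lm K ^ 2 ≤ c * (3 * (R * h)) := by
    unfold Pool.Agent.Y743.CL.lm
    rw [div_pow, Real.sq_sqrt hlogK0]
    rw [div_le_iff₀ (by positivity)]
    have b1 : Real.log K ≤ c * (3 * (R * h)) := hlogK.trans a7
    have b2 : 0 ≤ c * (3 * (R * h)) * (Real.pi ^ 2 - 1) := by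
      apply mul_nonneg (by positivity)
      nlinarith
    linarith
  have hmom2 : ∀ a : ℕ, 1 ≤ a → a ≤ K → ∑ n ∈ Finset.Icc 1 N, (SS a n - a) ^ 2 ≤ C2 * (c * (3 * (R * h))) * N := by
    intro a ha1 haK
    have b1 := hmK a ha1 haK
    rcases eq_or_lt_of_le (show (0 : ℝ) ≤ lm K ^ 2 from sq_nonneg _) with h0 | h0
    · -- degenerate: `K = 1`
      exfalso
      have b2 : lm K = 0 := by
        have := h0.symm
        exact pow_eq_zero_iff (two_ne_zero) |>.1 this
      unfold Pool.Agent.Y743.CL.lm at b2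
      have b3 : Real.sqrt (Real.log K) = 0 := by
        rcases div_eq_zero_iff.1 b2 with h | h
        · exact h
        · exact absurd h hpi.ne'
      have b4 : 0 < Real.log K := Real.log_pos (by linarith)
      exact absurd b3 (Real.sqrt_pos.2 b4).ne'
    · have b2 : ∑ n ∈ Finset.Icc 1 N, (SS a n - a) ^ 2 = lm K ^ 2 * ∑ n ∈ Finset.Icc 1 N, |(SS a n - a) / lm K| ^ 2 := by
        rw [Finset.mul_sum]
        refine Finset.sum_congr rfl fun n _ => ?_
        rw [sq_abs, div_pow, mul_div_cancel₀ _ h0.ne']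
      rw [b2]
      calc lm K ^ 2 * ∑ n ∈ Finset.Icc 1 N, |(SS a n - a) / lm K| ^ 2 ≤ (c * (3 * (R * h))) * (C2 * N) := by
            apply mul_le_mul hlm b1 (Finset.sum_nonneg fun _ _ => by positivity) (by positivity)
        _ = _ := by ring
  -- the pointwise bound
  have hpt : ∀ n ∈ Finset.Ioc (NZ A) (NZ A'), min 2 |Z T h w (ord n) + Gs w h K n| ≤
      C1 * (h / L + 1 / h) + C1 / h ^ 2 * (∑ m ∈ Finset.range K, (SS (m + 1) n - (m + 1)) ^ 2) +
      8 / (R * h) ^ 2 * (SS K n - K) ^ 2 := by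
    intro n hn
    rw [Finset.mem_Ioc] at hn
    have hn1 : 1 ≤ n := by omega
    have h1 : T ≤ ord n := by
      by_contra hcon
      push Not at hcon
      have := (SG.ord_le_iff hn1 A).1 (by linarith)
      omega
    have h2 : ord n ≤ 2 * T := ((SG.ord_le_iff hn1 A').2 hn.2).trans hA'
    have p1 : 0 ≤ C1 * (h / L + 1 / h) := by positivity
    have p2 : 0 ≤ C1 / h ^ 2 * (∑ m ∈ Finset.range K, (SS (m + 1) n - (m + 1)) ^ 2) :=
      mul_nonneg (by positivity) (Finset.sum_nonneg fun _ _ => sq_nonneg _)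
    have p3 : 0 ≤ 8 / (R * h) ^ 2 * (SS K n - K) ^ 2 := by positivity
    by_cases hS : |SS K n - K| ≤ R * h / 2
    · refine (min_le_right _ _).trans ?_
      have b1 := hptw h T (by linarith) hRh d3 (by rw [← hL]; exact hhR) (by rw [← hL]; exact hL48) n K hn1 h1 h2
        hK1 hK2 hS
      rw [← hL] at b1
      have b2 : C1 * (h / L + 1 / h + (∑ m ∈ Finset.range K, (SS (m + 1) n - (m + 1)) ^ 2) / h ^ 2) =
          C1 * (h / L + 1 / h) + C1 / h ^ 2 * (∑ m ∈ Finset.range K, (SS (m + 1) n - (m + 1)) ^ 2) := by ring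
      rw [b2] at b1
      linarith
    · push Not at hS
      refine (min_le_left _ _).trans ?_
      have b1 : (R * h / 2) ^ 2 ≤ (SS K n - K) ^ 2 := by
        rw [← sq_abs (SS K n - K)]
        exact pow_le_pow_left₀ (by positivity) hS.le 2
      have b2 : 2 ≤ 8 / (R * h) ^ 2 * (SS K n - K) ^ 2 := by
        calc (2 : ℝ) = 8 / (R * h) ^ 2 * (R * h / 2) ^ 2 := by field_simp; norm_num
          _ ≤ _ := by gcongr
      linarith
  have hsub : Finset.Ioc (NZ A) (NZ A') ⊆ Finset.Icc 1 N := by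
    intro n hn
    rw [Finset.mem_Ioc] at hn
    rw [Finset.mem_Icc]
    refine ⟨by omega, hn.2.trans ?_⟩
    rw [hN]
    exact SG.NZ_mono hA'
  refine (Finset.sum_le_sum hpt).trans ?_
  refine (Finset.sum_le_sum_of_subset_of_nonneg hsub fun n _ _ => ?_).trans ?_
  · have p1 : 0 ≤ C1 * (h / L + 1 / h) := by positivity
    have p2 : 0 ≤ C1 / h ^ 2 * (∑ m ∈ Finset.range K, (SS (m + 1) n - (m + 1)) ^ 2) :=
      mul_nonneg (by positivity) (Finset.sum_nonneg fun _ _ => sq_nonneg _)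
    have p3 : 0 ≤ 8 / (R * h) ^ 2 * (SS K n - K) ^ 2 := by positivity
    linarith
  rw [Finset.sum_add_distrib, Finset.sum_add_distrib, Finset.sum_const, ← Finset.mul_sum, ← Finset.mul_sum,
    Finset.sum_comm, Nat.card_Icc, Nat.add_sub_cancel, nsmul_eq_mul]
  have hN0 : (0 : ℝ) ≤ N := by linarith
  have q1 : (N : ℝ) * (C1 * (h / L + 1 / h)) ≤ ε / 4 * (T * L) := by
    have b1 : 1 / h ≤ e1 := by
      rw [div_le_iff₀ hhp]
      rw [div_le_iff₀ he10] at a3
      linarith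
    calc (N : ℝ) * (C1 * (h / L + 1 / h)) ≤ (C3 * (T * L)) * (C1 * (e1 + e1)) := by
          gcongr
      _ = _ := by rw [he1]; field_simp; norm_num
  have q2 : C1 / h ^ 2 * ∑ m ∈ Finset.range K, ∑ n ∈ Finset.Icc 1 N, (SS (m + 1) n - (m + 1)) ^ 2 ≤
      (C1 * (C2 + 1) * 9 * R ^ 2) * c * (C3 * (T * L)) := by
    have b1 : ∑ m ∈ Finset.range K, ∑ n ∈ Finset.Icc 1 N, (SS (m + 1) n - (m + 1)) ^ 2 ≤
        K * (C2 * (c * (3 * (R * h))) * N) := by
      have : ∀ m ∈ Finset.range K, ∑ n ∈ Finset.Icc 1 N, (SS (m + 1) n - (m + 1)) ^ 2 ≤ C2 * (c * (3 * (R * h))) * N := by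
        intro m hm
        rw [Finset.mem_range] at hm
        have := hmom2 (m + 1) (by omega) (by omega)
        push_cast at this
        exact this
      refine (Finset.sum_le_sum this).trans (le_of_eq ?_)
      rw [Finset.sum_const, Finset.card_range, nsmul_eq_mul]
    calc C1 / h ^ 2 * ∑ m ∈ Finset.range K, ∑ n ∈ Finset.Icc 1 N, (SS (m + 1) n - (m + 1)) ^ 2 ≤
        C1 / h ^ 2 * ((3 * (R * h)) * ((C2 + 1) * (c * (3 * (R * h))) * (C3 * (T * L)))) := by
          apply mul_le_mul_of_nonneg_left _ (by positivity)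
          refine b1.trans ?_
          gcongr
          linarith
      _ = _ := by field_simp; norm_num
  have q3 : 8 / (R * h) ^ 2 * ∑ n ∈ Finset.Icc 1 N, (SS K n - K) ^ 2 ≤
      (24 * (C2 + 1) / R) * c * (C3 * (T * L)) := by
    have b1 := hmom2 K hKn1 le_rfl
    calc 8 / (R * h) ^ 2 * ∑ n ∈ Finset.Icc 1 N, (SS K n - K) ^ 2 ≤
        8 / (R * h) ^ 2 * ((C2 + 1) * (c * (3 * (R * h))) * (C3 * (T * L))) := by
          apply mul_le_mul_of_nonneg_left _ (by positivity)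
          refine b1.trans ?_
          gcongr
          linarith
      _ = (24 * (C2 + 1) / R) * c * (C3 * (T * L)) * (1 / h) := by field_simp; norm_num
      _ ≤ (24 * (C2 + 1) / R) * c * (C3 * (T * L)) * 1 := by
          apply mul_le_mul_of_nonneg_left _ (by positivity)
          rw [div_le_one hhp]
          linarith
      _ = _ := mul_one _
  have q4 : (C1 * (C2 + 1) * 9 * R ^ 2) * c * (C3 * (T * L)) + (24 * (C2 + 1) / R) * c * (C3 * (T * L)) =
      ε / 8 * (T * L) := by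
    have : (C1 * (C2 + 1) * 9 * R ^ 2) * c * (C3 * (T * L)) + (24 * (C2 + 1) / R) * c * (C3 * (T * L)) =
        (C1 * (C2 + 1) * 9 * R ^ 2 + 24 * (C2 + 1) / R) * c * (C3 * (T * L)) := by ring
    rw [this]
    obtain ⟨D, hD⟩ : ∃ D : ℝ, D = C1 * (C2 + 1) * 9 * R ^ 2 + 24 * (C2 + 1) / R := ⟨_, rfl⟩
    have hD0 : 0 < D := by rw [hD]; positivity
    rw [← hD] at hc ⊢
    rw [hc]
    field_simp
  have q5 : 0 ≤ ε * (T * L) := by positivity
  linarith

end

end Pool.Agent.K6.H57.ML
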