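import Pool.Agent.K6.H57.ML.Pa
import Pool.Agent.K6.H57.ML.Gav

/-! # All zeros -/

set_option autoImplicit false

open MeasureTheory Set Filter Topology
open scoped ContDiff FourierTransform

namespace Pool.Agent.K6.H57.ML

open SG (ord NZ)
open SP (RHs)
open Pool.Agent.R320.JL (exp_lip split_sum)

noncomputable section

lemma rhs_of (hRH : RiemannHypothesis) : RHs := by
  intro s h0 h1 hz
  refine hRH s hz ?_ ?_
  · rintro ⟨n, hn⟩
    rw [hn] at h0
    have : ((-2 * ((n : ℂ) + 1)).re : ℝ) = -2 * (n + 1) := by simp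
    rw [this] at h0
    have : (0 : ℝ) ≤ n := Nat.cast_nonneg n
    linarith
  · intro h
    rw [h] at h1
    simp at h1

lemma Ts_zero {R : ℝ} (hR : 0 < R) : Ts R fun _ => (0 : ℝ) := by
  refine ⟨⟨contDiff_const, HasCompactSupport.zero⟩, hR, ?_⟩
  have : tsupport (fun _ : ℝ => (0 : ℝ)) = ∅ := tsupport_eq_empty_iff.2 rfl
  rw [this]
  exact empty_subset _

lemma J_zero : J (fun _ => (0 : ℝ)) = 0 := by
  have h : ∀ ξ : ℝ, hat (fun _ => (0 : ℝ)) ξ = 0 := by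
    intro ξ
    unfold hat
    simp [Real.fourier_eq]
  unfold J
  simp [h]

lemma Z_zero (T h t : ℝ) : Z T h (fun _ => (0 : ℝ)) t = 0 := by
  unfold Z
  simp

/-- **one block** -/
theorem blkG (RH : RiemannHypothesis) {R : ℝ} {w : ℝ → ℝ} (hw : Ts R w) (B : ℝ) (hB : 1 ≤ B)
    (ε : ℝ) (hε : 0 < ε) : ∃ h0 : ℝ, 3 ≤ h0 ∧ ∀ h : ℝ, h0 ≤ h → ∀ T : ℝ, 1 ≤ T →
    h * Real.log h ^ 2 ≤ B * Real.log T → ∀ A A' : ℝ, T + Real.log T + 20 ≤ A → A + 1 ≤ A' →
    A' ≤ 2 * T - Real.log T - 20 →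
    ‖∑ n ∈ Finset.Ioc (NZ A) (NZ A'), (Complex.exp (Complex.I * (Gs w h ⌈2 * (R * h)⌉₊ n : ℂ)) -
      (Real.exp (-J w) : ℂ))‖ ≤ ε * (T * Real.log T) := by
  obtain ⟨h1, hh1, hp1⟩ := palmZ RH hw B hB (ε / 4) (by positivity)
  obtain ⟨h2, hh2, hp2⟩ := palmZ RH (Ts_zero hw.pos) B hB (ε / 4) (by positivity)
  obtain ⟨h3, hh3, hp3⟩ := gavg (rhs_of RH) hw B hB (ε / 4) (by positivity)
  refine ⟨max h1 (max h2 h3), hh1.trans (le_max_left _ _), fun h hh T hT hc A A' hA hAA hA' => ?_⟩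
  have hm1 : h1 ≤ h := (le_max_left _ _).trans hh
  have hm2 : h2 ≤ h := ((le_max_left _ _).trans (le_max_right _ _)).trans hh
  have hm3 : h3 ≤ h := ((le_max_right _ _).trans (le_max_right _ _)).trans hh
  have hlT : 0 ≤ Real.log T := Real.log_nonneg hT
  have g1 := hp1 h hm1 T hT hc A A' hA hAA hA'
  have g2 := hp2 h hm2 T hT hc A A' hA hAA hA'
  have g3 := hp3 h hm3 T hT hc A A' (by linarith) (by linarith)
  simp only [Z_zero, J_zero, Complex.ofReal_zero, mul_zero, Complex.exp_zero, neg_zero, Real.exp_zero,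
    mul_one, Finset.sum_const, nsmul_eq_mul] at g2
  obtain ⟨E, hE⟩ : ∃ E : ℝ, E = Real.exp (-J w) := ⟨_, rfl⟩
  rw [← hE] at g1 ⊢
  have hE0 : 0 < E := by rw [hE]; exact Real.exp_pos _
  have hE1 : E ≤ 1 := by
    rw [hE]
    exact Real.exp_le_one_iff.2 (by linarith [J_nonneg w])
  rw [Finset.sum_sub_distrib, Finset.sum_const, nsmul_eq_mul]
  obtain ⟨m1, hm1'⟩ : ∃ m1 : ℝ, m1 = Real.log T / (2 * Real.pi) * (A' - A) := ⟨_, rfl⟩
  rw [← hm1'] at g2
  have e0 : Real.log T / (2 * Real.pi) * ((A' - A) * E) = m1 * E := by rw [hm1']; ring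
  rw [e0] at g1
  obtain ⟨S1, hs1⟩ : ∃ S1 : ℂ, S1 = ∑ n ∈ Finset.Ioc (NZ A) (NZ A'), Complex.exp (Complex.I * (Z T h w (ord n) : ℂ)) := ⟨_, rfl⟩
  obtain ⟨S2, hs2⟩ : ∃ S2 : ℂ, S2 = ∑ n ∈ Finset.Ioc (NZ A) (NZ A'), Complex.exp (Complex.I * (Gs w h ⌈2 * (R * h)⌉₊ n : ℂ)) := ⟨_, rfl⟩
  rw [← hs1] at g1
  rw [← hs2]
  have g4 : ‖S2 - (starRingEnd ℂ) S1‖ ≤ ε / 4 * (T * Real.log T) := by
    refine le_trans ?_ g3
    rw [hs1, hs2, map_sum, ← Finset.sum_sub_distrib]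
    refine (norm_sum_le _ _).trans (Finset.sum_le_sum fun n _ => ?_)
    have e1 : (starRingEnd ℂ) (Complex.exp (Complex.I * (Z T h w (ord n) : ℂ))) =
        Complex.exp (Complex.I * ((-Z T h w (ord n) : ℝ) : ℂ)) := by
      rw [← Complex.exp_conj, map_mul, Complex.conj_I, Complex.conj_ofReal]
      push_cast
      ring_nf
    rw [e1]
    refine le_min ?_ ?_
    · refine (norm_sub_le _ _).trans ?_
      rw [Complex.norm_exp_I_mul_ofReal, Complex.norm_exp_I_mul_ofReal]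
      norm_num
    · refine (exp_lip _ _).trans (le_of_eq ?_)
      rw [sub_neg_eq_add, add_comm]
  have g5 : ‖(starRingEnd ℂ) S1 - ((m1 * E : ℝ) : ℂ)‖ ≤ ε / 4 * (T * Real.log T) := by
    have e1 : (starRingEnd ℂ) S1 - ((m1 * E : ℝ) : ℂ) = (starRingEnd ℂ) (S1 - ((m1 * E : ℝ) : ℂ)) := by
      rw [map_sub, Complex.conj_ofReal]
    rw [e1, RCLike.norm_conj]
    exact g1
  obtain ⟨m2, hm2'⟩ : ∃ m2 : ℂ, m2 = ((Finset.Ioc (NZ A) (NZ A')).card : ℂ) := ⟨_, rfl⟩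
  rw [← hm2'] at g2 ⊢
  have e1 : S2 - m2 * (E : ℂ) = (S2 - (starRingEnd ℂ) S1) + ((starRingEnd ℂ) S1 - ((m1 * E : ℝ) : ℂ)) -
      (E : ℂ) * (m2 - (m1 : ℂ)) := by
    push_cast
    ring
  rw [e1]
  refine (norm_sub_le _ _).trans ((add_le_add (norm_add_le _ _) le_rfl).trans ?_)
  rw [norm_mul, Complex.norm_real, Real.norm_eq_abs, abs_of_pos hE0]
  have e2 : E * ‖m2 - (m1 : ℂ)‖ ≤ 1 * (ε / 4 * (T * Real.log T)) := by gcongr
  have e3 : 0 ≤ ε * (T * Real.log T) := by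
    have : 0 ≤ T := by linarith
    positivity
  linarith

/-- **all zeros** -/
theorem allG (RH : RiemannHypothesis) {R : ℝ} {w : ℝ → ℝ} (hw : Ts R w) (B : ℝ) (hB : 1 ≤ B)
    (ε : ℝ) (hε : 0 < ε) : ∃ h0 : ℝ, 3 ≤ h0 ∧ ∀ h : ℝ, h0 ≤ h → ∀ N : ℕ, 1 ≤ N →
    h * Real.log h ^ 2 ≤ B * Real.log N →
    ‖∑ n ∈ Finset.Icc 1 N, (Complex.exp (Complex.I * (Gs w h ⌈2 * (R * h)⌉₊ n : ℂ)) -
      (Real.exp (-J w) : ℂ))‖ ≤ ε * N := by
  obtain ⟨C2, hC2, N1, hN1, hNx⟩ := Pool.Agent.R320.VQ.N_x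
  obtain ⟨C3, T3, hC3, hT3, hup⟩ := LG.GapAux.NZ_up
  obtain ⟨C4, hC4, hunit⟩ := Pool.Agent.Y743.NC.unit_count
  obtain ⟨K, hK⟩ : ∃ K : ℕ, (2 / 3 : ℝ) ^ K < ε / (4 * (2 * C3 * C2)) :=
    exists_pow_lt_of_lt_one (by positivity) (by norm_num)
  obtain ⟨ρ, hρ⟩ : ∃ ρ : ℝ, ρ = (2 / 3 : ℝ) ^ K := ⟨_, rfl⟩
  rw [← hρ] at hK
  have hρ0 : 0 < ρ := by rw [hρ]; positivity
  have hρ1 : ρ ≤ 1 := by rw [hρ]; exact pow_le_one₀ (by norm_num) (by norm_num)
  obtain ⟨ε', hε'⟩ : ∃ ε' : ℝ, ε' = ε / (4 * (K + 1) * C2) := ⟨_, rfl⟩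
  have hε'0 : 0 < ε' := by rw [hε']; positivity
  have hlog := Real.tendsto_log_atTop
  -- large heights
  have ev1 : ∀ᶠ x : ℝ in atTop, C2 * (x * Real.log x) ≤ (3 / 5 * ρ * x) ^ 2 := by
    have h2 := Real.isLittleO_log_id_atTop.bound (c := (3 / 5 * ρ) ^ 2 / C2) (by positivity)
    filter_upwards [h2, eventually_ge_atTop 1] with x hx hx1
    rw [id, Real.norm_of_nonneg (Real.log_nonneg hx1), Real.norm_of_nonneg (by linarith)] at hx
    calc C2 * (x * Real.log x) ≤ C2 * (x * ((3 / 5 * ρ) ^ 2 / C2 * x)) := by gcongr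
      _ = _ := by field_simp
  have ev2 : ∀ᶠ y : ℝ in atTop, Real.log y + 20 ≤ y / 15 ∧ 2 * T3 ≤ y ∧ 3 ≤ y := by
    have h2 := Real.isLittleO_log_id_atTop.bound (c := 1 / 30) (by positivity)
    filter_upwards [h2, eventually_ge_atTop 600, eventually_ge_atTop (2 * T3)] with x hx hx1 hx2
    rw [id, Real.norm_of_nonneg (Real.log_nonneg (by linarith)), Real.norm_of_nonneg (by linarith)] at hx
    exact ⟨by linarith, hx2, by linarith⟩
  obtain ⟨y0, hy0⟩ := ev2.exists_forall_of_atTop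
  have ev3 : ∀ᶠ x : ℝ in atTop, y0 ≤ ρ * x := by
    filter_upwards [eventually_ge_atTop (y0 / ρ)] with x hx
    rw [div_le_iff₀ hρ0] at hx
    linarith
  have ev4 : ∀ᶠ x : ℝ in atTop, 2 * (C4 * Real.log x) ≤ ε / (4 * C2) * (x * Real.log x) := by
    filter_upwards [eventually_ge_atTop (max 1 (2 * C4 / (ε / (4 * C2))))] with x hx
    have hx1 : 1 ≤ x := (le_max_left _ _).trans hx
    have hx2 : 2 * C4 / (ε / (4 * C2)) ≤ x := (le_max_right _ _).trans hx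
    rw [div_le_iff₀ (by positivity)] at hx2
    have hl := Real.log_nonneg hx1
    calc 2 * (C4 * Real.log x) = (2 * C4) * Real.log x := by ring
      _ ≤ (x * (ε / (4 * C2))) * Real.log x := mul_le_mul_of_nonneg_right hx2 hl
      _ = _ := by ring
  have ev := SG.ord_tendsto.eventually ((ev1.and ev3).and (ev4.and (eventually_ge_atTop 10)))
  obtain ⟨N2, hN2⟩ := ev.exists_forall_of_atTop
  obtain ⟨g0, hg0, hblkG⟩ := blkG RH hw (2 * B) (by linarith) ε' hε'0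
  obtain ⟨g1, hg1, hcond⟩ := cond one_pos hB g0 1 (max N1 N2) one_pos
  refine ⟨g1, hg1, fun h hh N hN hrN => ?_⟩
  have hNr : (1 : ℝ) ≤ N := by exact_mod_cast hN
  obtain ⟨c1, -, c3, -, -⟩ := hcond h hh N hNr hrN
  have hNN1 : N1 ≤ N := by exact_mod_cast (le_max_left _ _).trans c3
  have hNN2 : N2 ≤ N := by exact_mod_cast (le_max_right _ _).trans c3
  obtain ⟨hxN, hNx'⟩ := hNx N hNN1
  obtain ⟨⟨g1, g2⟩, ⟨g3, g4⟩⟩ := hN2 N hNN2
  obtain ⟨x, hx⟩ : ∃ x : ℝ, x = ord N := ⟨_, rfl⟩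
  rw [← hx] at hxN hNx' g1 g2 g3 g4
  obtain ⟨E, hE⟩ : ∃ E : ℝ, E = Real.exp (-J w) := ⟨_, rfl⟩
  rw [← hE]
  have hE0 : 0 < E := by rw [hE]; exact Real.exp_pos _
  have hE1 : E ≤ 1 := by
    rw [hE]
    exact Real.exp_le_one_iff.2 (by linarith [J_nonneg w])
  obtain ⟨g, hg⟩ : ∃ g : ℕ → ℂ, g = fun n => Complex.exp (Complex.I * (Gs w h ⌈2 * (R * h)⌉₊ n : ℂ)) - (E : ℂ) := ⟨_, rfl⟩
  have hgn : ∀ n, ‖g n‖ ≤ 2 := by
    intro n
    rw [hg]
    refine (norm_sub_le _ _).trans ?_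
    rw [Complex.norm_exp_I_mul_ofReal, Complex.norm_real, Real.norm_eq_abs, abs_of_pos hE0]
    linarith
  have hcard : ∀ S : Finset ℕ, ‖∑ n ∈ S, g n‖ ≤ 2 * S.card := by
    intro S
    refine (norm_sum_le _ _).trans ((Finset.sum_le_sum fun n _ => hgn n).trans (le_of_eq ?_))
    rw [Finset.sum_const, nsmul_eq_mul]
    ring
  have hlx : 0 < Real.log x := Real.log_pos (by linarith)
  have hx0 : 0 < x := by linarith
  -- the index range
  have hNZ : N ≤ NZ x := by rw [hx]; exact SG.le_NZ_ord hN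
  have e1 : ∑ n ∈ Finset.Icc 1 N, g n = ∑ n ∈ Finset.Icc 1 (NZ x), g n - ∑ n ∈ Finset.Ioc N (NZ x), g n := by
    have e2 : Finset.Icc 1 (NZ x) = Finset.Icc 1 N ∪ Finset.Ioc N (NZ x) := by
      ext n
      simp only [Finset.mem_union, Finset.mem_Icc, Finset.mem_Ioc]
      omega
    rw [e2, Finset.sum_union, add_sub_cancel_right]
    rw [Finset.disjoint_left]
    intro n h4 h5
    rw [Finset.mem_Icc] at h4
    rw [Finset.mem_Ioc] at h5
    omega
  have hend : ‖∑ n ∈ Finset.Ioc N (NZ x), g n‖ ≤ ε / 4 * N := by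
    refine (hcard _).trans ?_
    rw [Nat.card_Ioc]
    have a1 : NZ (x - 1) < N := by
      by_contra hcon
      push Not at hcon
      have := (SG.ord_le_iff hN _).mpr hcon
      linarith
    have a2 := hunit (x - 1) (by linarith)
    rw [sub_add_cancel] at a2
    have a3 : ((NZ x - N : ℕ) : ℝ) ≤ C4 * Real.log x := by
      rw [Nat.cast_sub hNZ]
      have a4 : (NZ (x - 1) : ℝ) ≤ N := by exact_mod_cast a1.le
      have a5 : Real.log (x - 1) ≤ Real.log x := Real.log_le_log (by linarith) (by linarith)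
      have a6 : C4 * Real.log (x - 1) ≤ C4 * Real.log x := mul_le_mul_of_nonneg_left a5 hC4.le
      linarith
    calc 2 * ((NZ x - N : ℕ) : ℝ) ≤ 2 * (C4 * Real.log x) := by gcongr
      _ ≤ ε / (4 * C2) * (x * Real.log x) := g3
      _ ≤ ε / (4 * C2) * (C2 * N) := by gcongr
      _ = _ := by field_simp
  -- the low part
  have hρx := hy0 (ρ * x) g2
  have hlow : ‖∑ n ∈ Finset.Icc 1 (NZ (ρ * x)), g n‖ ≤ ε / 4 * N := by
    refine (hcard _).trans ?_
    rw [Nat.card_Icc, Nat.add_sub_cancel]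
    have a1 := hup (ρ * x / 2) (by linarith [hρx.2.1])
    have e2 : 2 * (ρ * x / 2) = ρ * x := by ring
    rw [e2] at a1
    have a2 : ρ * x / 2 * Real.log (ρ * x / 2) ≤ ρ * (x * Real.log x) := by
      have b1 : Real.log (ρ * x / 2) ≤ Real.log x := Real.log_le_log (by positivity) (by nlinarith)
      calc ρ * x / 2 * Real.log (ρ * x / 2) ≤ ρ * x / 2 * Real.log x := by gcongr
        _ ≤ ρ * x * Real.log x := by
          apply mul_le_mul_of_nonneg_right _ hlx.le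
          have : 0 < ρ * x := by positivity
          linarith
        _ = _ := by ring
    calc 2 * (NZ (ρ * x) : ℝ) ≤ 2 * (C3 * (ρ * (x * Real.log x))) := by
          apply mul_le_mul_of_nonneg_left _ (by norm_num)
          refine a1.trans ?_
          exact mul_le_mul_of_nonneg_left a2 hC3.le
      _ ≤ 2 * (C3 * (ρ * (C2 * N))) := by gcongr
      _ = (2 * C3 * C2) * ρ * N := by ring
      _ ≤ (2 * C3 * C2) * (ε / (4 * (2 * C3 * C2))) * N := by gcongr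
      _ = _ := by field_simp
  -- the blocks
  have hblk : ∀ j ∈ Finset.range K, ‖∑ n ∈ Finset.Ioc (NZ (2 / 3 * ((2 / 3) ^ j * x)))
      (NZ ((2 / 3) ^ j * x)), g n‖ ≤ ε' * (x * Real.log x) := by
    intro j hj
    rw [Finset.mem_range] at hj
    obtain ⟨y, hy⟩ : ∃ y : ℝ, y = (2 / 3) ^ j * x := ⟨_, rfl⟩
    rw [← hy]
    have hρy : ρ * x ≤ y := by
      rw [hy, hρ]
      apply mul_le_mul_of_nonneg_right _ hx0.le
      exact pow_le_pow_of_le_one (by norm_num) (by norm_num) hj.le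
    have hyx : y ≤ x := by
      rw [hy]
      have : (2 / 3 : ℝ) ^ j ≤ 1 := pow_le_one₀ (by norm_num) (by norm_num)
      nlinarith
    obtain ⟨k1, k2, k3⟩ := hy0 y (g2.trans hρy)
    have hT1 : 1 ≤ 3 / 5 * y := by linarith
    have hlogT : Real.log (3 / 5 * y) ≤ Real.log y := Real.log_le_log (by linarith) (by linarith)
    have hrT : h * Real.log h ^ 2 ≤ 2 * B * Real.log (3 / 5 * y) := by
      have m1 : Real.log N ≤ Real.log ((3 / 5 * ρ * x) ^ 2) := by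
        apply Real.log_le_log (by linarith)
        exact hNx'.trans g1
      rw [Real.log_pow] at m1
      have m2 : Real.log (3 / 5 * ρ * x) ≤ Real.log (3 / 5 * y) := by
        apply Real.log_le_log (by positivity)
        nlinarith
      push_cast at m1
      have m3 : B * Real.log N ≤ B * (2 * Real.log (3 / 5 * y)) := by
        apply mul_le_mul_of_nonneg_left _ (by linarith)
        linarith
      linarith
    have h4 := hblkG h c1 (3 / 5 * y) hT1 hrT (2 / 3 * y) y (by linarith) (by linarith) (by linarith)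
    rw [← hE] at h4
    rw [hg]
    refine h4.trans ?_
    have h5 : 3 / 5 * y * Real.log (3 / 5 * y) ≤ x * Real.log x := by
      apply mul_le_mul (by linarith) (hlogT.trans (Real.log_le_log (by linarith) hyx))
        (Real.log_nonneg hT1) hx0.le
    gcongr
  have hblks : ‖∑ k ∈ Finset.range K, ∑ n ∈ Finset.Ioc (NZ (2 / 3 * ((2 / 3) ^ k * x)))
      (NZ ((2 / 3) ^ k * x)), g n‖ ≤ ε / 4 * N := by
    refine (norm_sum_le _ _).trans ((Finset.sum_le_sum hblk).trans ?_)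
    rw [Finset.sum_const, Finset.card_range, nsmul_eq_mul, hε']
    have hKK : (K : ℝ) * (ε / (4 * (K + 1) * C2) * (x * Real.log x)) ≤
        (K + 1) * (ε / (4 * (K + 1) * C2) * (C2 * N)) := by
      apply mul_le_mul (by linarith) _ (by positivity) (by positivity)
      gcongr
    refine hKK.trans (le_of_eq ?_)
    field_simp
  have e2 := split_sum g x hx0.le K
  rw [← hρ] at e2
  have e3 : ∑ n ∈ Finset.Icc 1 N, (Complex.exp (Complex.I * (Gs w h ⌈2 * (R * h)⌉₊ n : ℂ)) - (E : ℂ)) =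
      ∑ n ∈ Finset.Icc 1 N, g n := by rw [hg]
  rw [e3, e1, e2]
  refine (norm_sub_le _ _).trans ?_
  have h6 := norm_add_le (∑ n ∈ Finset.Icc 1 (NZ (ρ * x)), g n)
    (∑ k ∈ Finset.range K, ∑ n ∈ Finset.Ioc (NZ (2 / 3 * ((2 / 3) ^ k * x))) (NZ ((2 / 3) ^ k * x)), g n)
  have h7 : 0 ≤ ε * N := by positivity
  linarith

end

end Pool.Agent.K6.H57.ML
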