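import Pool.Agent.K6.H57.ML.Four
import Pool.Agent.H382P.PrimePart

/-! # Bounds for the smoothed weights -/

set_option autoImplicit false

open MeasureTheory Set Filter Topology
open scoped ContDiff

namespace Pool.Agent.K6.H57.ML

open SP (bt)

noncomputable section

lemma g4_int (a : ℝ) : Integrable fun u : ℝ => Real.exp (-(u - a) ^ 2 / 4) := by
  have h := (integrable_exp_neg_mul_sq (b := 1 / 4) (by norm_num)).comp_sub_right a
  refine h.congr (ae_of_all _ fun u => ?_)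
  simp only
  congr 1
  ring

lemma g4_val (a : ℝ) : ∫ u : ℝ, Real.exp (-(u - a) ^ 2 / 4) = Real.sqrt 2 * Real.sqrt (2 * Real.pi) := by
  have h := integral_gaussian (1 / 4)
  rw [← integral_sub_right_eq_self (fun u : ℝ => Real.exp (-(1 / 4) * u ^ 2)) a] at h
  have e : (∫ u : ℝ, Real.exp (-(u - a) ^ 2 / 4)) = ∫ u : ℝ, Real.exp (-(1 / 4) * (u - a) ^ 2) := by
    refine integral_congr_ae (ae_of_all _ fun u => ?_)
    simp only
    congr 1
    ring
  rw [e, h, ← Real.sqrt_mul (by norm_num)]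
  congr 1
  ring

lemma sq_half (s : ℝ) : (1 + s ^ 2) * Real.exp (-s ^ 2 / 2) ≤ 5 * Real.exp (-s ^ 2 / 4) := by
  have h1 : Real.exp (-s ^ 2 / 2) = Real.exp (-s ^ 2 / 4) * Real.exp (-(s ^ 2 / 4)) := by
    rw [← Real.exp_add]; congr 1; ring
  have h2 := Real.add_one_le_exp (s ^ 2 / 4)
  have h3 : (1 + s ^ 2) * Real.exp (-(s ^ 2 / 4)) ≤ 5 := by
    rw [Real.exp_neg, ← div_eq_mul_inv, div_le_iff₀ (Real.exp_pos _)]
    nlinarith [sq_nonneg s]
  rw [h1]
  have h4 := Real.exp_pos (-s ^ 2 / 4)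
  nlinarith

/-- the basic estimate -/
lemma bt_bd {T : ℝ} (hT : 1 ≤ T) {W : ℝ → ℂ} (hW : Continuous W) {x M : ℝ} (hM : 0 ≤ M)
    (h : ∀ u, ‖W u‖ ≤ M * (1 + (u - Real.log x) ^ 2)) : ‖bt T W x‖ ≤ 8 * M := by
  have hL : 0 ≤ Real.log T := Real.log_nonneg hT
  have hpi := Real.pi_pos
  rw [SP.bt_norm]
  have h1 : ‖∫ u in (0 : ℝ)..Real.log T, W u * (Real.exp (-(u - Real.log x) ^ 2 / 2) : ℂ)‖ ≤
      ∫ u in (0 : ℝ)..Real.log T, 5 * M * Real.exp (-(u - Real.log x) ^ 2 / 4) := by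
    apply intervalIntegral.norm_integral_le_of_norm_le hL
    · refine Eventually.of_forall fun u _ => ?_
      rw [norm_mul, Complex.norm_real, Real.norm_of_nonneg (Real.exp_pos _).le]
      calc ‖W u‖ * Real.exp (-(u - Real.log x) ^ 2 / 2) ≤
          M * (1 + (u - Real.log x) ^ 2) * Real.exp (-(u - Real.log x) ^ 2 / 2) :=
            mul_le_mul_of_nonneg_right (h u) (Real.exp_pos _).le
        _ = M * ((1 + (u - Real.log x) ^ 2) * Real.exp (-(u - Real.log x) ^ 2 / 2)) := by ring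
        _ ≤ M * (5 * Real.exp (-(u - Real.log x) ^ 2 / 4)) :=
            mul_le_mul_of_nonneg_left (sq_half _) hM
        _ = _ := by ring
    · exact ((g4_int _).const_mul _).intervalIntegrable
  have h2 : (∫ u in (0 : ℝ)..Real.log T, 5 * M * Real.exp (-(u - Real.log x) ^ 2 / 4)) ≤
      5 * M * (Real.sqrt 2 * Real.sqrt (2 * Real.pi)) := by
    rw [intervalIntegral.integral_const_mul]
    apply mul_le_mul_of_nonneg_left _ (by positivity)
    rw [intervalIntegral.integral_of_le hL, ← g4_val (Real.log x)]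
    exact setIntegral_le_integral (g4_int _) (Eventually.of_forall fun u => (Real.exp_pos _).le)
  have h3 : 0 < Real.sqrt (2 * Real.pi) := by positivity
  have h4 : Real.sqrt 2 ≤ 3 / 2 := by
    rw [Real.sqrt_le_left (by norm_num)]
    norm_num
  calc (1 / Real.sqrt (2 * Real.pi)) *
      ‖∫ u in (0 : ℝ)..Real.log T, W u * (Real.exp (-(u - Real.log x) ^ 2 / 2) : ℂ)‖
      ≤ (1 / Real.sqrt (2 * Real.pi)) * (5 * M * (Real.sqrt 2 * Real.sqrt (2 * Real.pi))) :=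
        mul_le_mul_of_nonneg_left (h1.trans h2) (by positivity)
    _ = 5 * M * Real.sqrt 2 := by field_simp
    _ ≤ _ := by nlinarith

/-- decay of the smoothed weight -/
lemma bt_dec {T : ℝ} (hT : 1 ≤ T) {W : ℝ → ℂ} (hW : Continuous W) {x A e : ℝ} (hA : 0 ≤ A)
    (he : |e| ≤ 1) (h : ∀ u, ‖W u‖ ≤ A / (1 + (e * u) ^ 2)) :
    ‖bt T W x‖ ≤ 16 * A / (1 + (e * Real.log x) ^ 2) := by
  have h1 := bt_bd hT hW (x := x) (M := 2 * A / (1 + (e * Real.log x) ^ 2)) (by positivity) (fun u => by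
    refine (h u).trans ?_
    rw [div_mul_eq_mul_div, div_le_div_iff₀ (by positivity) (by positivity)]
    have he2 : e ^ 2 ≤ 1 := by
      have := sq_abs e
      nlinarith [abs_nonneg e]
    have h2 : 1 + (e * Real.log x) ^ 2 ≤ 2 * (1 + (u - Real.log x) ^ 2) * (1 + (e * u) ^ 2) := by
      have a1 : (e * Real.log x) ^ 2 ≤ 2 * (e * u) ^ 2 + 2 * (e * (u - Real.log x)) ^ 2 := by
        nlinarith [sq_nonneg (e * Real.log x - 2 * (e * u)), sq_nonneg (2 * (e * u) - e * Real.log x)]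
      have a2 : (e * (u - Real.log x)) ^ 2 ≤ (u - Real.log x) ^ 2 := by
        rw [mul_pow]
        nlinarith [sq_nonneg (u - Real.log x)]
      nlinarith [mul_nonneg (sq_nonneg (u - Real.log x)) (sq_nonneg (e * u)), sq_nonneg (u - Real.log x)]
    calc A * (1 + (e * Real.log x) ^ 2) ≤ A * (2 * (1 + (u - Real.log x) ^ 2) * (1 + (e * u) ^ 2)) :=
          mul_le_mul_of_nonneg_left h2 hA
      _ = _ := by ring)
  refine h1.trans (le_of_eq ?_)
  ring

/-- comparison with the weight -/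
lemma bt_near {T : ℝ} (hT : 1 ≤ T) {W : ℝ → ℂ} (hW : Continuous W) {x A Λ m : ℝ}
    (hA : ∀ u, ‖W u‖ ≤ A) (hΛ : ∀ u v, ‖W u - W v‖ ≤ Λ * |u - v|) (hm : 0 ≤ m)
    (h1 : m ≤ Real.log x) (h2 : m ≤ Real.log T - Real.log x) :
    ‖bt T W x - W (Real.log x)‖ ≤ 8 * Λ + 2 * A * Real.exp (-m ^ 2 / 4) := by
  have hL : 0 ≤ Real.log T := Real.log_nonneg hT
  have hpi := Real.pi_pos
  obtain ⟨a, ha⟩ : ∃ a : ℝ, a = Real.log x := ⟨_, rfl⟩
  rw [← ha] at h1 h2 ⊢
  have hΛ0 : 0 ≤ Λ := by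
    have := hΛ 1 0
    rw [sub_zero, abs_one, mul_one] at this
    exact (norm_nonneg _).trans this
  have hA0 : 0 ≤ A := (norm_nonneg _).trans (hA 0)
  have hs0 : 0 < Real.sqrt (2 * Real.pi) := by positivity
  have hgi : Integrable fun u : ℝ => Real.exp (-(u - a) ^ 2 / 2) := by
    have h := (integrable_exp_neg_mul_sq (b := 1 / 2) (by norm_num)).comp_sub_right a
    refine h.congr (ae_of_all _ fun u => ?_)
    simp only
    congr 1
    ring
  have hgic : Integrable fun u : ℝ => ((Real.exp (-(u - a) ^ 2 / 2) : ℝ) : ℂ) := hgi.ofReal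
  have hWi : Integrable fun u : ℝ => W u * ((Real.exp (-(u - a) ^ 2 / 2) : ℝ) : ℂ) :=
    hgic.bdd_mul hW.aestronglyMeasurable (ae_of_all _ hA)
  have hci : Integrable fun u : ℝ => W a * ((Real.exp (-(u - a) ^ 2 / 2) : ℝ) : ℂ) := hgic.const_mul _
  have hval : ∫ u : ℝ, W a * ((Real.exp (-(u - a) ^ 2 / 2) : ℝ) : ℂ) = W a * (Real.sqrt (2 * Real.pi) : ℂ) := by
    rw [integral_const_mul]
    congr 1
    have : (∫ u : ℝ, ((Real.exp (-(u - a) ^ 2 / 2) : ℝ) : ℂ)) =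
      ((∫ u : ℝ, Real.exp (-(u - a) ^ 2 / 2) : ℝ) : ℂ) := integral_ofReal (𝕜 := ℂ) (μ := volume)
    rw [this, SP.pp_gauss_int]
  have hsplit : (∫ u : ℝ, W u * ((Real.exp (-(u - a) ^ 2 / 2) : ℝ) : ℂ)) =
      (∫ u in (0 : ℝ)..Real.log T, W u * ((Real.exp (-(u - a) ^ 2 / 2) : ℝ) : ℂ)) +
      ∫ u in (Ioc 0 (Real.log T))ᶜ, W u * ((Real.exp (-(u - a) ^ 2 / 2) : ℝ) : ℂ) := by
    rw [intervalIntegral.integral_of_le hL, integral_add_compl measurableSet_Ioc hWi]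
  have e1 : (Real.sqrt (2 * Real.pi) : ℂ) * (bt T W x - W a) =
      (∫ u : ℝ, (W u * ((Real.exp (-(u - a) ^ 2 / 2) : ℝ) : ℂ) - W a * ((Real.exp (-(u - a) ^ 2 / 2) : ℝ) : ℂ))) -
      ∫ u in (Ioc 0 (Real.log T))ᶜ, W u * ((Real.exp (-(u - a) ^ 2 / 2) : ℝ) : ℂ) := by
    rw [integral_sub hWi hci, hval, hsplit]
    unfold SP.bt
    rw [← ha, mul_sub, ← mul_assoc, ← Complex.ofReal_mul, mul_one_div_cancel hs0.ne']
    simp only [Complex.ofReal_one, one_mul]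
    ring
  have b1 : ‖∫ u : ℝ, (W u * ((Real.exp (-(u - a) ^ 2 / 2) : ℝ) : ℂ) - W a * ((Real.exp (-(u - a) ^ 2 / 2) : ℝ) : ℂ))‖ ≤
      5 * Λ * (Real.sqrt 2 * Real.sqrt (2 * Real.pi)) := by
    rw [← g4_val a, ← integral_const_mul]
    refine norm_integral_le_of_norm_le ((g4_int a).const_mul _) (ae_of_all _ fun u => ?_)
    rw [← sub_mul, norm_mul, Complex.norm_real, Real.norm_of_nonneg (Real.exp_pos _).le]
    have c1 := hΛ u a
    have c2 : |u - a| ≤ 1 + (u - a) ^ 2 := by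
      rw [← sq_abs (u - a)]
      nlinarith [sq_nonneg (|u - a| - 1), abs_nonneg (u - a)]
    calc ‖W u - W a‖ * Real.exp (-(u - a) ^ 2 / 2) ≤ (Λ * (1 + (u - a) ^ 2)) * Real.exp (-(u - a) ^ 2 / 2) := by
          apply mul_le_mul_of_nonneg_right _ (Real.exp_pos _).le
          exact c1.trans (mul_le_mul_of_nonneg_left c2 hΛ0)
      _ = Λ * ((1 + (u - a) ^ 2) * Real.exp (-(u - a) ^ 2 / 2)) := by ring
      _ ≤ Λ * (5 * Real.exp (-(u - a) ^ 2 / 4)) := mul_le_mul_of_nonneg_left (sq_half _) hΛ0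
      _ = _ := by ring
  have b2 : ‖∫ u in (Ioc 0 (Real.log T))ᶜ, W u * ((Real.exp (-(u - a) ^ 2 / 2) : ℝ) : ℂ)‖ ≤
      A * Real.exp (-m ^ 2 / 4) * (Real.sqrt 2 * Real.sqrt (2 * Real.pi)) := by
    have c1 : ‖∫ u in (Ioc 0 (Real.log T))ᶜ, W u * ((Real.exp (-(u - a) ^ 2 / 2) : ℝ) : ℂ)‖ ≤
        ∫ u in (Ioc 0 (Real.log T))ᶜ, A * Real.exp (-m ^ 2 / 4) * Real.exp (-(u - a) ^ 2 / 4) := by
      refine norm_integral_le_of_norm_le ((g4_int a).const_mul _).integrableOn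
        ((ae_restrict_iff' measurableSet_Ioc.compl).2 (ae_of_all _ fun u hu => ?_))
      rw [norm_mul, Complex.norm_real, Real.norm_of_nonneg (Real.exp_pos _).le, mul_assoc, ← Real.exp_add]
      apply mul_le_mul (hA u) _ (Real.exp_pos _).le hA0
      apply Real.exp_le_exp.2
      have hm2 : m ^ 2 ≤ (u - a) ^ 2 := by
        rw [mem_compl_iff, mem_Ioc, not_and_or, not_lt, not_le] at hu
        rcases hu with hu | hu
        · nlinarith
        · nlinarith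
      linarith
    refine c1.trans ?_
    rw [integral_const_mul]
    apply mul_le_mul_of_nonneg_left _ (by positivity)
    rw [← g4_val a]
    exact setIntegral_le_integral (g4_int _) (Eventually.of_forall fun u => (Real.exp_pos _).le)
  have h4 : Real.sqrt 2 ≤ 3 / 2 := by
    rw [Real.sqrt_le_left (by norm_num)]
    norm_num
  have b3 : Real.sqrt (2 * Real.pi) * ‖bt T W x - W a‖ ≤ 5 * Λ * (Real.sqrt 2 * Real.sqrt (2 * Real.pi)) +
      A * Real.exp (-m ^ 2 / 4) * (Real.sqrt 2 * Real.sqrt (2 * Real.pi)) := by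
    have c1 : Real.sqrt (2 * Real.pi) * ‖bt T W x - W a‖ = ‖(Real.sqrt (2 * Real.pi) : ℂ) * (bt T W x - W a)‖ := by
      rw [norm_mul, Complex.norm_real, Real.norm_of_nonneg hs0.le]
    rw [c1, e1]
    exact (norm_sub_le _ _).trans (add_le_add b1 b2)
  have b4 : Real.sqrt (2 * Real.pi) * ‖bt T W x - W a‖ ≤
      Real.sqrt (2 * Real.pi) * ((5 * Λ + A * Real.exp (-m ^ 2 / 4)) * Real.sqrt 2) := by
    refine b3.trans (le_of_eq ?_)
    ring
  have b5 := le_of_mul_le_mul_left b4 hs0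
  refine b5.trans ?_
  have hE := Real.exp_pos (-m ^ 2 / 4)
  have : 0 ≤ 5 * Λ + A * Real.exp (-m ^ 2 / 4) := by positivity
  nlinarith [mul_nonneg hA0 hE.le]

/-! ### the weight `Wt` -/

lemma Wt_dec {w : ℝ → ℝ} (hw : Cc w) : ∃ C : ℝ, 0 < C ∧ ∀ κ L h u : ℝ, 0 < L → 0 < h →
    ‖Wt w κ L h u‖ ≤ C * (h / L) / (1 + (h / L * u) ^ 2) ^ 2 := by
  obtain ⟨C, hC, h1⟩ := hat_dec hw.sm hw.cs
  refine ⟨2 * C, by positivity, fun κ L h u hL hh => ?_⟩
  unfold Wt
  rw [norm_mul, Complex.norm_real, Real.norm_of_nonneg (by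
    have := chi_nonneg (u / (κ * L)); positivity)]
  have h2 := h1 (h / L * u)
  have h3 := chi_le (u / (κ * L))
  have h4 := chi_nonneg (u / (κ * L))
  calc 2 * (h / L) * chi (u / (κ * L)) * ‖hat w (h / L * u)‖ ≤
      2 * (h / L) * 1 * (C / (1 + (h / L * u) ^ 2) ^ 2) := by gcongr
    _ = _ := by ring

lemma chi_lip : ∃ C : ℝ, 0 < C ∧ ∀ x y, |chi x - chi y| ≤ C * |x - y| :=
  (Cc.lip ⟨chi_sm, chi_hcs⟩)

lemma Wt_lip {w : ℝ → ℝ} (hw : Cc w) : ∃ C : ℝ, 0 < C ∧ ∀ κ L h u v : ℝ, 0 < κ → 0 < L → 0 < h →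
    ‖Wt w κ L h u - Wt w κ L h v‖ ≤ C * (h / L) ^ 2 * (1 + 1 / (κ * h)) * |u - v| := by
  obtain ⟨C1, hC1, h1⟩ := hat_dec hw.sm hw.cs
  obtain ⟨C2, hC2, h2⟩ := hat_lip hw.sm hw.cs
  obtain ⟨C3, hC3, h3⟩ := chi_lip
  refine ⟨2 * (C2 + C3 * C1), by positivity, fun κ L h u v hκ hL hh => ?_⟩
  have hb : ∀ ξ, ‖hat w ξ‖ ≤ C1 := fun ξ => (h1 ξ).trans (div_le_self hC1.le (by
    have : 0 ≤ ξ ^ 2 := sq_nonneg _
    nlinarith))
  have e : Wt w κ L h u - Wt w κ L h v = ((2 * (h / L) : ℝ) : ℂ) * (((chi (u / (κ * L)) : ℝ) : ℂ) *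
      (hat w (h / L * u) - hat w (h / L * v)) + ((chi (u / (κ * L)) - chi (v / (κ * L)) : ℝ) : ℂ) *
      hat w (h / L * v)) := by
    unfold Wt
    push_cast
    ring
  rw [e, norm_mul, Complex.norm_real, Real.norm_of_nonneg (by positivity)]
  have k1 : ‖((chi (u / (κ * L)) : ℝ) : ℂ) * (hat w (h / L * u) - hat w (h / L * v))‖ ≤
      C2 * (h / L * |u - v|) := by
    rw [norm_mul, Complex.norm_real, Real.norm_of_nonneg (chi_nonneg _)]
    have a1 := h2 (h / L * u) (h / L * v)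
    rw [← mul_sub, abs_mul, abs_of_pos (by positivity : 0 < h / L)] at a1
    calc _ ≤ 1 * (C2 * (h / L * |u - v|)) :=
          mul_le_mul (chi_le _) a1 (norm_nonneg _) zero_le_one
      _ = _ := one_mul _
  have k2 : ‖((chi (u / (κ * L)) - chi (v / (κ * L)) : ℝ) : ℂ) * hat w (h / L * v)‖ ≤
      C3 * C1 * (1 / (κ * L) * |u - v|) := by
    rw [norm_mul, Complex.norm_real, Real.norm_eq_abs]
    have a1 := h3 (u / (κ * L)) (v / (κ * L))
    rw [← sub_div, abs_div, abs_of_pos (by positivity : 0 < κ * L)] at a1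
    calc _ ≤ (C3 * (|u - v| / (κ * L))) * C1 := mul_le_mul a1 (hb _) (norm_nonneg _) (by positivity)
      _ = _ := by ring
  have e2 : (1 : ℝ) / (κ * L) = h / L * (1 / (κ * h)) := by field_simp
  rw [e2] at k2
  have hd := abs_nonneg (u - v)
  have hq : 0 < h / L := by positivity
  have hr : 0 < 1 / (κ * h) := by positivity
  calc 2 * (h / L) * ‖_‖ ≤ 2 * (h / L) * (C2 * (h / L * |u - v|) + C3 * C1 * (h / L * (1 / (κ * h)) * |u - v|)) := by
        apply mul_le_mul_of_nonneg_left _ (by positivity)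
        exact (norm_add_le _ _).trans (add_le_add k1 k2)
    _ = 2 * (h / L) ^ 2 * |u - v| * (C2 * 1 + C3 * C1 * (1 / (κ * h))) := by ring
    _ ≤ 2 * (h / L) ^ 2 * |u - v| * ((C2 + C3 * C1) * (1 + 1 / (κ * h))) := by
        apply mul_le_mul_of_nonneg_left _ (by positivity)
        have : 0 < C3 * C1 := by positivity
        nlinarith [mul_pos hC2 hr, mul_pos this hr]
    _ = _ := by ring

end

end Pool.Agent.K6.H57.ML
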