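import Pool.Agent.K6.H57.ML.Var

/-! # The variance of the prime polynomial: the limit -/

set_option autoImplicit false

open MeasureTheory Set Filter Topology
open scoped ContDiff NNReal

namespace Pool.Agent.K6.H57.ML

open SP (bt)
open Pool.Agent.R320.JL (PP nz)
open Pool.Agent.Y743.CL (Pr mem_Pr VS VS_nonneg)

noncomputable section

lemma fx_a (x : ℝ) : 1 + x ^ 2 ≤ (1 + x ^ 2) ^ 2 := by nlinarith [sq_nonneg x, sq_nonneg (x ^ 2)]

lemma fx_b (x : ℝ) : 1 ≤ (1 + x ^ 2) ^ 2 := by nlinarith [sq_nonneg x, sq_nonneg (x ^ 2)]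

lemma fx_c (x : ℝ) : x * x ^ 2 * x ≤ (1 + x ^ 2) ^ 2 := by nlinarith [sq_nonneg x, sq_nonneg (x ^ 2)]

lemma fx_d {E x X : ℝ} (h : 2 ≤ E) (h1 : x ≤ E) (h2 : E * E < X + 1) : x ≤ X := by nlinarith

/-- uniform bound for the smoothed weight -/
lemma btW {w : ℝ → ℝ} (hw : Cc w) : ∃ C : ℝ, 0 < C ∧ ∀ T κ h x : ℝ, 1 < T → 0 < h →
    h / Real.log T ≤ 1 → ‖bt T (Wt w κ (Real.log T) h) x‖ ≤
      C * (h / Real.log T) / (1 + (h / Real.log T * Real.log x) ^ 2) := by
  obtain ⟨C, hC, h1⟩ := Wt_dec hw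
  refine ⟨16 * C, by positivity, fun T κ h x hT hh he => ?_⟩
  have hL : 0 < Real.log T := Real.log_pos hT
  have he0 : 0 < h / Real.log T := by positivity
  have h2 := bt_dec hT.le (Wt_cont hw κ (Real.log T) h) (x := x) (A := C * (h / Real.log T))
    (e := h / Real.log T) (by positivity) (by rw [abs_of_pos he0]; exact he) (fun u => by
    refine (h1 κ (Real.log T) h u hL hh).trans ?_
    apply div_le_div_of_nonneg_left (by positivity) (by positivity)
    have : 0 ≤ (h / Real.log T * u) ^ 2 := sq_nonneg _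
    exact fx_a _)
  refine h2.trans (le_of_eq ?_)
  ring

lemma VS_zp (T : ℝ) (W : ℝ → ℂ) (X : ℕ) {e : ℝ} (he : 0 < e) : VS (nz (zp T W)) X / 4 =
    ∑ p ∈ Pr X, Real.log p / p * e * (e * Real.log p * (‖bt T W p‖ / (2 * e)) ^ 2) := by
  unfold VS nz zp
  rw [Finset.sum_div]
  refine Finset.sum_congr rfl fun p hp => ?_
  have hpp := (mem_Pr.1 hp).1
  have hp0 : (0 : ℝ) < p := by exact_mod_cast hpp.pos
  have hl : 0 ≤ Real.log p := Real.log_natCast_nonneg p
  rw [norm_mul, Complex.norm_real, Real.norm_of_nonneg (by positivity), mul_pow, div_pow, div_pow,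
    Real.sq_sqrt hp0.le]
  field_simp
  ring

/-- **the variance** -/
theorem var_lim {w : ℝ → ℝ} (hw : Cc w) (κ : ℝ) (hκ : 0 < κ) (hκ1 : κ ≤ 1 / 8) (η : ℝ) (hη : 0 < η) :
    ∃ h0 e0 : ℝ, 1 ≤ h0 ∧ 0 < e0 ∧ ∀ T h : ℝ, 1 < T → h0 ≤ h → h / Real.log T ≤ e0 →
    |VS (nz (zp T (Wt w κ (Real.log T) h))) ⌊Real.exp (2 * (κ * Real.log T))⌋₊ / 4 - J w| ≤ η := by
  obtain ⟨C0, hC0, hwm⟩ := wm_a
  obtain ⟨Cb, hCb, hb⟩ := btW hw
  obtain ⟨Cw, hCw, hwd⟩ := hat_dec hw.sm hw.cs
  obtain ⟨Ca, hCa, hWd⟩ := Wt_dec hw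
  obtain ⟨Cl, hCl, hWl⟩ := Wt_lip hw
  obtain ⟨D, hD⟩ : ∃ D : ℝ, D = Cb ^ 2 + Cw ^ 2 := ⟨_, rfl⟩
  have hD0 : 0 < D := by rw [hD]; positivity
  obtain ⟨B0, hB0⟩ := J_trunc hw (η / 5) (by positivity)
  -- the parameters
  obtain ⟨B, hB⟩ : ∃ B : ℝ, B = max (max B0 2) (20 * D * (1 + C0) / η) := ⟨_, rfl⟩
  have hBB0 : B0 ≤ B := by rw [hB]; exact (le_max_left _ _).trans (le_max_left _ _)
  have hB2 : 2 ≤ B := by rw [hB]; exact (le_max_right _ _).trans (le_max_left _ _)
  have hBp : 0 < B := by linarith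
  have hBη : 4 * D * (1 + C0) / B ≤ η / 5 := by
    have h1 : 20 * D * (1 + C0) / η ≤ B := by rw [hB]; exact le_max_right _ _
    rw [div_le_iff₀ hη] at h1
    rw [div_le_iff₀ hBp]
    linarith
  have hJ := hB0 B hBB0 hBp
  obtain ⟨Cg, hCg, hG⟩ := Gd_mert hw hB2
  obtain ⟨δ, hδ⟩ : ∃ δ : ℝ, δ = min 1 (η / (10 * D * (1 + C0))) := ⟨_, rfl⟩
  have hδ0 : 0 < δ := by rw [hδ]; positivity
  have hδ1 : δ ≤ 1 := by rw [hδ]; exact min_le_left _ _
  have hδη : 2 * D * δ * (1 + C0) ≤ η / 5 := by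
    have h1 : δ ≤ η / (10 * D * (1 + C0)) := by rw [hδ]; exact min_le_right _ _
    rw [le_div_iff₀ (by positivity)] at h1
    linarith
  obtain ⟨M, hM⟩ : ∃ M : ℝ, M = (B + C0) * (B * (Cb + Cw) * (8 * Cl + 4 * Ca / δ ^ 2)) := ⟨_, rfl⟩
  have hM0 : 0 < M := by rw [hM]; positivity
  refine ⟨max 1 (2 * B / κ), min 1 (min δ (min (η / (5 * M)) (η / (5 * Cg)))), le_max_left _ _,
    by positivity, fun T h hT hh he => ?_⟩
  have hh1 : 1 ≤ h := (le_max_left _ _).trans hh
  have hhB : 2 * B ≤ κ * h := by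
    have := (le_max_right _ _).trans hh
    rw [div_le_iff₀ hκ] at this
    linarith
  have hhp : 0 < h := by linarith
  obtain ⟨L, hLd⟩ : ∃ L : ℝ, L = Real.log T := ⟨_, rfl⟩
  have hL : 0 < L := by rw [hLd]; exact Real.log_pos hT
  rw [← hLd] at he ⊢
  obtain ⟨e, hed⟩ : ∃ e : ℝ, e = h / L := ⟨_, rfl⟩
  rw [← hed] at he
  have he0 : 0 < e := by rw [hed]; positivity
  have he1 : e ≤ 1 := he.trans (min_le_left _ _)
  have heδ : e ≤ δ := he.trans ((min_le_right _ _).trans (min_le_left _ _))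
  have heM : e ≤ η / (5 * M) := he.trans ((min_le_right _ _).trans ((min_le_right _ _).trans (min_le_left _ _)))
  have heC : e ≤ η / (5 * Cg) := he.trans ((min_le_right _ _).trans ((min_le_right _ _).trans (min_le_right _ _)))
  obtain ⟨X, hX⟩ : ∃ X : ℕ, X = ⌊Real.exp (2 * (κ * L))⌋₊ := ⟨_, rfl⟩
  rw [← hX]
  obtain ⟨W, hW⟩ : ∃ W : ℝ → ℂ, W = Wt w κ L h := ⟨_, rfl⟩
  rw [← hW]
  have hbW : ∀ x : ℝ, ‖bt T W x‖ ≤ Cb * e / (1 + (e * Real.log x) ^ 2) := by
    intro x
    have := hb T κ h x hT hhp (by rw [← hLd, ← hed]; exact he1)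
    rw [← hLd, ← hed, ← hW] at this
    exact this
  rw [VS_zp T W X he0]
  -- the two functions
  obtain ⟨a, ha⟩ : ∃ a : ℕ → ℝ, a = fun p : ℕ => Real.log (p : ℝ) / p * e := ⟨_, rfl⟩
  obtain ⟨ξ, hξ⟩ : ∃ ξ : ℕ → ℝ, ξ = fun p : ℕ => e * Real.log (p : ℝ) := ⟨_, rfl⟩
  obtain ⟨q, hq⟩ : ∃ q : ℕ → ℝ, q = fun p : ℕ => e * Real.log (p : ℝ) * (‖bt T W p‖ / (2 * e)) ^ 2 := ⟨_, rfl⟩
  obtain ⟨g, hg⟩ : ∃ g : ℕ → ℝ, g = fun p : ℕ => Gd w B (e * Real.log (p : ℝ)) := ⟨_, rfl⟩
  have hV : ∑ p ∈ Pr X, Real.log p / p * e * (e * Real.log p * (‖bt T W p‖ / (2 * e)) ^ 2) =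
      ∑ p ∈ Pr X, a p * q p := by rw [ha, hq]
  rw [hV]
  have ha0 : ∀ p, 0 ≤ a p := fun p => by
    rw [ha]
    have := Real.log_natCast_nonneg p
    simp only
    positivity
  have hξ0 : ∀ p, 0 ≤ ξ p := fun p => by
    rw [hξ]
    have := Real.log_natCast_nonneg p
    simp only
    positivity
  -- bounds of both
  have hqg : ∀ p, |q p - g p| ≤ D * ξ p / (1 + ξ p ^ 2) ^ 2 := by
    intro p
    have h1 : 0 ≤ q p ∧ q p ≤ Cb ^ 2 * (ξ p / (1 + ξ p ^ 2) ^ 2) := by
      have hb1 := hbW p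
      have hx := hξ0 p
      rw [hq]
      rw [hξ] at hx ⊢
      simp only at hx ⊢
      refine ⟨by positivity, ?_⟩
      have h2 : ‖bt T W p‖ / (2 * e) ≤ Cb / (1 + (e * Real.log p) ^ 2) := by
        rw [div_le_iff₀ (by positivity)]
        refine hb1.trans ?_
        rw [div_mul_eq_mul_div]
        apply div_le_div_of_nonneg_right _ (by positivity)
        have hm := mul_pos hCb he0; linarith
      calc e * Real.log p * (‖bt T W p‖ / (2 * e)) ^ 2 ≤
          e * Real.log p * (Cb / (1 + (e * Real.log p) ^ 2)) ^ 2 := by gcongr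
        _ = _ := by rw [div_pow]; ring
    have h2 : 0 ≤ g p ∧ g p ≤ Cw ^ 2 * (ξ p / (1 + ξ p ^ 2) ^ 2) := by
      have hx := hξ0 p
      rw [hg]
      rw [hξ] at hx ⊢
      simp only at hx ⊢
      unfold Gd
      have h3 := hwd (e * Real.log p)
      have h4 := chi_nonneg (e * Real.log p / (2 * B))
      have h5 := chi_le (e * Real.log p / (2 * B))
      refine ⟨by positivity, ?_⟩
      have h6 : ‖hat w (e * Real.log p)‖ ≤ Cw / (1 + (e * Real.log p) ^ 2) := by
        refine h3.trans ?_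
        apply div_le_div_of_nonneg_left (by positivity) (by positivity)
        have : 0 ≤ (e * Real.log p) ^ 2 := sq_nonneg _
        exact fx_a _
      calc e * Real.log p * ‖hat w (e * Real.log p)‖ ^ 2 * chi (e * Real.log p / (2 * B)) ≤
          e * Real.log p * (Cw / (1 + (e * Real.log p) ^ 2)) ^ 2 * 1 := by gcongr
        _ = _ := by rw [div_pow]; ring
    have h3 : D * ξ p / (1 + ξ p ^ 2) ^ 2 = Cb ^ 2 * (ξ p / (1 + ξ p ^ 2) ^ 2) +
        Cw ^ 2 * (ξ p / (1 + ξ p ^ 2) ^ 2) := by rw [hD]; ring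
    rw [h3, abs_le]
    constructor <;> linarith [h1.1, h1.2, h2.1, h2.2]
  -- the middle range
  have hmid : ∀ p, δ ≤ ξ p → ξ p ≤ B → |q p - g p| ≤ B * (Cb + Cw) * (8 * Cl + 4 * Ca / δ ^ 2) * e := by
    intro p hp1 hp2
    have hx := hξ0 p
    have hlx : ξ p = e * Real.log p := by rw [hξ]
    have hlogp : Real.log p = ξ p / e := by rw [hlx]; field_simp
    have hlogle : Real.log p ≤ κ * L / 2 := by
      rw [hlogp, div_le_iff₀ he0, hed]
      have : κ * L / 2 * (h / L) = κ * h / 2 := by field_simp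
      rw [this]
      linarith
    have hchi1 : chi (ξ p / (2 * B)) = 1 := by
      apply chi_one
      rw [abs_of_nonneg (by positivity), div_le_div_iff₀ (by positivity) (by norm_num)]
      linarith
    have hchi2 : chi (Real.log p / (κ * L)) = 1 := by
      apply chi_one
      have : 0 ≤ Real.log p := Real.log_natCast_nonneg p
      rw [abs_of_nonneg (by positivity), div_le_div_iff₀ (by positivity) (by norm_num)]
      linarith
    have hWp : W (Real.log p) = ((2 * e : ℝ) : ℂ) * hat w (ξ p) := by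
      rw [hW]
      unfold Wt
      rw [hchi2, ← hed, mul_one, ← hlx]
    have hL2 : L * e = h := by rw [hed]; field_simp
    have hn := bt_near hT.le (W := W) (by rw [hW]; exact Wt_cont hw _ _ _) (x := p) (A := Ca * e)
      (Λ := Cl * e ^ 2 * (1 + 1 / (κ * h))) (m := δ / e) (fun u => by
        rw [hW]
        have := hWd κ L h u hL hhp
        rw [← hed] at this
        refine this.trans (div_le_self (by positivity) ?_)
        have : 0 ≤ (e * u) ^ 2 := sq_nonneg _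
        exact fx_b _) (fun u v => by
        rw [hW, hed]
        exact hWl κ L h u v hκ hL hhp) (by positivity) (by
        rw [hlogp]
        exact div_le_div_of_nonneg_right hp1 he0.le) (by
        rw [← hLd, div_le_iff₀ he0]
        have h1 : (L - Real.log p) * e = h - ξ p := by rw [sub_mul, hL2, hlx]; ring
        rw [h1]
        have : κ * h ≤ h := mul_le_of_le_one_left hhp.le (by linarith)
        linarith)
    have hκh : 1 / (κ * h) ≤ 1 := by
      rw [div_le_one (by positivity)]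
      linarith
    have hexp : Real.exp (-(δ / e) ^ 2 / 4) ≤ 4 * e ^ 2 / δ ^ 2 := by
      have h1 := Real.add_one_le_exp ((δ / e) ^ 2 / 4)
      have h2 : (δ / e) ^ 2 / 4 ≤ Real.exp ((δ / e) ^ 2 / 4) := by linarith
      have h3 : Real.exp (-(δ / e) ^ 2 / 4) = (Real.exp ((δ / e) ^ 2 / 4))⁻¹ := by
        rw [← Real.exp_neg]
        congr 1
        ring
      rw [h3]
      refine (inv_anti₀ (by positivity) h2).trans (le_of_eq ?_)
      field_simp
    have hn2 : ‖bt T W p - W (Real.log p)‖ ≤ (16 * Cl + 8 * Ca / δ ^ 2) * e ^ 2 := by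
      refine hn.trans ?_
      have h1 : 8 * (Cl * e ^ 2 * (1 + 1 / (κ * h))) ≤ 8 * (Cl * e ^ 2 * 2) := by
        gcongr
        linarith
      have h2 : 2 * (Ca * e) * Real.exp (-(δ / e) ^ 2 / 4) ≤ 2 * (Ca * e) * (4 * e ^ 2 / δ ^ 2) := by
        gcongr
      have h3 : 2 * (Ca * e) * (4 * e ^ 2 / δ ^ 2) = 8 * Ca / δ ^ 2 * e ^ 2 * e := by ring
      have h4 : 8 * Ca / δ ^ 2 * e ^ 2 * e ≤ 8 * Ca / δ ^ 2 * e ^ 2 * 1 := by gcongr
      have h5 : (16 * Cl + 8 * Ca / δ ^ 2) * e ^ 2 = 8 * (Cl * e ^ 2 * 2) + 8 * Ca / δ ^ 2 * e ^ 2 * 1 := by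
        ring
      rw [h5]
      linarith
    obtain ⟨b, hbd⟩ : ∃ b : ℝ, b = ‖bt T W p‖ / (2 * e) := ⟨_, rfl⟩
    obtain ⟨c, hcd⟩ : ∃ c : ℝ, c = ‖hat w (ξ p)‖ := ⟨_, rfl⟩
    have hbc : |b - c| ≤ (8 * Cl + 4 * Ca / δ ^ 2) * e := by
      have h1 : c = ‖W (Real.log p)‖ / (2 * e) := by
        rw [hWp, norm_mul, Complex.norm_real, Real.norm_of_nonneg (by positivity), hcd]
        field_simp
      rw [hbd, h1, ← sub_div, abs_div, abs_of_pos (by positivity : 0 < 2 * e), div_le_iff₀ (by positivity)]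
      refine (abs_norm_sub_norm_le _ _).trans (hn2.trans (le_of_eq ?_))
      ring
    have hb0 : 0 ≤ b := by rw [hbd]; positivity
    have hc0 : 0 ≤ c := by rw [hcd]; positivity
    have hbCb : b ≤ Cb := by
      rw [hbd, div_le_iff₀ (by positivity)]
      refine (hbW p).trans ?_
      refine (div_le_self (by positivity) ?_).trans (by have hm := mul_pos hCb he0; linarith)
      have : 0 ≤ (e * Real.log p) ^ 2 := sq_nonneg _
      linarith
    have hcCw : c ≤ Cw := by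
      rw [hcd]
      refine (hwd _).trans (div_le_self hCw.le ?_)
      have : 0 ≤ ξ p ^ 2 := sq_nonneg _
      exact fx_b _
    have e1 : q p - g p = ξ p * ((b + c) * (b - c)) := by
      rw [hq, hg]
      simp only
      unfold Gd
      rw [← hlx, hchi1, ← hbd, ← hcd]
      ring
    rw [e1, abs_mul, abs_mul, abs_of_nonneg hx, abs_of_nonneg (by positivity : 0 ≤ b + c)]
    calc ξ p * ((b + c) * |b - c|) ≤ B * ((Cb + Cw) * ((8 * Cl + 4 * Ca / δ ^ 2) * e)) := by
          apply mul_le_mul hp2 _ (by positivity) hBp.le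
          apply mul_le_mul (by linarith) hbc (abs_nonneg _) (by positivity)
      _ = _ := by ring
  -- the three ranges
  have hwmx : ∀ s, 0 ≤ s → ∑ p ∈ (Pr X).filter (fun p : ℕ => ξ p ≤ s), a p ≤ s + C0 * e := by
    intro s hs
    have := hwm X e s he0 hs
    rw [ha, hξ]
    exact this
  have hpt : ∀ p ∈ Pr X, |a p * q p - a p * g p| ≤
      (if ξ p ≤ δ then 2 * D * δ * a p else 0) +
      (if ξ p ≤ B then B * (Cb + Cw) * (8 * Cl + 4 * Ca / δ ^ 2) * e * a p else 0) +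
      (if B < ξ p then 2 * D / B * (a p / ξ p ^ 2) else 0) := by
    intro p _
    have hap := ha0 p
    have hxp := hξ0 p
    have hz1 : 0 ≤ (if ξ p ≤ δ then 2 * D * δ * a p else 0) := by split_ifs <;> positivity
    have hz2 : 0 ≤ (if ξ p ≤ B then B * (Cb + Cw) * (8 * Cl + 4 * Ca / δ ^ 2) * e * a p else 0) := by
      split_ifs <;> positivity
    have hz3 : 0 ≤ (if B < ξ p then 2 * D / B * (a p / ξ p ^ 2) else 0) := by
      split_ifs <;> positivity
    rw [← mul_sub, abs_mul, abs_of_nonneg hap]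
    rcases le_or_gt (ξ p) δ with h1 | h1
    · have h2 := hqg p
      have h3 : D * ξ p / (1 + ξ p ^ 2) ^ 2 ≤ 2 * D * δ := by
        refine (div_le_self (by positivity) (fx_b _)).trans ?_
        have m1 := mul_le_mul_of_nonneg_left h1 hD0.le; have m2 := mul_pos hD0 hδ0; linarith
      have h4 : a p * |q p - g p| ≤ 2 * D * δ * a p := by
        rw [mul_comm]
        exact mul_le_mul_of_nonneg_right (h2.trans h3) hap
      rw [if_pos h1]
      linarith
    · rcases le_or_gt (ξ p) B with h2 | h2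
      · have h4 : a p * |q p - g p| ≤ B * (Cb + Cw) * (8 * Cl + 4 * Ca / δ ^ 2) * e * a p := by
          rw [mul_comm]
          exact mul_le_mul_of_nonneg_right (hmid p h1.le h2) hap
        rw [if_pos h2]
        rw [if_pos h2] at hz2
        linarith
      · have hx : 0 < ξ p := by linarith
        have h3 : D * ξ p / (1 + ξ p ^ 2) ^ 2 ≤ 2 * D / B * (1 / ξ p ^ 2) := by
          rw [div_mul_div_comm, mul_one, div_le_div_iff₀ (by positivity) (by positivity)]
          have h5 : B * ξ p ^ 2 * ξ p ≤ (1 + ξ p ^ 2) ^ 2 := by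
            have : B * ξ p ^ 2 * ξ p ≤ ξ p * ξ p ^ 2 * ξ p := by gcongr
            exact this.trans (fx_c _)
          have m1 := mul_le_mul_of_nonneg_left h5 hD0.le; have m2 := mul_pos hD0 (by positivity : 0 < (1 + ξ p ^ 2) ^ 2); linarith
        have h4 : a p * |q p - g p| ≤ 2 * D / B * (a p / ξ p ^ 2) := by
          calc a p * |q p - g p| ≤ a p * (2 * D / B * (1 / ξ p ^ 2)) :=
                mul_le_mul_of_nonneg_left ((hqg p).trans h3) hap
            _ = _ := by ring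
        rw [if_pos h2]
        linarith
  have hsum : |∑ p ∈ Pr X, a p * q p - ∑ p ∈ Pr X, a p * g p| ≤
      2 * D * δ * (δ + C0 * e) + B * (Cb + Cw) * (8 * Cl + 4 * Ca / δ ^ 2) * e * (B + C0 * e) +
      2 * D / B * (2 * (1 + C0) / B) := by
    rw [← Finset.sum_sub_distrib]
    refine (Finset.abs_sum_le_sum_abs _ _).trans ((Finset.sum_le_sum hpt).trans ?_)
    rw [Finset.sum_add_distrib, Finset.sum_add_distrib, ← Finset.sum_filter, ← Finset.sum_filter,
      ← Finset.sum_filter, ← Finset.mul_sum, ← Finset.mul_sum, ← Finset.mul_sum]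
    refine add_le_add (add_le_add ?_ ?_) ?_
    · exact mul_le_mul_of_nonneg_left (hwmx δ hδ0.le) (by positivity)
    · exact mul_le_mul_of_nonneg_left (hwmx B hBp.le) (by positivity)
    · apply mul_le_mul_of_nonneg_left _ (by positivity)
      refine tail_bd (Pr X) a ξ (fun i _ => ha0 i) hBp fun s hs => ?_
      have h1 := hwmx s (by linarith)
      have h2 : C0 * e ≤ C0 * s := by
        apply mul_le_mul_of_nonneg_left _ hC0.le
        linarith
      linarith
  have hXB : Real.exp (2 * B / e) ≤ X := by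
    have h1 : 2 * B / e ≤ κ * L := by
      rw [div_le_iff₀ he0, hed]
      have : κ * L * (h / L) = κ * h := by field_simp
      rw [this]
      exact hhB
    have h2 : 1 ≤ 2 * B / e := by
      rw [le_div_iff₀ he0]
      linarith
    have h3 : Real.exp (2 * B / e) ≤ Real.exp (κ * L) := Real.exp_le_exp.2 h1
    have h4 : 2 ≤ Real.exp (κ * L) := by
      have := Real.add_one_le_exp (κ * L)
      linarith
    have h5 : Real.exp (2 * (κ * L)) = Real.exp (κ * L) * Real.exp (κ * L) := by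
      rw [← Real.exp_add]; congr 1; ring
    have h6 := Nat.lt_floor_add_one (Real.exp (2 * (κ * L)))
    rw [← hX, h5] at h6
    exact fx_d h4 h3 h6
  have hGs := hG X e he0 he1 hXB
  have hgs : ∑ p ∈ Pr X, Real.log (p : ℝ) / p * e * Gd w B (e * Real.log (p : ℝ)) = ∑ p ∈ Pr X, a p * g p := by
    rw [ha, hg]
  rw [hgs] at hGs
  have k1 : 2 * D * δ * (δ + C0 * e) ≤ η / 5 := by
    refine le_trans ?_ hδη
    apply mul_le_mul_of_nonneg_left _ (by positivity)
    have hm : C0 * e ≤ C0 * 1 := mul_le_mul_of_nonneg_left he1 (by positivity)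
    linarith
  have k2 : B * (Cb + Cw) * (8 * Cl + 4 * Ca / δ ^ 2) * e * (B + C0 * e) ≤ η / 5 := by
    have h1 : B + C0 * e ≤ B + C0 := by have hm : C0 * e ≤ C0 * 1 := mul_le_mul_of_nonneg_left he1 (by positivity); linarith
    calc B * (Cb + Cw) * (8 * Cl + 4 * Ca / δ ^ 2) * e * (B + C0 * e) ≤
        B * (Cb + Cw) * (8 * Cl + 4 * Ca / δ ^ 2) * e * (B + C0) := by gcongr
      _ = M * e := by rw [hM]; ring
      _ ≤ M * (η / (5 * M)) := by gcongr
      _ = η / 5 := by field_simp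
  have k3 : 2 * D / B * (2 * (1 + C0) / B) ≤ η / 5 := by
    refine le_trans ?_ hBη
    rw [div_mul_div_comm, div_le_div_iff₀ (by positivity) hBp]
    have : 0 < D * (1 + C0) := by positivity
    have m1 := mul_pos this hBp
    have m2 : 0 ≤ D * (1 + C0) * B * (B - 1) := mul_nonneg m1.le (by linarith)
    linarith
  have k4 : Cg * e ≤ η / 5 := by
    calc Cg * e ≤ Cg * (η / (5 * Cg)) := by gcongr
      _ = η / 5 := by field_simp
  have t1 := abs_sub_le (∑ p ∈ Pr X, a p * q p) (∑ p ∈ Pr X, a p * g p) (J w)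
  have t2 := abs_sub_le (∑ p ∈ Pr X, a p * g p) (∫ ξ in (0 : ℝ)..(2 * B), Gd w B ξ) (J w)
  linarith

end

end Pool.Agent.K6.H57.ML
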