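import Pool.Agent.K6.H57.ML.Nv2
import Pool.Agent.K6.H57.ML.Var2

/-! # The smooth statistic and the prime polynomial -/

set_option autoImplicit false

open MeasureTheory Set Filter Topology
open scoped ContDiff FourierTransform

namespace Pool.Agent.K6.H57.ML

open SP (bt ps)
open SG (ord NZ)
open Pool.Agent.R320.JL (PP nz PP_cont)
open Pool.Agent.Y743.CL (Pr mem_Pr VS VS_nonneg)

noncomputable section

/-- the Gaussian factor -/
def ga (c x : ℝ) : ℝ := Real.exp (-(c * x) ^ 2 / 2)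

lemma ga_sm (c : ℝ) : ContDiff ℝ ∞ (ga c) := by
  unfold ga
  apply ContDiff.exp
  exact (((contDiff_const.mul contDiff_id).pow 2).neg).div_const 2

lemma ga_le (c x : ℝ) : ga c x ≤ 1 := by
  unfold ga
  rw [Real.exp_le_one_iff]
  have : 0 ≤ (c * x) ^ 2 := sq_nonneg _
  linarith

lemma ga_pos (c x : ℝ) : 0 < ga c x := Real.exp_pos _

lemma ga_ge (c x : ℝ) : 1 - ga c x ≤ (c * x) ^ 2 / 2 := by
  unfold ga
  have := Real.add_one_le_exp (-(c * x) ^ 2 / 2)
  linarith

lemma ga_deriv (c x : ℝ) : HasDerivAt (ga c) (-(c ^ 2 * x) * ga c x) x := by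
  unfold ga
  have h1 : HasDerivAt (fun x : ℝ => -(c * x) ^ 2 / 2) (-(c ^ 2 * x)) x := by
    have := (((hasDerivAt_id' x).const_mul c).fun_pow 2).fun_neg.div_const 2
    refine this.congr_deriv ?_
    simp only [Nat.cast_ofNat, Nat.add_one_sub_one, pow_one, mul_one]
    ring
  have := h1.exp
  refine this.congr_deriv ?_
  ring

/-- the difference -/
def vT (c : ℝ) (w : ℝ → ℝ) (x : ℝ) : ℝ := (1 - ga c x) * w x

lemma vT_ts {R : ℝ} {w : ℝ → ℝ} (hw : Ts R w) (c : ℝ) : Ts R (vT c w) :=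
  hw.mul (contDiff_const.sub (ga_sm c))

lemma vT_bd {R : ℝ} {w : ℝ → ℝ} (hw : Ts R w) : ∃ C : ℝ, 0 < C ∧ ∀ c x : ℝ, |deriv (vT c w) x| ≤ C * c ^ 2 := by
  obtain ⟨M0, hM0, h0⟩ := hw.cc.bd
  obtain ⟨M1, hM1, h1⟩ := hw.cc.deriv.bd
  have hR := hw.pos
  refine ⟨R * M0 + R ^ 2 * M1, by positivity, fun c x => ?_⟩
  by_cases hx : x ∈ Ioo 0 R
  · have hd : HasDerivAt (vT c w) (c ^ 2 * x * ga c x * w x + (1 - ga c x) * deriv w x) x := by
      unfold vT
      have h3 := ((ga_deriv c x).const_sub 1).fun_mul (hw.cc.hd x)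
      refine h3.congr_deriv ?_
      ring
    rw [hd.deriv]
    have e1 : |c ^ 2 * x * ga c x * w x| ≤ c ^ 2 * (R * M0) := by
      rw [abs_mul, abs_of_nonneg (by have := ga_pos c x; have := hx.1; positivity)]
      calc c ^ 2 * x * ga c x * |w x| ≤ c ^ 2 * R * 1 * M0 := by
            have := hx.1
            have := hx.2.le
            have := ga_le c x
            have := ga_pos c x
            have := h0 x
            gcongr
        _ = _ := by ring
    have e2 : |(1 - ga c x) * deriv w x| ≤ c ^ 2 * (R ^ 2 * M1) := by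
      rw [abs_mul, abs_of_nonneg (by linarith [ga_le c x])]
      have e3 : (c * x) ^ 2 / 2 ≤ c ^ 2 * R ^ 2 := by
        rw [mul_pow]
        have : x ^ 2 ≤ R ^ 2 := pow_le_pow_left₀ hx.1.le hx.2.le 2
        nlinarith [sq_nonneg c, mul_nonneg (sq_nonneg c) (sq_nonneg x), mul_le_mul_of_nonneg_left this (sq_nonneg c)]
      calc (1 - ga c x) * |deriv w x| ≤ (c ^ 2 * R ^ 2) * M1 :=
            mul_le_mul ((ga_ge c x).trans e3) (h1 x) (abs_nonneg _) (by positivity)
        _ = _ := by ring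
    refine (abs_add_le _ _).trans ((add_le_add e1 e2).trans (le_of_eq ?_))
    ring
  · have := (vT_ts hw c).deriv.zero_of hx
    rw [this, abs_zero]
    positivity

/-- the sum of the kernels -/
def Q (T h t : ℝ) : ℝ :=
  ∑ n ∈ Finset.Ioc (NZ T) (NZ (2 * T)), 1 / (1 + (Real.log T * (ord n - t) / (2 * Real.pi * h)) ^ 2)

lemma Q_cont (T h : ℝ) : Continuous (Q T h) := by
  unfold Q
  refine continuous_finsetSum _ fun n _ => ?_
  apply Continuous.div continuous_const (by fun_prop)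
  intro t
  positivity

lemma ker_int {a : ℝ} (ha : 0 < a) (b : ℝ) : Integrable (fun t : ℝ => 1 / (1 + (a * (b - t)) ^ 2)) ∧
    ∫ t : ℝ, 1 / (1 + (a * (b - t)) ^ 2) = Real.pi / a := by
  have h1 : Integrable fun t : ℝ => (1 + t ^ 2)⁻¹ := integrable_inv_one_add_sq
  have h2 : Integrable fun t : ℝ => (1 + (a * t) ^ 2)⁻¹ := h1.comp_mul_left' ha.ne'
  have h3 : Integrable fun t : ℝ => (1 + (a * (b - t)) ^ 2)⁻¹ := h2.comp_sub_left b
  refine ⟨h3.congr (ae_of_all _ fun t => by simp only [one_div]), ?_⟩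
  have e1 : (∫ t : ℝ, 1 / (1 + (a * (b - t)) ^ 2)) = ∫ t : ℝ, (1 + (a * (b - t)) ^ 2)⁻¹ :=
    integral_congr_ae (ae_of_all _ fun t => by simp only [one_div])
  rw [e1, integral_sub_left_eq_self (fun t : ℝ => (1 + (a * t) ^ 2)⁻¹) volume b]
  have h4 := Measure.integral_comp_mul_left (fun t : ℝ => (1 + t ^ 2)⁻¹) a
  rw [h4, integral_univ_inv_one_add_sq, abs_of_pos (by positivity), smul_eq_mul]
  field_simp

lemma Q_int : ∃ C T0 : ℝ, 0 < C ∧ 10 ≤ T0 ∧ ∀ T h : ℝ, T0 ≤ T → 0 < h →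
    ∫ t in Icc T (2 * T), Q T h t ≤ C * (T * h) := by
  obtain ⟨C3, T3, hC3, hT3, hup⟩ := LG.GapAux.NZ_up
  refine ⟨C3 * (2 * Real.pi ^ 2), max 10 T3, by positivity, le_max_left _ _, fun T h hT hh => ?_⟩
  have hT10 : 10 ≤ T := (le_max_left _ _).trans hT
  have hL : 0 < Real.log T := Real.log_pos (by linarith)
  have hpi := Real.pi_pos
  have e0 : ∀ n t, Real.log T * (ord n - t) / (2 * Real.pi * h) =
      (Real.log T / (2 * Real.pi * h)) * (ord n - t) := fun n t => by ring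
  unfold Q
  simp only [e0]
  have hk : ∀ n : ℕ, Integrable (fun t : ℝ => 1 / (1 + ((Real.log T / (2 * Real.pi * h)) * (ord n - t)) ^ 2)) ∧
    ∫ t : ℝ, 1 / (1 + ((Real.log T / (2 * Real.pi * h)) * (ord n - t)) ^ 2) =
      Real.pi / (Real.log T / (2 * Real.pi * h)) := fun n => ker_int (by positivity) _
  rw [integral_finsetSum _ fun n _ => (hk n).1.integrableOn]
  have h1 : ∀ n ∈ Finset.Ioc (NZ T) (NZ (2 * T)), ∫ t in Icc T (2 * T),
      1 / (1 + ((Real.log T / (2 * Real.pi * h)) * (ord n - t)) ^ 2) ≤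
      Real.pi / (Real.log T / (2 * Real.pi * h)) := by
    intro n _
    rw [← (hk n).2]
    exact setIntegral_le_integral (hk n).1 (ae_of_all _ fun t => by positivity)
  refine (Finset.sum_le_sum h1).trans ?_
  rw [Finset.sum_const, Nat.card_Ioc, nsmul_eq_mul]
  have h2 : ((NZ (2 * T) - NZ T : ℕ) : ℝ) ≤ C3 * (T * Real.log T) := by
    have h3 : ((NZ (2 * T) - NZ T : ℕ) : ℝ) ≤ NZ (2 * T) := by exact_mod_cast Nat.sub_le _ _
    exact h3.trans (hup T ((le_max_right _ _).trans hT))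
  calc ((NZ (2 * T) - NZ T : ℕ) : ℝ) * (Real.pi / (Real.log T / (2 * Real.pi * h))) ≤
      (C3 * (T * Real.log T)) * (Real.pi / (Real.log T / (2 * Real.pi * h))) := by gcongr
    _ = _ := by field_simp

lemma Z_add {R : ℝ} {u v : ℝ → ℝ} (hu : Ts R u) (hv : Ts R v) (T h t : ℝ) :
    Z T h (fun x => u x + v x) t = Z T h u t + Z T h v t := by
  unfold Z
  have i1 : Integrable u := hu.cc.cont.integrable_of_hasCompactSupport hu.cc.cs
  have i2 : Integrable v := hv.cc.cont.integrable_of_hasCompactSupport hv.cc.cs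
  rw [Finset.sum_add_distrib, integral_add i1 i2]
  ring

/-- the weighted sum over the zeros -/
lemma zw_Z {R : ℝ} {w : ℝ → ℝ} (hw : Ts R w) {T h t : ℝ} (hT : 1 < T) (hh : 0 < h)
    (ht1 : T + Real.log T ≤ t) (ht2 : t ≤ 2 * T - Real.log T)
    (hR : 2 * Real.pi * (h * R) ≤ Real.log T ^ 2) :
    zw T h w t - Real.log T / (2 * Real.pi) *
      (∫ y : ℝ, Real.exp (-y ^ 2 / 2) * w (Real.log T * y / (2 * Real.pi * h))) =
    Z T h w t - Z T h (vT (2 * Real.pi * h / Real.log T) w) t := by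
  have hL : 0 < Real.log T := Real.log_pos hT
  have hpi := Real.pi_pos
  obtain ⟨c, hc⟩ : ∃ c : ℝ, c = 2 * Real.pi * h / Real.log T := ⟨_, rfl⟩
  have hc0 : 0 < c := by rw [hc]; positivity
  rw [← hc]
  have hg : Ts R fun x => ga c x * w x := hw.mul (ga_sm c)
  have e1 : Z T h w t - Z T h (vT c w) t = Z T h (fun x => ga c x * w x) t := by
    have := Z_add hg (vT_ts hw c) T h t
    have e2 : (fun x => ga c x * w x + vT c w x) = w := by
      funext x
      unfold vT
      ring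
    rw [e2] at this
    rw [this]
    ring
  rw [e1]
  unfold Z
  have e3 : h * ∫ x, ga c x * w x = Real.log T / (2 * Real.pi) *
      (∫ y : ℝ, Real.exp (-y ^ 2 / 2) * w (Real.log T * y / (2 * Real.pi * h))) := by
    have h1 := Measure.integral_comp_mul_left (fun x => ga c x * w x) (Real.log T / (2 * Real.pi * h))
    have h2 : (∫ y : ℝ, Real.exp (-y ^ 2 / 2) * w (Real.log T * y / (2 * Real.pi * h))) =
        ∫ y : ℝ, ga c (Real.log T / (2 * Real.pi * h) * y) * w (Real.log T / (2 * Real.pi * h) * y) := by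
      refine integral_congr_ae (ae_of_all _ fun y => ?_)
      simp only [ga]
      have a1 : c * (Real.log T / (2 * Real.pi * h) * y) = y := by
        rw [hc]; field_simp
      have a2 : Real.log T * y / (2 * Real.pi * h) = Real.log T / (2 * Real.pi * h) * y := by ring
      rw [a1, a2]
    rw [h2, h1, abs_of_pos (by positivity), smul_eq_mul]
    field_simp
  rw [e3]
  congr 1
  unfold zw
  have e4 : ∀ n : ℕ, Real.exp (-(ord n - t) ^ 2 / 2) * w (Real.log T * (ord n - t) / (2 * Real.pi * h)) =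
      ga c (Real.log T * (ord n - t) / (2 * Real.pi * h)) * w (Real.log T * (ord n - t) / (2 * Real.pi * h)) := by
    intro n
    unfold ga
    have a1 : c * (Real.log T * (ord n - t) / (2 * Real.pi * h)) = ord n - t := by
      rw [hc]; field_simp
    rw [a1]
  simp only [e4]
  apply Finset.sum_subset
  · intro n hn
    rw [Finset.mem_Ioc] at hn
    rw [Finset.mem_Icc]
    have : NZ (2 * T) ≤ NZ (3 * T) := SG.NZ_mono (by linarith)
    omega
  · intro n hn hn2
    rw [Finset.mem_Icc] at hn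
    have hn0 : 1 ≤ n := hn.1
    have h5 : w (Real.log T * (ord n - t) / (2 * Real.pi * h)) = 0 := by
      by_cases h6 : n ≤ NZ T
      · have h7 := (SG.ord_le_iff hn0 _).mpr h6
        apply hw.zero_le
        apply div_nonpos_of_nonpos_of_nonneg _ (by positivity)
        apply mul_nonpos_of_nonneg_of_nonpos hL.le
        linarith
      · have h8 : ¬ n ≤ NZ (2 * T) := fun hcon => hn2 (Finset.mem_Ioc.2 ⟨by omega, hcon⟩)
        have h9 : 2 * T < ord n := by
          by_contra hcon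
          push Not at hcon
          exact h8 ((SG.ord_le_iff hn0 _).mp hcon)
        apply hw.zero_ge
        rw [le_div_iff₀ (by positivity)]
        have : Real.log T * Real.log T ≤ Real.log T * (ord n - t) :=
          mul_le_mul_of_nonneg_left (by linarith) hL.le
        nlinarith
    rw [h5, mul_zero]

/-- **pointwise comparison** -/
theorem cmp_pt (RH : RiemannHypothesis) {R : ℝ} {w : ℝ → ℝ} (hw : Ts R w) (κ : ℝ) (hκ : 0 < κ)
    (hκ1 : κ ≤ 1) : ∃ C T0 : ℝ, 0 < C ∧ 10 ≤ T0 ∧ ∀ T h : ℝ, T0 ≤ T → 0 < h →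
    2 * Real.pi * (h * R) ≤ Real.log T ^ 2 → ∀ t : ℝ, T + Real.log T ≤ t → t ≤ 2 * T - Real.log T →
    |Z T h w t + (PP (zp T (Wt w κ (Real.log T) h)) ⌊Real.exp (2 * (κ * Real.log T))⌋₊ t).re| ≤
      |Z T h (vT (2 * Real.pi * h / Real.log T) w) t| + C * (h / Real.log T + 1 / h) +
      C / h ^ 2 * Q T h t + Rq T (Wt w κ (Real.log T) h) ⌊Real.exp (2 * (κ * Real.log T))⌋₊ t := by
  obtain ⟨C1, T1, hC1, hT1, hef⟩ := ef1 RH
  obtain ⟨C2, hC2, hef2⟩ := ef2 κ hκ
  obtain ⟨C3, hC3, hn⟩ := bl_near hw.cc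
  obtain ⟨C4, hC4, hWd⟩ := Wt_dec hw.cc
  refine ⟨(C1 + C2) * C4 + C3 / κ ^ 2 * (1 + Real.pi), T1, by positivity, hT1,
    fun T h hT hh hR t ht1 ht2 => ?_⟩
  have hT10 : 10 ≤ T := hT1.trans hT
  have hT1' : 1 < T := by linarith
  have hL : 0 < Real.log T := Real.log_pos hT1'
  have hpi := Real.pi_pos
  obtain ⟨W, hW⟩ : ∃ W : ℝ → ℂ, W = Wt w κ (Real.log T) h := ⟨_, rfl⟩
  obtain ⟨N, hN⟩ : ∃ N : ℕ, N = ⌊Real.exp (2 * (κ * Real.log T))⌋₊ := ⟨_, rfl⟩
  obtain ⟨K, hK⟩ : ∃ K : ℝ, K = C4 * (h / Real.log T) := ⟨_, rfl⟩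
  have hWK : ∀ u, ‖Wt w κ (Real.log T) h u‖ ≤ K := by
    intro u
    refine (hWd κ (Real.log T) h u hL hh).trans ?_
    rw [hK]
    apply div_le_self (by positivity)
    have : 0 ≤ (h / Real.log T * u) ^ 2 := sq_nonneg _
    nlinarith
  have g1 := hef T hT t ht1 ht2 w hw.cc κ h K hκ hκ1 hh hWK
  have g2 := hef2 T hT10 (Wt w κ (Real.log T) h) K (fun u _ => hWK u) (fun u hu => by
    apply Wt_zero hκ hL
    rw [abs_of_nonneg (le_trans (by positivity) hu)]
    exact hu) t
  have g3 := zw_Z hw hT1' hh ht1 ht2 hR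
  rw [← hW] at g1 g2 ⊢
  rw [← hN] at g2 ⊢
  have g4 : |(ps T t W).re - (PP (zp T W) N t).re| ≤ Rq T W N t + C2 * K := by
    rw [← Complex.sub_re]
    exact (Complex.abs_re_le_norm _).trans g2
  -- the difference of the two test functions
  have g5 : |zw T h (bl (κ * h) w) t - zw T h w t| ≤ C3 / (κ * h) ^ 2 * Q T h t := by
    unfold zw Q
    rw [← Finset.sum_sub_distrib, Finset.mul_sum]
    refine (Finset.abs_sum_le_sum_abs _ _).trans (Finset.sum_le_sum fun n _ => ?_)
    rw [← mul_sub, abs_mul, abs_of_pos (Real.exp_pos _)]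
    have a1 := hn (κ * h) (by positivity) (Real.log T * (ord n - t) / (2 * Real.pi * h))
    have a2 : Real.exp (-(ord n - t) ^ 2 / 2) ≤ 1 := by
      rw [Real.exp_le_one_iff]
      have : 0 ≤ (ord n - t) ^ 2 := sq_nonneg _
      linarith
    calc _ ≤ 1 * (C3 / (κ * h) ^ 2 / (1 + (Real.log T * (ord n - t) / (2 * Real.pi * h)) ^ 2)) :=
          mul_le_mul a2 a1 (abs_nonneg _) zero_le_one
      _ = _ := by ring
  have g6 : |(Real.log T / (2 * Real.pi) *
      ∫ y : ℝ, Real.exp (-y ^ 2 / 2) * bl (κ * h) w (Real.log T * y / (2 * Real.pi * h))) -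
      Real.log T / (2 * Real.pi) *
      ∫ y : ℝ, Real.exp (-y ^ 2 / 2) * w (Real.log T * y / (2 * Real.pi * h))| ≤
      C3 / (κ * h) ^ 2 * (Real.pi * h) := by
    have i0 : Integrable fun y : ℝ => Real.exp (-y ^ 2 / 2) := by
      have := (integrable_exp_neg_mul_sq (b := 1 / 2) (by norm_num))
      refine this.congr (ae_of_all _ fun y => ?_)
      simp only
      congr 1
      ring
    obtain ⟨M, hM, hMb⟩ := hw.cc.bd
    have i1 : Integrable fun y : ℝ => Real.exp (-y ^ 2 / 2) * w (Real.log T * y / (2 * Real.pi * h)) := by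
      refine i0.mul_bdd (c := M) ?_ (ae_of_all _ fun y => ?_)
      · exact (hw.cc.cont.comp (by fun_prop)).aestronglyMeasurable
      · rw [Real.norm_eq_abs]; exact hMb _
    have hkk := ker_int (a := Real.log T / (2 * Real.pi * h)) (by positivity) 0
    have hdif : ∀ y : ℝ, |Real.exp (-y ^ 2 / 2) * bl (κ * h) w (Real.log T * y / (2 * Real.pi * h)) -
        Real.exp (-y ^ 2 / 2) * w (Real.log T * y / (2 * Real.pi * h))| ≤
        C3 / (κ * h) ^ 2 * (1 / (1 + (Real.log T / (2 * Real.pi * h) * (0 - y)) ^ 2)) := by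
      intro y
      rw [← mul_sub, abs_mul, abs_of_pos (Real.exp_pos _)]
      have a1 := hn (κ * h) (by positivity) (Real.log T * y / (2 * Real.pi * h))
      have a2 : Real.exp (-y ^ 2 / 2) ≤ 1 := by
        rw [Real.exp_le_one_iff]
        have : 0 ≤ y ^ 2 := sq_nonneg _
        linarith
      have a3 : (Real.log T / (2 * Real.pi * h) * (0 - y)) ^ 2 = (Real.log T * y / (2 * Real.pi * h)) ^ 2 := by
        ring
      rw [a3]
      calc _ ≤ 1 * (C3 / (κ * h) ^ 2 / (1 + (Real.log T * y / (2 * Real.pi * h)) ^ 2)) :=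
            mul_le_mul a2 a1 (abs_nonneg _) zero_le_one
        _ = _ := by ring
    have i3 := hkk.1.const_mul (C3 / (κ * h) ^ 2)
    have hblc : Continuous (bl (κ * h) w) := by
      have hc1 : Continuous fun x : ℝ => ∫ ξ : ℝ, hat w ξ * gx (κ * h) x ξ := by
        apply continuous_of_dominated (bound := fun ξ => ‖hat w ξ‖)
        · intro x
          apply Continuous.aestronglyMeasurable
          have := hat_cont hw.cc.sm hw.cc.cs
          have := (gx_sm (κ * h) x).continuous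
          fun_prop
        · intro x
          refine ae_of_all _ fun ξ => ?_
          rw [norm_mul]
          have : ‖gx (κ * h) x ξ‖ ≤ 1 := by
            unfold gx
            rw [norm_mul, Complex.norm_real, Real.norm_of_nonneg (chi_nonneg _)]
            have e : 2 * (Real.pi : ℂ) * Complex.I * ((ξ * x : ℝ) : ℂ) =
              Complex.I * ((2 * Real.pi * (ξ * x) : ℝ) : ℂ) := by push_cast; ring
            rw [e, Complex.norm_exp_I_mul_ofReal, mul_one]
            exact chi_le _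
          calc ‖hat w ξ‖ * ‖gx (κ * h) x ξ‖ ≤ ‖hat w ξ‖ * 1 := by gcongr
            _ = _ := mul_one _
        · have : Integrable (hat w) volume := (𝓕 (tS hw.cc.sm hw.cc.cs)).integrable (μ := volume)
          exact this.norm
        · refine ae_of_all _ fun ξ => ?_
          unfold gx
          fun_prop
      have hc2 : (fun x => ((bl (κ * h) w x : ℝ) : ℂ)) = fun x : ℝ => ∫ ξ : ℝ, hat w ξ * gx (κ * h) x ξ := by
        funext x
        exact bl_four hw.cc (by positivity) x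
      rw [← hc2] at hc1
      have hc3 := Complex.continuous_re.comp hc1
      exact hc3
    have i4 : Integrable fun y : ℝ => (Real.exp (-y ^ 2 / 2) * bl (κ * h) w (Real.log T * y / (2 * Real.pi * h)) -
        Real.exp (-y ^ 2 / 2) * w (Real.log T * y / (2 * Real.pi * h))) := by
      refine i3.mono' ?_ (ae_of_all _ fun y => by rw [Real.norm_eq_abs]; exact hdif y)
      apply Continuous.aestronglyMeasurable
      have := hw.cc.cont
      fun_prop
    have i2 : Integrable fun y : ℝ => Real.exp (-y ^ 2 / 2) * bl (κ * h) w (Real.log T * y / (2 * Real.pi * h)) := by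
      have := i4.add i1
      refine this.congr (ae_of_all _ fun y => ?_)
      simp
    rw [← mul_sub, ← integral_sub i2 i1, abs_mul, abs_of_pos (by positivity)]
    have h7 : |∫ y : ℝ, (Real.exp (-y ^ 2 / 2) * bl (κ * h) w (Real.log T * y / (2 * Real.pi * h)) -
        Real.exp (-y ^ 2 / 2) * w (Real.log T * y / (2 * Real.pi * h)))| ≤
        C3 / (κ * h) ^ 2 * (Real.pi / (Real.log T / (2 * Real.pi * h))) := by
      rw [← hkk.2, ← integral_const_mul]
      refine (abs_integral_le_integral_abs).trans ?_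
      exact integral_mono_of_nonneg (ae_of_all _ fun _ => abs_nonneg _) i3 (ae_of_all _ hdif)
    calc Real.log T / (2 * Real.pi) * _ ≤ Real.log T / (2 * Real.pi) *
          (C3 / (κ * h) ^ 2 * (Real.pi / (Real.log T / (2 * Real.pi * h)))) :=
          mul_le_mul_of_nonneg_left h7 (by positivity)
      _ = _ := by field_simp
  -- together
  obtain ⟨m1, hm1⟩ : ∃ m1 : ℝ, m1 = Real.log T / (2 * Real.pi) *
      ∫ y : ℝ, Real.exp (-y ^ 2 / 2) * bl (κ * h) w (Real.log T * y / (2 * Real.pi * h)) := ⟨_, rfl⟩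
  obtain ⟨m2, hm2⟩ : ∃ m2 : ℝ, m2 = Real.log T / (2 * Real.pi) *
      ∫ y : ℝ, Real.exp (-y ^ 2 / 2) * w (Real.log T * y / (2 * Real.pi * h)) := ⟨_, rfl⟩
  rw [← hm1] at g1 g6
  rw [← hm2] at g3 g6
  have e1 : Z T h w t + (PP (zp T W) N t).re = Z T h (vT (2 * Real.pi * h / Real.log T) w) t +
      (zw T h (bl (κ * h) w) t + (ps T t W).re - m1) - (zw T h (bl (κ * h) w) t - zw T h w t) +
      (m1 - m2) - ((ps T t W).re - (PP (zp T W) N t).re) := by
    linarith
  have hQ0 : 0 ≤ Q T h t := Finset.sum_nonneg fun _ _ => by positivity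
  have e2 : C3 / (κ * h) ^ 2 * Q T h t ≤ ((C1 + C2) * C4 + C3 / κ ^ 2 * (1 + Real.pi)) / h ^ 2 * Q T h t := by
    apply mul_le_mul_of_nonneg_right _ hQ0
    rw [mul_pow, ← div_div]
    apply div_le_div_of_nonneg_right _ (by positivity)
    have h1 : 0 < C3 / κ ^ 2 := by positivity
    have h2 : 0 < (C1 + C2) * C4 := by positivity
    nlinarith [mul_pos h1 hpi]
  have e3 : C3 / (κ * h) ^ 2 * (Real.pi * h) = C3 / κ ^ 2 * Real.pi * (1 / h) := by field_simp
  have e4 : C1 * K + C2 * K + C3 / (κ * h) ^ 2 * (Real.pi * h) ≤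
      ((C1 + C2) * C4 + C3 / κ ^ 2 * (1 + Real.pi)) * (h / Real.log T + 1 / h) := by
    rw [e3, hK]
    have h1 : 0 < C3 / κ ^ 2 := by positivity
    have h2 : 0 < (C1 + C2) * C4 := by positivity
    have h3 : 0 < h / Real.log T := by positivity
    have h4 : 0 < 1 / h := by positivity
    nlinarith [mul_pos h1 h3, mul_pos h1 h4, mul_pos h2 h4, mul_pos (mul_pos h1 hpi) h3]
  rw [e1]
  obtain ⟨z1, hz1⟩ : ∃ z : ℝ, z = Z T h (vT (2 * Real.pi * h / Real.log T) w) t := ⟨_, rfl⟩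
  obtain ⟨z2, hz2⟩ : ∃ z : ℝ, z = zw T h (bl (κ * h) w) t + (ps T t W).re - m1 := ⟨_, rfl⟩
  obtain ⟨z3, hz3⟩ : ∃ z : ℝ, z = zw T h (bl (κ * h) w) t - zw T h w t := ⟨_, rfl⟩
  obtain ⟨z4, hz4⟩ : ∃ z : ℝ, z = (ps T t W).re - (PP (zp T W) N t).re := ⟨_, rfl⟩
  rw [← hz1, ← hz2, ← hz3, ← hz4]
  rw [← hz2] at g1
  rw [← hz3] at g5
  rw [← hz4] at g4
  have f1 := abs_sub (z1 + z2 - z3 + (m1 - m2)) z4
  have f2 := abs_add_le (z1 + z2 - z3) (m1 - m2)
  have f3 := abs_sub (z1 + z2) z3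
  have f4 := abs_add_le z1 z2
  linarith

end

end Pool.Agent.K6.H57.ML
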