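import Pool.Agent.K6.H57.ML.Cmp

/-! # The smooth statistic and the prime polynomial: the mean -/

set_option autoImplicit false

open MeasureTheory Set Filter Topology
open scoped ContDiff FourierTransform

namespace Pool.Agent.K6.H57.ML

open SP (bt ps)
open SG (ord NZ)
open Pool.Agent.R320.JL (PP nz PP_cont)
open Pool.Agent.Y743.CL (Pr mem_Pr VS VS_nonneg)

noncomputable section

lemma fx_e (x : ℝ) : x ≤ 1 + x ^ 2 := by nlinarith [sq_nonneg (x - 1), sq_nonneg x]

lemma fx_f {x e : ℝ} (h0 : 0 ≤ x) (h1 : x ≤ 1) (h : x * x = e) : e ≤ x := by nlinarith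

lemma fx_g {e : ℝ} (h0 : 0 ≤ e) (h1 : e ≤ 1) : e ^ 2 ≤ e := by nlinarith

lemma fx_h {C l x : ℝ} (hC : 0 ≤ C) (hl : 0 ≤ l) (hx : x ≤ 1 + l) : C + x ≤ ((C + 2) + l) ^ 2 := by
  nlinarith [mul_nonneg hC hl, sq_nonneg C, sq_nonneg l]

/-- **comparison in mean** -/
theorem cmp_int (RH : RiemannHypothesis) {R : ℝ} {w : ℝ → ℝ} (hw : Ts R w) (κ : ℝ) (hκ : 0 < κ)
    (hκ1 : κ < 1 / 8) (B : ℝ) (hB : 1 ≤ B) (η : ℝ) (hη : 0 < η) : ∃ h0 e0 T0 : ℝ, 1 ≤ h0 ∧ 0 < e0 ∧
    10 ≤ T0 ∧ ∀ T h : ℝ, T0 ≤ T → h0 ≤ h → h / Real.log T ≤ e0 →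
    (h * R) * Real.log (h * R) ≤ B * Real.log T →
    ∫ t in Icc (T + Real.log T) (2 * T - Real.log T), |Z T h w t +
      (PP (zp T (Wt w κ (Real.log T) h)) ⌊Real.exp (2 * (κ * Real.log T))⌋₊ t).re| ≤ η * T := by
  obtain ⟨C1, T1, hC1, hT1, hpt⟩ := cmp_pt RH hw κ hκ (by linarith)
  obtain ⟨C2, T2, hC2, hT2, hZ⟩ := Z_L1 B hB
  obtain ⟨C3, T3, hC3, hT3, hQ⟩ := Q_int
  obtain ⟨C4, T4, hC4, hT4, hRq⟩ := ef3 κ hκ hκ1
  obtain ⟨C5, hC5, hb⟩ := btW hw.cc
  obtain ⟨C6, hC6, hv⟩ := vT_bd hw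
  have hR := hw.pos
  have hpi := Real.pi_pos
  obtain ⟨A, hA⟩ : ∃ A : ℝ, A = 4 * Real.pi ^ 2 * C6 * R * ((C2 + 2) + B / R) + C1 + (1 + 2 * C4 * C5 ^ 2) :=
    ⟨_, rfl⟩
  have hA0 : 0 < A := by rw [hA]; positivity
  obtain ⟨A2, hA2⟩ : ∃ A2 : ℝ, A2 = C1 + C1 * C3 := ⟨_, rfl⟩
  have hA20 : 0 < A2 := by rw [hA2]; positivity
  refine ⟨max (max 1 (1 / R)) (2 * A2 / η), min 1 ((η / (2 * A)) ^ 2),
    max (max (max T1 T2) (max T3 T4)) (Real.exp (1 + 2 * Real.pi * R)), (le_max_left _ _).trans (le_max_left _ _),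
    by positivity, hT1.trans ((le_max_left _ _).trans ((le_max_left _ _).trans (le_max_left _ _))),
    fun T h hT hh he hRB => ?_⟩
  have hTT1 : T1 ≤ T := ((le_max_left _ _).trans ((le_max_left _ _).trans (le_max_left _ _))).trans hT
  have hTT2 : T2 ≤ T := ((le_max_right _ _).trans ((le_max_left _ _).trans (le_max_left _ _))).trans hT
  have hTT3 : T3 ≤ T := ((le_max_left _ _).trans ((le_max_right _ _).trans (le_max_left _ _))).trans hT
  have hTT4 : T4 ≤ T := ((le_max_right _ _).trans ((le_max_right _ _).trans (le_max_left _ _))).trans hT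
  have hTe : Real.exp (1 + 2 * Real.pi * R) ≤ T := (le_max_right _ _).trans hT
  have hT10 : 10 ≤ T := hT1.trans hTT1
  have hTp : 0 < T := by linarith
  have hT1' : 1 < T := by linarith
  have hL0 : 1 + 2 * Real.pi * R ≤ Real.log T := by
    rw [Real.le_log_iff_exp_le hTp]; exact hTe
  have hL : 0 < Real.log T := Real.log_pos hT1'
  have hL1 : 1 ≤ Real.log T := by
    have : 0 < 2 * Real.pi * R := by positivity
    linarith
  have hh1 : 1 ≤ h := ((le_max_left _ _).trans (le_max_left _ _)).trans hh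
  have hhR : 1 ≤ h * R := by
    have : 1 / R ≤ h := ((le_max_right _ _).trans (le_max_left _ _)).trans hh
    rwa [div_le_iff₀ hR] at this
  have hhA : 2 * A2 / η ≤ h := (le_max_right _ _).trans hh
  have hhp : 0 < h := by linarith
  obtain ⟨e, hed⟩ : ∃ e : ℝ, e = h / Real.log T := ⟨_, rfl⟩
  have he0 : 0 < e := by rw [hed]; positivity
  rw [← hed] at he
  have he1 : e ≤ 1 := he.trans (min_le_left _ _)
  have heη : e ≤ (η / (2 * A)) ^ 2 := he.trans (min_le_right _ _)
  have hhL : h ≤ Real.log T := by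
    rw [hed, div_le_one hL] at he1
    exact he1
  have hRL : 2 * Real.pi * (h * R) ≤ Real.log T ^ 2 := by
    have : 2 * Real.pi * R ≤ Real.log T := by linarith
    calc 2 * Real.pi * (h * R) = h * (2 * Real.pi * R) := by ring
      _ ≤ Real.log T * Real.log T := by gcongr
      _ = _ := by ring
  have hLT : Real.log T ≤ T := (Real.log_le_sub_one_of_pos hTp).trans (by linarith)
  have hRT : 2 * Real.pi * (h * R) / Real.log T ≤ T := by
    rw [div_le_iff₀ hL]
    refine hRL.trans ?_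
    rw [sq]
    gcongr
  -- the pieces
  obtain ⟨W, hW⟩ : ∃ W : ℝ → ℂ, W = Wt w κ (Real.log T) h := ⟨_, rfl⟩
  obtain ⟨N, hN⟩ : ∃ N : ℕ, N = ⌊Real.exp (2 * (κ * Real.log T))⌋₊ := ⟨_, rfl⟩
  obtain ⟨c, hc⟩ : ∃ c : ℝ, c = 2 * Real.pi * h / Real.log T := ⟨_, rfl⟩
  have hce : c = 2 * Real.pi * e := by rw [hc, hed]; ring
  have h1 := hpt T h hTT1 hhp hRL
  have h2 := hZ T hTT2 R (vT c w) (vT_ts hw c) h hhp hRB hRT (C6 * c ^ 2) (hv c)
  have h3 := hQ T h hTT3 hhp
  have hbW : ∀ x : ℝ, ‖bt T W x‖ ≤ C5 * e / (1 + (e * Real.log x) ^ 2) := by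
    intro x
    have := hb T κ h x hT1' hhp (by rw [← hed]; exact he1)
    rw [← hed, ← hW] at this
    exact this
  have h4 := hRq T hTT4 W (C5 * e) C5 (by positivity) hC5.le (fun n => by
      refine (hbW n).trans (div_le_self (by positivity) ?_)
      have : 0 ≤ (e * Real.log n) ^ 2 := sq_nonneg _
      linarith) (fun n _ => by
      have hl : 0 ≤ Real.log n := Real.log_natCast_nonneg n
      calc Real.log n * ‖bt T W n‖ ≤ Real.log n * (C5 * e / (1 + (e * Real.log n) ^ 2)) :=
            mul_le_mul_of_nonneg_left (hbW n) hl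
        _ = C5 * ((e * Real.log n) / (1 + (e * Real.log n) ^ 2)) := by ring
        _ ≤ C5 * 1 := by
            apply mul_le_mul_of_nonneg_left _ hC5.le
            rw [div_le_one (by positivity)]
            exact fx_e _
        _ = C5 := mul_one _)
  rw [← hW, ← hN] at h1 ⊢
  rw [← hN] at h4
  rw [← hc] at h1
  -- integrability
  have hZc : Continuous fun t => |Z T h (vT c w) t| := (Z_cont (vT_ts hw c).cc.cont T h).abs
  have hQc := Q_cont T h
  have hRc := Rq_cont T W N
  have hPc : Continuous fun t => |Z T h w t + (PP (zp T W) N t).re| :=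
    ((Z_cont hw.cc.cont T h).add (Complex.continuous_re.comp (PP_cont _ _))).abs
  have hsub : Icc (T + Real.log T) (2 * T - Real.log T) ⊆ Icc T (2 * T) :=
    Icc_subset_Icc (by linarith) (by linarith)
  obtain ⟨G, hG⟩ : ∃ G : ℝ → ℝ, G = fun t => |Z T h (vT c w) t| + C1 * (e + 1 / h) +
      C1 / h ^ 2 * Q T h t + Rq T W N t := ⟨_, rfl⟩
  have hGc : Continuous G := by rw [hG]; fun_prop
  have hQ0 : ∀ t, 0 ≤ Q T h t := fun t => Finset.sum_nonneg fun _ _ => by positivity
  have hG0 : ∀ t, 0 ≤ G t := by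
    intro t
    have := hQ0 t
    have := Rq_nonneg T W N t
    have := abs_nonneg (Z T h (vT c w) t)
    rw [hG]
    positivity
  have s1 : ∫ t in Icc (T + Real.log T) (2 * T - Real.log T), |Z T h w t + (PP (zp T W) N t).re| ≤
      ∫ t in Icc (T + Real.log T) (2 * T - Real.log T), G t := by
    refine setIntegral_mono_on hPc.continuousOn.integrableOn_Icc hGc.continuousOn.integrableOn_Icc
      measurableSet_Icc fun t ht => ?_
    have := h1 t ht.1 ht.2
    rw [← hed] at this
    rw [hG]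
    exact this
  have s2 : ∫ t in Icc (T + Real.log T) (2 * T - Real.log T), G t ≤ ∫ t in Icc T (2 * T), G t :=
    setIntegral_mono_set hGc.continuousOn.integrableOn_Icc (ae_of_all _ hG0)
      (Filter.Eventually.of_forall hsub)
  have hii : ∀ f : ℝ → ℝ, Continuous f → ∫ t in Icc T (2 * T), f t = ∫ t in T..(2 * T), f t := by
    intro f _
    rw [intervalIntegral.integral_of_le (by linarith), integral_Icc_eq_integral_Ioc]
  have hiv : ∀ f : ℝ → ℝ, Continuous f → IntervalIntegrable f volume T (2 * T) := fun f hf =>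
    hf.intervalIntegrable _ _
  have s3 : ∫ t in Icc T (2 * T), G t = (∫ t in T..(2 * T), |Z T h (vT c w) t|) +
      T * (C1 * (e + 1 / h)) + C1 / h ^ 2 * (∫ t in T..(2 * T), Q T h t) + ∫ t in T..(2 * T), Rq T W N t := by
    have k1 : Continuous fun t => |Z T h (vT c w) t| + C1 * (e + 1 / h) := by fun_prop
    have k2 : Continuous fun t => C1 / h ^ 2 * Q T h t := by fun_prop
    have k3 : Continuous fun t => |Z T h (vT c w) t| + C1 * (e + 1 / h) + C1 / h ^ 2 * Q T h t := by fun_prop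
    have k0 : ∫ t in T..(2 * T), G t = ∫ t in T..(2 * T), (|Z T h (vT c w) t| + C1 * (e + 1 / h) +
      C1 / h ^ 2 * Q T h t + Rq T W N t) := by rw [hG]
    rw [hii G hGc, k0]
    rw [intervalIntegral.integral_add (hiv _ k3) (hiv _ hRc),
      intervalIntegral.integral_add (hiv _ k1) (hiv _ k2),
      intervalIntegral.integral_add (hiv _ hZc) (hiv _ continuous_const)]
    have q1 : ∫ _t in T..(2 * T), C1 * (e + 1 / h) = T * (C1 * (e + 1 / h)) := by
      rw [intervalIntegral.integral_const, smul_eq_mul]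
      ring
    have q2 : ∫ t in T..(2 * T), C1 / h ^ 2 * Q T h t = C1 / h ^ 2 * ∫ t in T..(2 * T), Q T h t :=
      intervalIntegral.integral_const_mul _ _
    rw [q1, q2]
  rw [hii _ hZc] at h2
  rw [hii _ hQc] at h3
  -- the prime powers
  have hse : 0 < Real.sqrt e := Real.sqrt_pos.2 he0
  have hses : Real.sqrt e * Real.sqrt e = e := Real.mul_self_sqrt he0.le
  have hse1 : Real.sqrt e ≤ 1 := Real.sqrt_le_one.2 he1
  have hese : e ≤ Real.sqrt e := fx_f hse.le hse1 hses
  have s4 : ∫ t in T..(2 * T), Rq T W N t ≤ (1 + 2 * C4 * C5 ^ 2) * Real.sqrt e * T := by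
    have k1 : ∫ t in T..(2 * T), Rq T W N t ≤ ∫ t in T..(2 * T), (Real.sqrt e + (1 / Real.sqrt e) * Rq T W N t ^ 2) := by
      apply intervalIntegral.integral_mono_on (by linarith) (hiv _ hRc) (hiv _ (by fun_prop))
      intro t _
      have h6 : 0 ≤ (Real.sqrt e - Rq T W N t) ^ 2 / Real.sqrt e := by positivity
      have h7 : (Real.sqrt e - Rq T W N t) ^ 2 / Real.sqrt e =
          Real.sqrt e - 2 * Rq T W N t + 1 / Real.sqrt e * Rq T W N t ^ 2 := by
        field_simp
        ring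
      have := Rq_nonneg T W N t
      linarith
    refine k1.trans ?_
    rw [intervalIntegral.integral_add (hiv _ continuous_const) (hiv _ (by fun_prop)),
      intervalIntegral.integral_const_mul, intervalIntegral.integral_const, smul_eq_mul]
    have k2 : 1 / Real.sqrt e * (∫ t in T..(2 * T), Rq T W N t ^ 2) ≤ 1 / Real.sqrt e * (C4 * (T * (2 * C5 ^ 2 * e))) := by
      apply mul_le_mul_of_nonneg_left _ (by positivity)
      refine h4.trans ?_
      apply mul_le_mul_of_nonneg_left _ hC4.le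
      apply mul_le_mul_of_nonneg_left _ hTp.le
      have : (C5 * e) ^ 2 ≤ C5 ^ 2 * e := by
        rw [mul_pow]
        have : e ^ 2 ≤ e := fx_g he0.le he1
        gcongr
      linarith
    have k3 : 1 / Real.sqrt e * (C4 * (T * (2 * C5 ^ 2 * e))) = 2 * C4 * C5 ^ 2 * Real.sqrt e * T := by
      have : e / Real.sqrt e = Real.sqrt e := by
        rw [div_eq_iff hse.ne']
        exact hses.symm
      calc _ = C4 * (T * (2 * C5 ^ 2)) * (e / Real.sqrt e) := by ring
        _ = _ := by rw [this]; ring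
    rw [k3] at k2
    have k4 : (2 * T - T) * Real.sqrt e = Real.sqrt e * T := by ring
    rw [k4]
    linarith
  -- the difference of the test functions
  have s5 : C6 * c ^ 2 * R * (T * Real.sqrt (C2 + Real.log (1 + h * R))) ≤
      4 * Real.pi ^ 2 * C6 * R * ((C2 + 2) + B / R) * e * T := by
    have hlog : Real.log (1 + h * R) ≤ 1 + Real.log (h * R) := by
      have : Real.log (1 + h * R) ≤ Real.log (2 * (h * R)) := Real.log_le_log (by linarith) (by linarith)
      rw [Real.log_mul (by norm_num) (by positivity)] at this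
      have h2 : Real.log 2 ≤ 1 := by
        have := Real.log_le_sub_one_of_pos (show (0 : ℝ) < 2 by norm_num)
        linarith
      linarith
    have hlog0 : 0 ≤ Real.log (h * R) := Real.log_nonneg hhR
    have hlog1 : 0 ≤ Real.log (1 + h * R) := Real.log_nonneg (by linarith)
    have hsq : Real.sqrt (C2 + Real.log (1 + h * R)) ≤ (C2 + 2) + Real.log (h * R) := by
      rw [Real.sqrt_le_left (by positivity)]
      exact fx_h (by linarith) hlog0 hlog
    have hel : e * Real.log (h * R) ≤ B / R := by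
      rw [le_div_iff₀ hR, hed]
      have : h / Real.log T * Real.log (h * R) * R = (h * R) * Real.log (h * R) / Real.log T := by ring
      rw [this, div_le_iff₀ hL]
      exact hRB
    calc C6 * c ^ 2 * R * (T * Real.sqrt (C2 + Real.log (1 + h * R))) ≤
        C6 * c ^ 2 * R * (T * ((C2 + 2) + Real.log (h * R))) := by gcongr
      _ = 4 * Real.pi ^ 2 * C6 * R * e * T * (e * (C2 + 2) + e * Real.log (h * R)) := by rw [hce]; ring
      _ ≤ 4 * Real.pi ^ 2 * C6 * R * e * T * (1 * (C2 + 2) + B / R) := by gcongr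
      _ = _ := by ring
  -- together
  have s6 : C1 / h ^ 2 * (∫ t in T..(2 * T), Q T h t) ≤ C1 * C3 / h * T := by
    calc C1 / h ^ 2 * (∫ t in T..(2 * T), Q T h t) ≤ C1 / h ^ 2 * (C3 * (T * h)) := by gcongr
      _ = _ := by field_simp
  have s7 : ∫ t in Icc T (2 * T), G t ≤ A * Real.sqrt e * T + A2 / h * T := by
    rw [s3]
    have k1 := h2.trans s5
    have k2 : 4 * Real.pi ^ 2 * C6 * R * ((C2 + 2) + B / R) * e * T ≤
        4 * Real.pi ^ 2 * C6 * R * ((C2 + 2) + B / R) * Real.sqrt e * T := by gcongr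
    have k3 : T * (C1 * (e + 1 / h)) ≤ C1 * Real.sqrt e * T + C1 / h * T := by
      have : T * (C1 * (e + 1 / h)) = C1 * e * T + C1 / h * T := by ring
      rw [this]
      gcongr
    have e1 : A * Real.sqrt e * T + A2 / h * T =
        4 * Real.pi ^ 2 * C6 * R * ((C2 + 2) + B / R) * Real.sqrt e * T +
        (C1 * Real.sqrt e * T + C1 / h * T) + C1 * C3 / h * T +
        (1 + 2 * C4 * C5 ^ 2) * Real.sqrt e * T := by
      rw [hA, hA2]; ring
    rw [e1]
    linarith
  have s8 : A * Real.sqrt e ≤ η / 2 := by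
    have : Real.sqrt e ≤ η / (2 * A) := by
      rw [Real.sqrt_le_left (by positivity)]
      exact heη
    calc A * Real.sqrt e ≤ A * (η / (2 * A)) := by gcongr
      _ = _ := by field_simp
  have s9 : A2 / h ≤ η / 2 := by
    rw [div_le_iff₀ hη] at hhA
    rw [div_le_iff₀ hhp]
    linarith
  calc _ ≤ A * Real.sqrt e * T + A2 / h * T := s1.trans (s2.trans s7)
    _ ≤ η / 2 * T + η / 2 * T := by gcongr
    _ = _ := by ring

end

end Pool.Agent.K6.H57.ML
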