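import Pool.Agent.K6.H57.ML.Four
import Pool.Agent.TH800.DM.Ix
import Pool.Agent.H382L.EFWm
import Pool.Agent.R320.JL.Cf

/-! # The explicit formula for band limited test functions -/

set_option autoImplicit false

open Complex Filter Topology Set MeasureTheory
open ArithmeticFunction (vonMangoldt vonMangoldt_nonneg vonMangoldt_apply_prime vonMangoldt_le_log)

namespace Pool.Agent.K6.H57.ML

open SP (RHs mu ZZ zs ps bt ppf ppG ppG_nonneg ppG_summable)
open H370 (Zf good_zeta)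
open Pool.Agent.TH800.DM (NP sum_idx)
open Pool.Agent.TH800 (MS.PX MS.mem_PX)
open Pool.Agent.R320.JL (PP nz)
open Pool.Agent.Y743.CL (Pr mem_Pr VS)
open SG (ord NZ)

noncomputable section

/-- the smooth statistic of the zeros in `(T, 2T]` -/
def zw (T h : ℝ) (v : ℝ → ℝ) (t : ℝ) : ℝ :=
  ∑ n ∈ Finset.Ioc (NZ T) (NZ (2 * T)), Real.exp (-(ord n - t) ^ 2 / 2) *
    v (Real.log T * (ord n - t) / (2 * Real.pi * h))

lemma zs_zw (RH : RiemannHypothesis) {w : ℝ → ℝ} (hw : Cc w) {T κ h : ℝ} (hT : 1 < T) (hκ : 0 < κ)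
    (hκ1 : κ ≤ 1) (hh : 0 < h) (t : ℝ) :
    (zs T t (Wt w κ (Real.log T) h)).re = zw T h (bl (κ * h) w) t := by
  have hL : 0 < Real.log T := Real.log_pos hT
  unfold SP.zs zw SP.ZZ
  rw [H370.finsum_Zf good_zeta hT.le, Complex.re_sum, ← sum_idx RH hT.le (fun x =>
    Real.exp (-(x - t) ^ 2 / 2) * bl (κ * h) w (Real.log T * (x - t) / (2 * Real.pi * h)))]
  refine Finset.sum_congr rfl fun s _ => ?_
  have e3 : (mu s : ℂ) * (Real.exp (-(s.im - t) ^ 2 / 2) : ℂ) =
      (((mu s : ℝ) * Real.exp (-(s.im - t) ^ 2 / 2) : ℝ) : ℂ) := by push_cast; rfl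
  rw [e3, Complex.re_ofReal_mul, Wt_bl hw hκ hκ1 hL hh]
  ring

theorem ef1 (RH : RiemannHypothesis) : ∃ C T0 : ℝ, 0 < C ∧ 10 ≤ T0 ∧ ∀ T : ℝ, T0 ≤ T → ∀ t : ℝ,
    T + Real.log T ≤ t → t ≤ 2 * T - Real.log T → ∀ w : ℝ → ℝ, Cc w → ∀ κ h K : ℝ, 0 < κ → κ ≤ 1 →
    0 < h → (∀ u, ‖Wt w κ (Real.log T) h u‖ ≤ K) →
    |zw T h (bl (κ * h) w) t + (ps T t (Wt w κ (Real.log T) h)).re - Real.log T / (2 * Real.pi) *
      ∫ y : ℝ, Real.exp (-y ^ 2 / 2) * bl (κ * h) w (Real.log T * y / (2 * Real.pi * h))| ≤ C * K := by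
  obtain ⟨C, T0, hC, hT0, h⟩ := LG.EFWm (Pool.Agent.TH800.MS.rhs_of RH)
  refine ⟨C, T0, hC, hT0, fun T hT t ht1 ht2 w hw κ q K hκ hκ1 hq hK => ?_⟩
  have hT1 : 1 < T := by linarith
  have h1 := h T hT t ht1 ht2 (Wt w κ (Real.log T) q) K (Wt_cont hw _ _ _) (fun u _ => hK u)
  refine le_trans ?_ h1
  rw [← zs_zw RH hw hT1 hκ hκ1 hq t, ← Wt_main hw hκ hκ1 (Real.log_pos hT1) hq]
  have h3 := Complex.abs_re_le_norm (zs T t (Wt w κ (Real.log T) q) + ps T t (Wt w κ (Real.log T) q) -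
    ((Real.log T / Real.sqrt (2 * Real.pi) : ℝ) : ℂ) *
      ∫ u in (0 : ℝ)..Real.log T, Wt w κ (Real.log T) q u * (Real.exp (-u ^ 2 / 2) : ℂ))
  rw [Complex.sub_re, Complex.add_re] at h3
  exact h3

/-- the coefficients of the prime polynomial -/
def zp (T : ℝ) (W : ℝ → ℂ) (p : ℕ) : ℂ := ((Real.log p / Real.sqrt p : ℝ) : ℂ) * bt T W p

lemma ppf_eq' (T t : ℝ) (W : ℝ → ℂ) {n : ℕ} (hn : 1 ≤ n) :
    ppf T t W n = ((vonMangoldt n / Real.sqrt n : ℝ) : ℂ) * bt T W n *
      cexp (((t * (-Real.log n) : ℝ) : ℂ) * I) := by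
  have hn0 : (0 : ℝ) < n := by exact_mod_cast hn
  have hnc : (n : ℂ) ≠ 0 := by exact_mod_cast hn0.ne'
  unfold SP.ppf
  rw [Complex.cpow_def_of_ne_zero hnc, ← Complex.natCast_log]
  have h1 : (((vonMangoldt n / Real.sqrt n : ℝ)) : ℂ) = (vonMangoldt n : ℂ) *
      cexp ((-(Real.log n / 2) : ℝ) : ℂ) := by
    rw [← ofReal_exp, ← ofReal_mul, div_eq_mul_inv]
    congr 2
    rw [Real.exp_neg, Real.sqrt_eq_rpow, Real.rpow_def_of_pos hn0]
    congr 2
    ring
  rw [h1]
  have h2 : cexp (((Real.log n : ℝ) : ℂ) * (-(1 / 2) - I * t)) =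
      cexp ((-(Real.log n / 2) : ℝ) : ℂ) * cexp (((t * (-Real.log n) : ℝ) : ℂ) * I) := by
    rw [← Complex.exp_add]
    congr 1
    push_cast
    ring
  rw [h2]
  ring

/-- the contribution of the prime powers -/
def Rq (T : ℝ) (W : ℝ → ℂ) (N : ℕ) (t : ℝ) : ℝ :=
  ‖∑ n ∈ NP N, (((vonMangoldt n / Real.sqrt n : ℝ) : ℂ) * bt T W n) *
      cexp (((t * (-Real.log n) : ℝ) : ℂ) * I)‖

lemma Rq_cont (T : ℝ) (W : ℝ → ℂ) (N : ℕ) : Continuous (Rq T W N) := by
  unfold Rq; fun_prop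

lemma Rq_nonneg (T : ℝ) (W : ℝ → ℂ) (N : ℕ) (t : ℝ) : 0 ≤ Rq T W N t := norm_nonneg _

/-- the prime side -/
theorem ef2 (lam : ℝ) (hl0 : 0 < lam) : ∃ C : ℝ, 0 < C ∧ ∀ T : ℝ, 10 ≤ T →
    ∀ (W : ℝ → ℂ) (K : ℝ), (∀ u ∈ Set.Icc 0 (Real.log T), ‖W u‖ ≤ K) →
    (∀ u : ℝ, lam * Real.log T ≤ u → W u = 0) → ∀ t : ℝ,
    ‖ps T t W - PP (zp T W) ⌊Real.exp (2 * (lam * Real.log T))⌋₊ t‖ ≤
      Rq T W ⌊Real.exp (2 * (lam * Real.log T))⌋₊ t + C * K := by
  have hs0 : 0 ≤ ∑' n, ppG (1 / 16) n := tsum_nonneg (ppG_nonneg _)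
  refine ⟨4 / lam ^ 2 * (∑' n, ppG (1 / 16) n) + 1, by positivity,
    fun T hT W K hWK hW0 t => ?_⟩
  have hT1 : 1 < T := by linarith
  have hL1 : 1 ≤ Real.log T := by
    rw [Real.le_log_iff_exp_le (by linarith)]
    exact (Real.exp_one_lt_d9.le.trans (by norm_num)).trans hT
  set L := Real.log T with hL
  have hL0 : 0 < L := by linarith
  have hK0 : 0 ≤ K := (norm_nonneg _).trans (hWK 0 ⟨le_rfl, hL0.le⟩)
  set N := ⌊Real.exp (2 * (lam * L))⌋₊ with hN
  have hsum := SP.ppf_summable T t hT1.le W K hWK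
  have hps : ps T t W = ∑' n, ppf T t W n := rfl
  -- tail
  set f := ppf T t W with hf
  have htail : ‖(∑' n, f n) - ∑ n ∈ Finset.Icc 1 N, f n‖ ≤
      4 / lam ^ 2 * K * ∑' n, ppG (1 / 16) n := by
    have h1 : (∑' n, f n) - ∑ n ∈ Finset.Icc 1 N, f n =
        ∑' n, (f n - if n ∈ Finset.Icc 1 N then f n else 0) := by
      have hs2 : Summable (fun n => if n ∈ Finset.Icc 1 N then f n else 0) := by
        apply summable_of_ne_finset_zero (s := Finset.Icc 1 N)
        intro n hn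
        rw [if_neg hn]
      rw [hsum.tsum_sub hs2]
      congr 1
      rw [tsum_eq_sum (s := Finset.Icc 1 N)]
      · exact Finset.sum_congr rfl fun n hn => by rw [if_pos hn]
      · intro n hn
        rw [if_neg hn]
    rw [h1]
    apply tsum_of_norm_bounded ((ppG_summable (1 / 16) (by norm_num)).hasSum.mul_left _)
    intro n
    have hpp := ppG_nonneg (1 / 16) n
    by_cases hn : n ∈ Finset.Icc 1 N
    · rw [if_pos hn, sub_self, norm_zero]
      positivity
    rw [if_neg hn, sub_zero]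
    rcases Nat.eq_zero_or_pos n with h0 | h0
    · subst h0
      rw [hf, SP.ppf_zero, norm_zero]
      positivity
    have hn2 : Real.exp (2 * (lam * L)) < n := by
      have : ¬ (n ≤ N) := fun h => hn (Finset.mem_Icc.2 ⟨h0, h⟩)
      rw [not_le] at this
      exact (Nat.floor_lt (Real.exp_pos _).le).1 this
    have hlogn : 2 * (lam * L) ≤ Real.log n := by
      rw [Real.le_log_iff_exp_le (by exact_mod_cast h0)]
      exact hn2.le
    have hlL : 0 < lam * L := by positivity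
    have h0' : 0 ≤ Real.log n := Real.log_natCast_nonneg n
    calc ‖f n‖ ≤ Real.log n * (n : ℝ) ^ (-(1 / 2) : ℝ) * ‖bt T W n‖ :=
          SP.ppf_norm_le T t W n
      _ ≤ Real.log n * (n : ℝ) ^ (-(1 / 2) : ℝ) *
          (K * (4 / lam ^ 2 * Real.exp (-(1 / 16) * (Real.log n) ^ 2))) := by
          apply mul_le_mul_of_nonneg_left _ (by positivity)
          refine (SP.bt_far T hT1.le W K (lam * L) hWK hW0 n (by linarith)).trans ?_
          rw [mul_assoc]
          apply mul_le_mul_of_nonneg_left _ hK0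
          have h2 : Real.exp (-(Real.log n - lam * L) ^ 2 / 2) ≤
              Real.exp (-(1 / 16) * (Real.log n) ^ 2) * Real.exp (-(lam ^ 2 * L ^ 2 / 4)) := by
            rw [← Real.exp_add]
            apply Real.exp_le_exp.2
            nlinarith
          have h3 : Real.exp (-(lam ^ 2 * L ^ 2 / 4)) * L ≤ 4 / lam ^ 2 := by
            have h4 := Real.add_one_le_exp (lam ^ 2 * L ^ 2 / 4)
            have h5 : lam ^ 2 * L ^ 2 / 4 ≤ Real.exp (lam ^ 2 * L ^ 2 / 4) := by linarith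
            rw [Real.exp_neg]
            have h6 : (Real.exp (lam ^ 2 * L ^ 2 / 4))⁻¹ ≤ (lam ^ 2 * L ^ 2 / 4)⁻¹ :=
              inv_anti₀ (by positivity) h5
            calc (Real.exp (lam ^ 2 * L ^ 2 / 4))⁻¹ * L ≤ (lam ^ 2 * L ^ 2 / 4)⁻¹ * L := by gcongr
              _ = 4 / lam ^ 2 * (1 / L) := by field_simp
              _ ≤ 4 / lam ^ 2 * 1 := by
                  gcongr
                  rw [div_le_one hL0]
                  exact hL1
              _ = _ := mul_one _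
          calc Real.exp (-(Real.log n - lam * L) ^ 2 / 2) * Real.log T ≤
              (Real.exp (-(1 / 16) * (Real.log n) ^ 2) * Real.exp (-(lam ^ 2 * L ^ 2 / 4))) * L := by
                gcongr
            _ = Real.exp (-(1 / 16) * (Real.log n) ^ 2) * (Real.exp (-(lam ^ 2 * L ^ 2 / 4)) * L) := by
                ring
            _ ≤ Real.exp (-(1 / 16) * (Real.log n) ^ 2) * (4 / lam ^ 2) := by gcongr
            _ = _ := by ring
      _ = _ := by
          unfold SP.ppG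
          ring
  have hsplit : ∑ n ∈ Finset.Icc 1 N, f n = (∑ p ∈ Pr N, f p) + ∑ n ∈ NP N, f n := by
    unfold NP
    rw [Finset.sum_filter_add_sum_filter_not]
  have hP : (∑ p ∈ Pr N, f p) = PP (zp T W) N t := by
    unfold PP zp
    refine Finset.sum_congr rfl fun p hp => ?_
    have hpp := (mem_Pr.1 hp).1
    have hp0 : (0 : ℝ) < p := by exact_mod_cast hpp.pos
    have hpc : (p : ℂ) ≠ 0 := by exact_mod_cast hp0.ne'
    rw [hf, ppf_eq' T t W hpp.one_lt.le, vonMangoldt_apply_prime hpp,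
      Complex.cpow_def_of_ne_zero hpc, ← Complex.natCast_log]
    congr 2
    push_cast
    ring
  have hR : ‖∑ n ∈ NP N, f n‖ = Rq T W N t := by
    unfold Rq
    congr 1
    refine Finset.sum_congr rfl fun n hn => ?_
    unfold NP at hn
    rw [Finset.mem_filter, Finset.mem_Icc] at hn
    rw [hf, ppf_eq' T t W hn.1.1]
  have hfin : ps T t W - PP (zp T W) N t =
      ((∑' n, f n) - ∑ n ∈ Finset.Icc 1 N, f n) + (∑ n ∈ NP N, f n) := by
    rw [← hP, hps, hsplit]
    ring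
  rw [hfin]
  calc _ ≤ ‖(∑' n, f n) - ∑ n ∈ Finset.Icc 1 N, f n‖ + ‖∑ n ∈ NP N, f n‖ := norm_add_le _ _
    _ ≤ 4 / lam ^ 2 * K * (∑' n, ppG (1 / 16) n) + Rq T W N t := add_le_add htail hR.le
    _ ≤ _ := by nlinarith

/-- mean square of the contribution of the prime powers -/
theorem ef3 (lam : ℝ) (hl0 : 0 < lam) (hl1 : lam < 1 / 8) : ∃ C T0 : ℝ, 0 < C ∧ 10 ≤ T0 ∧
    ∀ T : ℝ, T0 ≤ T → ∀ (W : ℝ → ℂ) (K K' : ℝ), 0 ≤ K → 0 ≤ K' → (∀ n : ℕ, ‖bt T W n‖ ≤ K) →
    (∀ n : ℕ, 1 ≤ n → Real.log n * ‖bt T W n‖ ≤ K') →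
    ∫ t in T..(2 * T), Rq T W ⌊Real.exp (2 * (lam * Real.log T))⌋₊ t ^ 2 ≤
      C * (T * (K * K' + K ^ 2)) := by
  set S := ∑' n : ℕ, (if n.Prime then 0 else vonMangoldt n / (n : ℝ)) with hS
  have hS0 : 0 ≤ S := tsum_nonneg H385.npr_nonneg
  obtain ⟨T1, hT1⟩ : ∃ T1 : ℝ, ∀ T : ℝ, T1 ≤ T → T ^ 4 * Real.exp (-(T / 2)) ≤ 1 := by
    have h1 := (Real.tendsto_pow_mul_exp_neg_atTop_nhds_zero 4).comp
      (tendsto_id.atTop_div_const (show (0 : ℝ) < 2 by norm_num))
    have h2 := h1.const_mul 16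
    rw [mul_zero] at h2
    obtain ⟨T1, hT1⟩ := (h2.eventually_le_const (zero_lt_one)).exists_forall_of_atTop
    refine ⟨T1, fun T hT => ?_⟩
    have h3 := hT1 T hT
    simp only [Function.comp, id] at h3
    calc T ^ 4 * Real.exp (-(T / 2)) = 16 * ((T / 2) ^ 4 * Real.exp (-(T / 2))) := by ring
      _ ≤ 1 := h3
  refine ⟨4 * (S + 1), max 10 T1, by positivity, le_max_left _ _,
    fun T hT W K K' hK0 hK'0 hbK hbK' => ?_⟩
  have hT10 : 10 ≤ T := (le_max_left _ _).trans hT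
  have hTe := hT1 T ((le_max_right _ _).trans hT)
  have hT0 : 0 < T := by linarith
  have hL1 : 1 ≤ Real.log T := by
    rw [Real.le_log_iff_exp_le (by linarith)]
    exact (Real.exp_one_lt_d9.le.trans (by norm_num)).trans hT10
  set L := Real.log T with hL
  have hL0 : 0 < L := by linarith
  set N := ⌊Real.exp (2 * (lam * L))⌋₊ with hN
  have hNexp : (N : ℝ) ≤ Real.exp (2 * (lam * L)) := Nat.floor_le (Real.exp_pos _).le
  have hNe : (N : ℝ) ≤ Real.exp (L / 4) := by
    refine hNexp.trans (Real.exp_le_exp.2 ?_)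
    nlinarith
  have hN1 : 1 ≤ N := by
    apply Nat.le_floor
    push_cast
    rw [Real.one_le_exp_iff]
    positivity
  have hN1r : (1 : ℝ) ≤ N := by exact_mod_cast hN1
  have hNr0 : (0 : ℝ) < N := by linarith
  have hN4 : (N : ℝ) ^ 4 ≤ T := by
    calc (N : ℝ) ^ 4 ≤ Real.exp (L / 4) ^ 4 := by gcongr
      _ = T := by
          rw [← Real.exp_nat_mul]
          have : ((4 : ℕ) : ℝ) * (L / 4) = L := by push_cast; ring
          rw [this, hL, Real.exp_log hT0]
  have h1 := Pool.Agent.TH800.MS.gm_sep (NP N) (fun n => ((vonMangoldt n / Real.sqrt n : ℝ) : ℂ) * bt T W n)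
    (fun n => -Real.log n) T (1 / (N : ℝ)) hT0 (by positivity) (fun i hi j hj hij => by
      unfold NP at hi hj
      rw [Finset.mem_filter, Finset.mem_Icc] at hi hj
      have := Pool.Agent.TH800.MS.log_sep hi.1.1 hj.1.1 hij (N := (N : ℝ)) (by exact_mod_cast hi.1.2)
        (by exact_mod_cast hj.1.2)
      have e : -Real.log i - -Real.log j = -(Real.log i - Real.log j) := by ring
      rw [e, abs_neg]
      exact this)
  have h2 : ∀ t, Rq T W N t ^ 2 = ‖∑ n ∈ NP N, (((vonMangoldt n / Real.sqrt n : ℝ) : ℂ) * bt T W n) *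
      cexp (((t * (-Real.log n) : ℝ) : ℂ) * I)‖ ^ 2 := fun t => rfl
  simp_rw [h2]
  refine h1.trans ?_
  have h3 : ∑ n ∈ NP N, ‖((vonMangoldt n / Real.sqrt n : ℝ) : ℂ) * bt T W n‖ ^ 2 ≤
      S * (K * K') := by
    calc _ ≤ ∑ n ∈ NP N, (if n.Prime then 0 else vonMangoldt n / (n : ℝ)) * (K * K') := by
          refine Finset.sum_le_sum fun n hn => ?_
          unfold NP at hn
          rw [Finset.mem_filter, Finset.mem_Icc] at hn
          rw [if_neg hn.2, norm_mul, Complex.norm_real, Real.norm_eq_abs, mul_pow, sq_abs, div_pow,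
            Real.sq_sqrt (Nat.cast_nonneg n)]
          have g3 : 0 ≤ vonMangoldt n := vonMangoldt_nonneg
          have g4 : (0 : ℝ) ≤ n := Nat.cast_nonneg n
          have g5 : vonMangoldt n * ‖bt T W n‖ ≤ K' :=
            (mul_le_mul_of_nonneg_right vonMangoldt_le_log (norm_nonneg _)).trans (hbK' n hn.1.1)
          calc vonMangoldt n ^ 2 / n * ‖bt T W n‖ ^ 2 = vonMangoldt n / n * (‖bt T W n‖ *
              (vonMangoldt n * ‖bt T W n‖)) := by ring
            _ ≤ vonMangoldt n / n * (K * K') := by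
                apply mul_le_mul_of_nonneg_left _ (by positivity)
                exact mul_le_mul (hbK n) g5 (by positivity) hK0
      _ = (∑ n ∈ NP N, (if n.Prime then 0 else vonMangoldt n / (n : ℝ))) * (K * K') := by
          rw [Finset.sum_mul]
      _ ≤ _ := by
          apply mul_le_mul_of_nonneg_right _ (by positivity)
          exact H385.npr_summable.sum_le_tsum _ fun n _ => H385.npr_nonneg n
  have h4 : ∑ n ∈ NP N, ‖((vonMangoldt n / Real.sqrt n : ℝ) : ℂ) * bt T W n‖ ≤ K * T := by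
    calc _ ≤ ∑ n ∈ NP N, K * N := by
          refine Finset.sum_le_sum fun n hn => ?_
          unfold NP at hn
          rw [Finset.mem_filter, Finset.mem_Icc] at hn
          have hn1 : (1 : ℝ) ≤ n := by exact_mod_cast hn.1.1
          rw [norm_mul, Complex.norm_real, Real.norm_eq_abs, abs_of_nonneg
            (div_nonneg vonMangoldt_nonneg (Real.sqrt_nonneg _)), mul_comm K]
          have g2 := hbK n
          have g1 : vonMangoldt n / Real.sqrt n ≤ N := by
            have g3 : vonMangoldt n ≤ N := by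
              refine (vonMangoldt_le_log).trans ?_
              have g5 := Real.log_le_sub_one_of_pos (show (0 : ℝ) < n by linarith)
              have : (n : ℝ) ≤ N := by exact_mod_cast hn.1.2
              linarith
            refine le_trans (div_le_self vonMangoldt_nonneg ?_) g3
            rw [Real.one_le_sqrt]
            exact hn1
          exact mul_le_mul g1 g2 (norm_nonneg _) hNr0.le
      _ ≤ (N : ℝ) * (K * N) := by
          rw [Finset.sum_const, nsmul_eq_mul]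
          apply mul_le_mul_of_nonneg_right _ (by positivity)
          have : (NP N).card ≤ N := by
            unfold NP
            refine (Finset.card_filter_le _ _).trans ?_
            rw [Nat.card_Icc]
            omega
          exact_mod_cast this
      _ = K * (N : ℝ) ^ 2 := by ring
      _ ≤ K * (N : ℝ) ^ 4 := by
          apply mul_le_mul_of_nonneg_left _ hK0
          exact pow_le_pow_right₀ hN1r (by norm_num)
      _ ≤ K * T := by gcongr
  have h5 : (∑ n ∈ NP N, ‖((vonMangoldt n / Real.sqrt n : ℝ) : ℂ) * bt T W n‖) ^ 2 *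
      Real.exp (-(T ^ 2 * (1 / (N : ℝ)) ^ 2) / 2) ≤ K ^ 2 := by
    have e0 : 0 ≤ ∑ n ∈ NP N, ‖((vonMangoldt n / Real.sqrt n : ℝ) : ℂ) * bt T W n‖ :=
      Finset.sum_nonneg fun _ _ => norm_nonneg _
    have e1 : T ≤ T ^ 2 * (1 / (N : ℝ)) ^ 2 := by
      have : (N : ℝ) ^ 2 ≤ T := le_trans (pow_le_pow_right₀ hN1r (by norm_num)) hN4
      rw [one_div, inv_pow, ← div_eq_mul_inv, le_div_iff₀ (by positivity)]
      nlinarith
    have e2 : Real.exp (-(T ^ 2 * (1 / (N : ℝ)) ^ 2) / 2) ≤ Real.exp (-(T / 2)) := by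
      apply Real.exp_le_exp.2
      linarith
    calc _ ≤ (K * T) ^ 2 * Real.exp (-(T / 2)) := by gcongr
      _ = K ^ 2 * (T ^ 2 * Real.exp (-(T / 2))) := by ring
      _ ≤ K ^ 2 * (T ^ 4 * Real.exp (-(T / 2))) := by
          gcongr
          · linarith
          · norm_num
      _ ≤ K ^ 2 * 1 := by gcongr
      _ = _ := mul_one _
  calc _ ≤ 4 * T * (S * (K * K') + K ^ 2) := by gcongr
    _ ≤ 4 * T * ((S + 1) * (K * K' + K ^ 2)) := by
        apply mul_le_mul_of_nonneg_left _ (by positivity)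
        have : 0 ≤ K * K' := by positivity
        nlinarith [mul_nonneg hS0 (sq_nonneg K)]
    _ = _ := by ring

end

end Pool.Agent.K6.H57.ML
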