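import Pool.Agent.K6.H57.ML.Ker

/-! # The Fourier representation of the band limited approximation -/

set_option autoImplicit false

open MeasureTheory Set Filter Topology
open scoped FourierTransform ContDiff

namespace Pool.Agent.K6.H57.ML

noncomputable section

/-- the modulated cutoff -/
def gx (H x ξ : ℝ) : ℂ := (chi (ξ / H) : ℂ) * Complex.exp (2 * Real.pi * Complex.I * (ξ * x : ℝ))

lemma gx_cs {H : ℝ} (hH : 0 < H) (x : ℝ) : HasCompactSupport (gx H x) := by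
  refine HasCompactSupport.of_support_subset_isCompact (isCompact_Icc (a := -H) (b := H)) ?_
  intro ξ hξ
  by_contra hcon
  apply hξ
  unfold gx
  rw [chi_zero, Complex.ofReal_zero, zero_mul]
  rw [abs_div, abs_of_pos hH, le_div_iff₀ hH, one_mul]
  by_contra h2
  push Not at h2
  exact hcon ⟨(abs_lt.1 h2).1.le, (abs_lt.1 h2).2.le⟩

lemma gx_sm (H x : ℝ) : ContDiff ℝ ∞ (gx H x) := by
  unfold gx
  apply ContDiff.mul
  · exact Complex.ofRealCLM.contDiff.comp (chi_sm.comp (contDiff_id.div_const H))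
  · apply ContDiff.cexp
    apply ContDiff.mul contDiff_const
    exact Complex.ofRealCLM.contDiff.comp (contDiff_id.mul contDiff_const)

lemma gx_four {H : ℝ} (hH : 0 < H) (x v : ℝ) : 𝓕 (gx H x) v = ((H * KK (H * (v - x)) : ℝ) : ℂ) := by
  rw [Complex.ofReal_mul, hat_chi_real]
  unfold hat
  rw [Real.fourier_eq', Real.fourier_eq']
  obtain ⟨g, hg⟩ : ∃ g : ℝ → ℂ, g = fun ζ : ℝ =>
    Complex.exp (((-2 * Real.pi * inner ℝ ζ (H * (v - x)) : ℝ) : ℂ) * Complex.I) • ((chi ζ : ℝ) : ℂ) :=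
    ⟨_, rfl⟩
  have h1 := Measure.integral_comp_mul_left g (H⁻¹)
  rw [inv_inv, abs_of_pos hH] at h1
  rw [← hg]
  have h2 : (H : ℂ) * ∫ ζ, g ζ = ∫ ξ, g (H⁻¹ * ξ) := by
    rw [h1, Complex.real_smul]
  rw [h2]
  refine integral_congr_ae (ae_of_all _ fun ξ => ?_)
  rw [hg]
  simp only [gx, smul_eq_mul]
  have e1 : ξ / H = H⁻¹ * ξ := by rw [div_eq_inv_mul]
  rw [e1, mul_comm (Complex.exp _) ((chi (H⁻¹ * ξ) : ℝ) : ℂ), mul_comm (Complex.exp _) (_ * _), mul_assoc,
    ← Complex.exp_add]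
  congr 2
  have hin : ∀ a b : ℝ, inner ℝ a b = b * a := fun a b => by simp
  rw [hin, hin]
  have hHc : (H : ℂ) ≠ 0 := by exact_mod_cast hH.ne'
  push_cast
  field_simp
  ring

/-- **the Fourier representation** -/
theorem bl_four {w : ℝ → ℝ} (h : Cc w) {H : ℝ} (hH : 0 < H) (x : ℝ) :
    (bl H w x : ℂ) = ∫ ξ : ℝ, hat w ξ * gx H x ξ := by
  have h1 := SchwartzMap.integral_fourier_mul_eq (tS h.sm h.cs)
    (HasCompactSupport.toSchwartzMap (gx_cs hH x) (gx_sm H x))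
  have h2 : ∫ ξ : ℝ, hat w ξ * gx H x ξ = ∫ v : ℝ, (w v : ℂ) * 𝓕 (gx H x) v := h1
  rw [h2]
  simp only [gx_four hH]
  have h3 : ∀ v : ℝ, (w v : ℂ) * ((H * KK (H * (v - x)) : ℝ) : ℂ) =
      ((w v * (H * KK (H * (v - x))) : ℝ) : ℂ) := fun v => by push_cast; ring
  simp only [h3]
  have h4 : (∫ v : ℝ, ((w v * (H * KK (H * (v - x))) : ℝ) : ℂ)) =
    ((∫ v : ℝ, w v * (H * KK (H * (v - x))) : ℝ) : ℂ) :=
    integral_ofReal (𝕜 := ℂ) (f := fun v => w v * (H * KK (H * (v - x)))) (μ := volume)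
  rw [h4]
  congr 1
  have h5 := integral_sub_left_eq_self (fun v : ℝ => w v * (H * KK (H * (v - x)))) volume x
  rw [← h5]
  have h6 := Measure.integral_comp_mul_left (fun s : ℝ => KK s * w (x - s / H)) H
  unfold bl
  have h7 : ∫ s, KK s * w (x - s / H) = H * ∫ u, KK (H * u) * w (x - H * u / H) := by
    rw [h6, abs_of_pos (by positivity), smul_eq_mul, ← mul_assoc, mul_inv_cancel₀ hH.ne', one_mul]
  rw [h7, ← integral_const_mul]
  refine integral_congr_ae (ae_of_all _ fun u => ?_)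
  simp only
  have e1 : H * (x - u - x) = -(H * u) := by ring
  have e2 : H * u / H = u := by field_simp
  rw [e1, e2, KK_neg]
  ring

/-- hermitian functions -/
lemma half {g : ℝ → ℂ} (hg : Integrable g) (hs : ∀ u, g (-u) = (starRingEnd ℂ) (g u)) :
    ∫ u, g u = ((2 * (∫ u in Ioi (0 : ℝ), g u).re : ℝ) : ℂ) := by
  have h1 : ∫ u, g u = (∫ u in Iic (0 : ℝ), g u) + ∫ u in Ioi (0 : ℝ), g u :=
    (intervalIntegral.integral_Iic_add_Ioi hg.integrableOn hg.integrableOn).symm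
  have h2 : ∫ u in Iic (0 : ℝ), g u = (starRingEnd ℂ) (∫ u in Ioi (0 : ℝ), g u) := by
    have h3 := integral_comp_neg_Iic (0 : ℝ) (fun u => (starRingEnd ℂ) (g u))
    rw [neg_zero] at h3
    rw [← integral_conj, ← h3]
    refine setIntegral_congr_fun measurableSet_Iic fun u _ => ?_
    rw [hs, Complex.conj_conj]
  rw [h1, h2, add_comm, Complex.add_conj]

/-- the weight in the explicit formula -/
def Wt (w : ℝ → ℝ) (κ L h u : ℝ) : ℂ := (2 * (h / L) * chi (u / (κ * L)) : ℝ) * hat w (h / L * u)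

lemma Wt_cont {w : ℝ → ℝ} (hw : Cc w) (κ L h : ℝ) : Continuous (Wt w κ L h) := by
  unfold Wt
  apply Continuous.mul
  · exact Complex.continuous_ofReal.comp (continuous_const.mul (chi_cont.comp (continuous_id.div_const _)))
  · exact (hat_cont hw.sm hw.cs).comp (continuous_const.mul continuous_id)

lemma Wt_zero {w : ℝ → ℝ} {κ L h u : ℝ} (hκ : 0 < κ) (hL : 0 < L) (hu : κ * L ≤ |u|) :
    Wt w κ L h u = 0 := by
  unfold Wt
  rw [chi_zero]
  · simp
  · rw [abs_div, abs_of_pos (by positivity : 0 < κ * L), le_div_iff₀ (by positivity), one_mul]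
    exact hu

lemma Wt_neg (w : ℝ → ℝ) (κ L h u : ℝ) : Wt w κ L h (-u) = (starRingEnd ℂ) (Wt w κ L h u) := by
  unfold Wt
  rw [neg_div, chi_neg, mul_neg, hat_neg, map_mul, Complex.conj_ofReal]

lemma Wt_int {w : ℝ → ℝ} (hw : Cc w) {κ L h : ℝ} (hκ : 0 < κ) (hL : 0 < L) {F : ℝ → ℂ}
    (hF : Continuous F) : Integrable fun u => Wt w κ L h u * F u := by
  apply Continuous.integrable_of_hasCompactSupport ((Wt_cont hw κ L h).mul hF)
  refine HasCompactSupport.of_support_subset_isCompact (isCompact_Icc (a := -(κ * L)) (b := κ * L)) ?_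
  intro u hu
  by_contra hcon
  apply hu
  show Wt w κ L h u * F u = 0
  rw [Wt_zero hκ hL, zero_mul]
  by_contra h2
  push Not at h2
  exact hcon ⟨(abs_lt.1 h2).1.le, (abs_lt.1 h2).2.le⟩

/-- **integrals against the weight** -/
lemma Wt_half {w : ℝ → ℝ} (hw : Cc w) {κ L h : ℝ} (hκ : 0 < κ) (hκ1 : κ ≤ 1) (hL : 0 < L) {F : ℝ → ℂ}
    (hF : Continuous F) (hFs : ∀ u, F (-u) = (starRingEnd ℂ) (F u)) :
    ((2 * (∫ u in (0 : ℝ)..L, Wt w κ L h u * F u).re : ℝ) : ℂ) = ∫ u, Wt w κ L h u * F u := by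
  rw [half (Wt_int hw hκ hL hF) (fun u => by rw [Wt_neg, hFs, map_mul])]
  congr 3
  rw [intervalIntegral.integral_of_le hL.le]
  have h1 : Ioi (0 : ℝ) = Ioc 0 L ∪ Ioi L := (Ioc_union_Ioi_eq_Ioi hL.le).symm
  rw [h1, setIntegral_union (by
    rw [Set.disjoint_left]; intro x hx hx2; exact absurd hx.2 (not_le.2 hx2)) measurableSet_Ioi
    (Wt_int hw hκ hL hF).integrableOn (Wt_int hw hκ hL hF).integrableOn]
  have h2 : ∫ u in Ioi L, Wt w κ L h u * F u = 0 := by
    rw [setIntegral_congr_fun (g := fun _ => (0 : ℂ)) measurableSet_Ioi fun u hu => ?_]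
    · simp
    · have hu' : L < u := hu
      simp only
      rw [Wt_zero hκ hL, zero_mul]
      rw [abs_of_pos (by linarith)]
      nlinarith
  rw [h2, add_zero]

/-- **the transform of the weight** -/
theorem Wt_bl {w : ℝ → ℝ} (hw : Cc w) {κ L h : ℝ} (hκ : 0 < κ) (hκ1 : κ ≤ 1) (hL : 0 < L) (hh : 0 < h)
    (y : ℝ) : (∫ u in (0 : ℝ)..L, Wt w κ L h u * Complex.exp (Complex.I * ((u * y : ℝ) : ℂ))).re =
      bl (κ * h) w (L * y / (2 * Real.pi * h)) := by
  have h1 := Wt_half hw (h := h) hκ hκ1 hL (F := fun u => Complex.exp (Complex.I * ((u * y : ℝ) : ℂ)))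
    (by fun_prop) (fun u => by
      rw [← Complex.exp_conj, map_mul, Complex.conj_I, Complex.conj_ofReal]
      congr 1
      push_cast
      ring)
  have h2 := bl_four hw (H := κ * h) (by positivity) (L * y / (2 * Real.pi * h))
  have h3 := Measure.integral_comp_mul_left
    (fun ξ : ℝ => hat w ξ * gx (κ * h) (L * y / (2 * Real.pi * h)) ξ) (h / L)
  have hpi := Real.pi_pos
  have h4 : (∫ u, Wt w κ L h u * Complex.exp (Complex.I * ((u * y : ℝ) : ℂ))) =
      2 * ((h / L : ℝ) : ℂ) * ∫ u : ℝ, hat w (h / L * u) * gx (κ * h) (L * y / (2 * Real.pi * h)) (h / L * u) := by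
    rw [← integral_const_mul]
    refine integral_congr_ae (ae_of_all _ fun u => ?_)
    simp only [Wt, gx]
    have e1 : h / L * u / (κ * h) = u / (κ * L) := by field_simp
    have e2 : h / L * u * (L * y / (2 * Real.pi * h)) = u * y / (2 * Real.pi) := by field_simp
    rw [e1, e2]
    have e3 : 2 * (Real.pi : ℂ) * Complex.I * ((u * y / (2 * Real.pi) : ℝ) : ℂ) =
        Complex.I * ((u * y : ℝ) : ℂ) := by
      have : (Real.pi : ℂ) ≠ 0 := by exact_mod_cast hpi.ne'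
      push_cast
      field_simp
    rw [e3]
    push_cast
    ring
  rw [h3, ← h2, abs_of_pos (by positivity)] at h4
  rw [h4] at h1
  have h5 : 2 * ((h / L : ℝ) : ℂ) * ((h / L)⁻¹ • (bl (κ * h) w (L * y / (2 * Real.pi * h)) : ℂ)) =
      ((2 * bl (κ * h) w (L * y / (2 * Real.pi * h)) : ℝ) : ℂ) := by
    rw [Complex.real_smul]
    have hh' : (h : ℂ) ≠ 0 := by exact_mod_cast hh.ne'
    have hL' : (L : ℂ) ≠ 0 := by exact_mod_cast hL.ne'
    push_cast
    field_simp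
  rw [h5] at h1
  have h6 := Complex.ofReal_injective h1
  linarith

/-- the Gaussian -/
lemma gau_four (u : ℝ) : (Real.exp (-u ^ 2 / 2) : ℂ) = ((1 / Real.sqrt (2 * Real.pi) : ℝ) : ℂ) *
    ∫ y : ℝ, ((Real.exp (-y ^ 2 / 2) : ℝ) : ℂ) * Complex.exp (Complex.I * ((u * y : ℝ) : ℂ)) := by
  have h := fourierIntegral_gaussian (b := (1 / 2 : ℂ)) (by norm_num) (u : ℂ)
  have e1 : (∫ y : ℝ, ((Real.exp (-y ^ 2 / 2) : ℝ) : ℂ) * Complex.exp (Complex.I * ((u * y : ℝ) : ℂ))) =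
      ∫ x : ℝ, Complex.exp (Complex.I * u * x) * Complex.exp (-(1 / 2 : ℂ) * x ^ 2) := by
    refine integral_congr_ae (ae_of_all _ fun y => ?_)
    simp only
    rw [Complex.ofReal_exp, mul_comm]
    congr 2
    · push_cast; ring
    · push_cast; ring
  rw [e1, h]
  have hpi := Real.pi_pos
  have e2 : ((Real.pi : ℂ) / (1 / 2)) ^ (1 / 2 : ℂ) = ((Real.sqrt (2 * Real.pi) : ℝ) : ℂ) := by
    rw [Real.sqrt_eq_rpow, Complex.ofReal_cpow (by positivity)]
    push_cast
    congr 1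
    ring
  have e3 : Complex.exp (-(u : ℂ) ^ 2 / (4 * (1 / 2))) = ((Real.exp (-u ^ 2 / 2) : ℝ) : ℂ) := by
    rw [Complex.ofReal_exp]
    congr 1
    push_cast
    ring
  rw [e2, e3, ← mul_assoc, ← Complex.ofReal_mul, one_div, inv_mul_cancel₀ (by positivity)]
  simp

/-- **the main term** -/
theorem Wt_main {w : ℝ → ℝ} (hw : Cc w) {κ L h : ℝ} (hκ : 0 < κ) (hκ1 : κ ≤ 1) (hL : 0 < L) (hh : 0 < h) :
    (((L / Real.sqrt (2 * Real.pi) : ℝ) : ℂ) *
      ∫ u in (0 : ℝ)..L, Wt w κ L h u * (Real.exp (-u ^ 2 / 2) : ℂ)).re =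
      L / (2 * Real.pi) * ∫ y : ℝ, Real.exp (-y ^ 2 / 2) * bl (κ * h) w (L * y / (2 * Real.pi * h)) := by
  have hpi := Real.pi_pos
  have h1 := Wt_half hw (h := h) hκ hκ1 hL (F := fun u => (Real.exp (-u ^ 2 / 2) : ℂ))
    (by fun_prop) (fun u => by
      rw [Complex.conj_ofReal]
      congr 3
      ring)
  have h0 : ∀ y : ℝ, (∫ u, Wt w κ L h u * Complex.exp (Complex.I * ((u * y : ℝ) : ℂ))) =
      ((2 * bl (κ * h) w (L * y / (2 * Real.pi * h)) : ℝ) : ℂ) := by
    intro y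
    have a1 := Wt_half hw (h := h) hκ hκ1 hL (F := fun u => Complex.exp (Complex.I * ((u * y : ℝ) : ℂ)))
      (by fun_prop) (fun u => by
        rw [← Complex.exp_conj, map_mul, Complex.conj_I, Complex.conj_ofReal]
        congr 1
        push_cast
        ring)
    rw [Wt_bl hw hκ hκ1 hL hh] at a1
    exact a1.symm
  have hWi : Integrable fun u => Wt w κ L h u := by
    have := Wt_int hw (h := h) hκ hL (F := fun _ => 1) continuous_const
    simpa using this
  have hgi : Integrable fun y : ℝ => ((Real.exp (-y ^ 2 / 2) : ℝ) : ℂ) := by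
    have := (integrable_exp_neg_mul_sq (b := 1 / 2) (by norm_num)).ofReal (𝕜 := ℂ)
    refine this.congr (ae_of_all _ fun y => ?_)
    simp only
    congr 2
    ring
  have hprod : Integrable (fun p : ℝ × ℝ => Wt w κ L h p.1 *
      (((Real.exp (-p.2 ^ 2 / 2) : ℝ) : ℂ) * Complex.exp (Complex.I * ((p.1 * p.2 : ℝ) : ℂ))))
      (volume.prod volume) := by
    refine (hWi.mul_prod hgi).mono ?_ (ae_of_all _ fun p => ?_)
    · apply Continuous.aestronglyMeasurable
      have := (Wt_cont hw κ L h).comp (continuous_fst (X := ℝ) (Y := ℝ))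
      simp only [Function.comp_def] at this
      fun_prop
    · rw [← mul_assoc, norm_mul, Complex.norm_exp_I_mul_ofReal, mul_one]
  have e1 : (∫ u, Wt w κ L h u * (Real.exp (-u ^ 2 / 2) : ℂ)) =
      ((1 / Real.sqrt (2 * Real.pi) : ℝ) : ℂ) * ∫ u : ℝ, ∫ y : ℝ, Wt w κ L h u *
      (((Real.exp (-y ^ 2 / 2) : ℝ) : ℂ) * Complex.exp (Complex.I * ((u * y : ℝ) : ℂ))) := by
    rw [← integral_const_mul]
    refine integral_congr_ae (ae_of_all _ fun u => ?_)
    simp only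
    rw [gau_four, integral_const_mul]
    ring
  rw [integral_integral_swap hprod] at e1
  have e2 : ∀ y : ℝ, (∫ u : ℝ, Wt w κ L h u *
      (((Real.exp (-y ^ 2 / 2) : ℝ) : ℂ) * Complex.exp (Complex.I * ((u * y : ℝ) : ℂ)))) =
      ((Real.exp (-y ^ 2 / 2) * (2 * bl (κ * h) w (L * y / (2 * Real.pi * h))) : ℝ) : ℂ) := by
    intro y
    rw [Complex.ofReal_mul, ← h0 y, ← integral_const_mul]
    refine integral_congr_ae (ae_of_all _ fun u => ?_)
    simp only
    ring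
  simp only [e2] at e1
  have e3 : (∫ y : ℝ, ((Real.exp (-y ^ 2 / 2) * (2 * bl (κ * h) w (L * y / (2 * Real.pi * h))) : ℝ) : ℂ)) =
      ((∫ y : ℝ, Real.exp (-y ^ 2 / 2) * (2 * bl (κ * h) w (L * y / (2 * Real.pi * h))) : ℝ) : ℂ) :=
    integral_ofReal (𝕜 := ℂ) (μ := volume)
  rw [e3] at e1
  rw [e1, ← Complex.ofReal_mul] at h1
  have h2 := Complex.ofReal_injective h1
  have e4 : (∫ y : ℝ, Real.exp (-y ^ 2 / 2) * (2 * bl (κ * h) w (L * y / (2 * Real.pi * h)))) =
      2 * ∫ y : ℝ, Real.exp (-y ^ 2 / 2) * bl (κ * h) w (L * y / (2 * Real.pi * h)) := by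
    rw [← integral_const_mul]
    refine integral_congr_ae (ae_of_all _ fun y => ?_)
    simp only
    ring
  rw [e4] at h2
  rw [Complex.re_ofReal_mul]
  have hs : Real.sqrt (2 * Real.pi) * Real.sqrt (2 * Real.pi) = 2 * Real.pi :=
    Real.mul_self_sqrt (by positivity)
  have hs0 : 0 < Real.sqrt (2 * Real.pi) := by positivity
  have h3 : (∫ u in (0 : ℝ)..L, Wt w κ L h u * (Real.exp (-u ^ 2 / 2) : ℂ)).re =
      1 / Real.sqrt (2 * Real.pi) *
        ∫ y : ℝ, Real.exp (-y ^ 2 / 2) * bl (κ * h) w (L * y / (2 * Real.pi * h)) := by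
    linarith
  rw [h3, ← mul_assoc]
  congr 1
  rw [div_mul_div_comm, mul_one, hs]

end

end Pool.Agent.K6.H57.ML
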