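import Pool.Agent.K6.H57.ML.Nv
import Pool.Agent.R320.JL.Mom

/-! # The statistic at a zero and the statistic of the gap sequence -/

set_option autoImplicit false

open MeasureTheory Set Filter Topology
open scoped ContDiff

namespace Pool.Agent.K6.H57.ML

open SG (ord NZ)
open Pool.Agent.R320.CL (SS dl SS_ge)
open Pool.Agent.Y743.NC (ff)
open Pool.Agent.Y743.LR (yv)
open Pool.Agent.R320.JL (SS_gL)

noncomputable section

/-- the smooth statistic of the centred gaps -/
def Gs (w : ℝ → ℝ) (h : ℝ) (K n : ℕ) : ℝ := ∑ k ∈ Finset.range K, w (k / h) * (dl (n + k) - 1)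

lemma SS_succ (m n : ℕ) : SS (m + 1) n = SS m n + dl (n + m) := by
  unfold Pool.Agent.R320.CL.SS
  rw [Finset.sum_range_succ]

/-- Abel summation -/
lemma abel (w : ℝ → ℝ) (h : ℝ) (K n : ℕ) : Gs w h K n = w (K / h) * (SS K n - K) -
    ∑ m ∈ Finset.range K, (w ((m + 1) / h) - w (m / h)) * (SS (m + 1) n - (m + 1)) := by
  unfold Gs
  induction K with
  | zero =>
    have : SS 0 n = 0 := by unfold Pool.Agent.R320.CL.SS; simp
    simp [this]
  | succ K ih =>
    rw [Finset.sum_range_succ, Finset.sum_range_succ, ih, SS_succ]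
    push_cast
    ring

/-- Riemann sum -/
lemma riem {R : ℝ} {w : ℝ → ℝ} (hw : Ts R w) {M h : ℝ} (hM : ∀ x u, |w (x + u) - w x - deriv w x * u| ≤ M * u ^ 2)
    (hh : 0 < h) {K : ℕ} (hK : R * h ≤ K) :
    |(∑ m ∈ Finset.range K, w ((m + 1) / h)) - h * ∫ x, w x| ≤ (K + 1) * (M / (4 * h ^ 2)) := by
  have hR := hw.pos
  have h1 : ∫ x in (-(1 / 2) : ℝ)..(K + 1 / 2), w (x / h) = h * ∫ x, w x := by
    have a1 : ∫ x in (-(1 / 2) : ℝ)..(K + 1 / 2), w (x / h) = ∫ x, w (x / h) := by
      rw [intervalIntegral.integral_eq_integral_of_support_subset]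
      intro x hx
      rw [Function.mem_support] at hx
      have b1 : x / h ∈ Ioo 0 R := by
        by_contra hcon
        exact hx (hw.zero_of hcon)
      have b2 : 0 < x := by
        have := b1.1
        rwa [div_pos_iff_of_pos_right hh] at this
      have b3 : x < R * h := by
        have := b1.2
        rwa [div_lt_iff₀ hh] at this
      exact ⟨by linarith, by linarith⟩
    rw [a1, Measure.integral_comp_div, abs_of_pos hh, smul_eq_mul]
  have h2 : ∑ m ∈ Finset.range (K + 1), ∫ x in ((m : ℝ) - 1 / 2)..((m : ℝ) + 1 / 2), w (x / h) =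
      h * ∫ x, w x := by
    rw [← h1]
    have a1 := intervalIntegral.sum_integral_adjacent_intervals (a := fun m : ℕ => (m : ℝ) - 1 / 2)
      (f := fun x => w (x / h)) (μ := volume) (n := K + 1) (fun m _ =>
        (hw.cc.cont.comp (continuous_id.div_const h)).intervalIntegrable _ _)
    have a2 : ∀ m : ℕ, ((m + 1 : ℕ) : ℝ) - 1 / 2 = (m : ℝ) + 1 / 2 := by intro m; push_cast; ring
    simp only [a2] at a1
    rw [a1]
    norm_num
  have h3 : ∑ m ∈ Finset.range K, w ((m + 1) / h) = ∑ m ∈ Finset.range (K + 1), w (m / h) := by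
    rw [Finset.sum_range_succ']
    rw [Nat.cast_zero, zero_div, hw.zero_le le_rfl, add_zero]
    refine Finset.sum_congr rfl fun m _ => ?_
    push_cast
    rfl
  rw [h3, ← h2, ← Finset.sum_sub_distrib]
  refine (Finset.abs_sum_le_sum_abs _ _).trans ?_
  have hone : ∀ m : ℕ, |w (m / h) - ∫ x in ((m : ℝ) - 1 / 2)..((m : ℝ) + 1 / 2), w (x / h)| ≤ M / (4 * h ^ 2) := by
    intro m
    have a1 : w (m / h) - ∫ x in ((m : ℝ) - 1 / 2)..((m : ℝ) + 1 / 2), w (x / h) =
        -∫ x in ((m : ℝ) - 1 / 2)..((m : ℝ) + 1 / 2), (w (x / h) - w (m / h) - deriv w (m / h) * ((x - m) / h)) := by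
      rw [intervalIntegral.integral_sub, intervalIntegral.integral_sub]
      · have b1 : ∫ x in ((m : ℝ) - 1 / 2)..((m : ℝ) + 1 / 2), w (m / h) = w (m / h) := by
          rw [intervalIntegral.integral_const, smul_eq_mul]
          ring
        have b2 : ∫ x in ((m : ℝ) - 1 / 2)..((m : ℝ) + 1 / 2), deriv w (m / h) * ((x - m) / h) = 0 := by
          rw [intervalIntegral.integral_const_mul, intervalIntegral.integral_div,
            intervalIntegral.integral_comp_sub_right (fun x => x), integral_id]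
          ring_nf
        rw [b1, b2]
        ring
      · exact (hw.cc.cont.comp (continuous_id.div_const h)).intervalIntegrable _ _
      · exact intervalIntegrable_const
      · exact ((hw.cc.cont.comp (continuous_id.div_const h)).sub continuous_const).intervalIntegrable _ _
      · exact (Continuous.intervalIntegrable (by fun_prop) _ _)
    rw [a1, abs_neg]
    have a2 : ∀ x ∈ Set.uIoc ((m : ℝ) - 1 / 2) ((m : ℝ) + 1 / 2),
        ‖w (x / h) - w (m / h) - deriv w (m / h) * ((x - m) / h)‖ ≤ M / (4 * h ^ 2) := by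
      intro x hx
      rw [uIoc_of_le (by linarith)] at hx
      have b1 := hM (m / h) ((x - m) / h)
      have b2 : (m : ℝ) / h + (x - m) / h = x / h := by ring
      rw [b2] at b1
      rw [Real.norm_eq_abs]
      refine b1.trans ?_
      have b3 : (x - m) ^ 2 ≤ 1 / 4 := by nlinarith [hx.1, hx.2]
      have hM0 : 0 ≤ M := by
        have := hM 0 1
        have b4 := abs_nonneg (w (0 + 1) - w 0 - deriv w 0 * 1)
        linarith
      rw [div_pow]
      calc M * ((x - m) ^ 2 / h ^ 2) ≤ M * (1 / 4 / h ^ 2) := by gcongr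
        _ = _ := by field_simp
    have a3 := intervalIntegral.norm_integral_le_of_norm_le_const a2
    rw [Real.norm_eq_abs] at a3
    refine a3.trans (le_of_eq ?_)
    have : |(m : ℝ) + 1 / 2 - ((m : ℝ) - 1 / 2)| = 1 := by
      rw [show (m : ℝ) + 1 / 2 - ((m : ℝ) - 1 / 2) = 1 by ring, abs_one]
    rw [this, mul_one]
  refine (Finset.sum_le_sum fun m _ => hone m).trans (le_of_eq ?_)
  rw [Finset.sum_const, Finset.card_range, nsmul_eq_mul]
  push_cast
  ring

/-- the sum over the zeros after the `n`-th -/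
lemma Z_ord {R : ℝ} {w : ℝ → ℝ} (hw : Ts R w) {T h : ℝ} (hT : 1 < T) (hh : 0 < h) {n K : ℕ} (hn : 1 ≤ n)
    (h2 : ord n ≤ 2 * T) (hR : 2 * Real.pi * (h * R) / Real.log T ≤ T) (hK : R * h ≤ K + ff T K n) :
    Z T h w (ord n) = (∑ m ∈ Finset.range K, w (((m + 1 : ℝ) + ff T (m + 1) n) / h)) - h * ∫ x, w x := by
  have hpi := Real.pi_pos
  have hL : 0 < Real.log T := Real.log_pos hT
  unfold Z
  congr 1
  obtain ⟨f, hf⟩ : ∃ f : ℕ → ℝ, f = fun j => w (Real.log T * (ord j - ord n) / (2 * Real.pi * h)) := ⟨_, rfl⟩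
  have hff : ∀ m : ℕ, ((m : ℝ) + ff T m n) / h = Real.log T * (ord (n + m) - ord n) / (2 * Real.pi * h) := by
    intro m
    unfold Pool.Agent.Y743.NC.ff Pool.Agent.Y743.LR.yv
    field_simp
    ring
  -- zero outside
  have hz1 : ∀ j : ℕ, 1 ≤ j → j ≤ n → f j = 0 := by
    intro j hj hjn
    rw [hf]
    apply hw.zero_le
    have := SG.ord_mono hj hjn
    apply div_nonpos_of_nonpos_of_nonneg _ (by positivity)
    apply mul_nonpos_of_nonneg_of_nonpos hL.le
    linarith
  have hz2 : ∀ j : ℕ, n + K < j → f j = 0 := by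
    intro j hj
    rw [hf]
    apply hw.zero_ge
    have h3 : ord (n + K) ≤ ord j := SG.ord_mono (by omega) hj.le
    have h4 : R ≤ ((K : ℝ) + ff T K n) / h := by rw [le_div_iff₀ hh]; exact hK
    rw [hff] at h4
    refine h4.trans ?_
    gcongr
  have hz3 : ∀ j : ℕ, NZ (3 * T) < j → f j = 0 := by
    intro j hj
    rw [hf]
    apply hw.zero_ge
    have h3 : 3 * T ≤ ord j := by
      by_contra hcon
      push Not at hcon
      have := (SG.ord_le_iff (show 1 ≤ j by omega) (3 * T)).1 hcon.le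
      omega
    rw [div_le_iff₀ hL] at hR
    rw [le_div_iff₀ (by positivity)]
    have h4 : Real.log T * T ≤ Real.log T * (ord j - ord n) := by
      apply mul_le_mul_of_nonneg_left _ hL.le
      linarith
    linarith
  obtain ⟨M, hM⟩ : ∃ M : ℕ, M = max (NZ (3 * T)) (n + K) := ⟨_, rfl⟩
  have e1 : ∑ j ∈ Finset.Icc 1 (NZ (3 * T)), f j = ∑ j ∈ Finset.Icc 1 M, f j := by
    apply Finset.sum_subset
    · intro j hj
      rw [Finset.mem_Icc] at hj ⊢
      refine ⟨hj.1, hj.2.trans ?_⟩
      rw [hM]; exact le_max_left _ _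
    · intro j hj hj2
      rw [Finset.mem_Icc] at hj hj2
      apply hz3
      by_contra hcon
      exact hj2 ⟨hj.1, by omega⟩
  have e2 : ∑ j ∈ Finset.Ioc n (n + K), f j = ∑ j ∈ Finset.Icc 1 M, f j := by
    apply Finset.sum_subset
    · intro j hj
      rw [Finset.mem_Ioc] at hj
      rw [Finset.mem_Icc]
      refine ⟨by omega, hj.2.trans ?_⟩
      rw [hM]; exact le_max_right _ _
    · intro j hj hj2
      rw [Finset.mem_Icc] at hj
      rw [Finset.mem_Ioc] at hj2
      by_cases h5 : j ≤ n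
      · exact hz1 j hj.1 h5
      · exact hz2 j (by by_contra h6; exact hj2 ⟨by omega, by omega⟩)
  have e3 : ∑ j ∈ Finset.Ioc n (n + K), f j = ∑ m ∈ Finset.range K, f (n + (m + 1)) := by
    symm
    refine Finset.sum_nbij' (fun m => n + (m + 1)) (fun j => j - (n + 1)) ?_ ?_ ?_ ?_ ?_
    · intro m hm
      rw [Finset.mem_range] at hm
      rw [Finset.mem_Ioc]
      omega
    · intro j hj
      rw [Finset.mem_Ioc] at hj
      rw [Finset.mem_range]
      omega
    · intro m _
      show n + (m + 1) - (n + 1) = m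
      omega
    · intro j hj
      rw [Finset.mem_Ioc] at hj
      show n + (j - (n + 1) + 1) = j
      omega
    · intro m _
      rfl
  have e4 : ∑ j ∈ Finset.Icc 1 (NZ (3 * T)), w (Real.log T * (ord j - ord n) / (2 * Real.pi * h)) =
      ∑ j ∈ Finset.Icc 1 (NZ (3 * T)), f j := by rw [hf]
  rw [e4, e1, ← e2, e3]
  refine Finset.sum_congr rfl fun m _ => ?_
  rw [hf]
  have := hff (m + 1)
  push_cast at this
  rw [this]

end

end Pool.Agent.K6.H57.ML
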