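import Pool.Agent.K6.H57.ML.Gn

/-! # Pointwise comparison -/

set_option autoImplicit false

open MeasureTheory Set Filter Topology
open scoped ContDiff

namespace Pool.Agent.K6.H57.ML

open SG (ord NZ)
open Pool.Agent.R320.CL (SS dl SS_ge)
open Pool.Agent.Y743.NC (ff)
open Pool.Agent.Y743.LR (yv)
open Pool.Agent.R320.JL (SS_gL)

noncomputable section

/-- the gap sums and the scaled differences of ordinates -/
lemma gsmall {R T h : ℝ} (hR : 0 < R) (hh : 0 < h) (hT : 100 ≤ T) (hL : 128 * (R * h) ≤ Real.log T)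
    {n K : ℕ} (hn : 1 ≤ n) (h1 : T ≤ ord n) (h2 : ord n ≤ 2 * T) (hK : (K : ℝ) ≤ 3 * (R * h))
    (hS : |SS K n - K| ≤ R * h / 2) (m : ℕ) (hm : m ≤ K) :
    |SS m n - m - ff T m n| ≤ 24 * (R * h) / Real.log T := by
  have hpi := Real.pi_pos
  have hpi3 := Real.pi_gt_three
  have hpi4 := Real.pi_lt_d2
  obtain ⟨L, hLd⟩ : ∃ L : ℝ, L = Real.log T := ⟨_, rfl⟩
  have hL4 : 4 ≤ L := by
    rw [hLd, Real.le_log_iff_exp_le (by linarith)]
    have e1 : Real.exp 4 = Real.exp 1 ^ 4 := by rw [← Real.exp_nat_mul]; norm_num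
    rw [e1]
    have := Real.exp_one_lt_d9
    have h3 : Real.exp 1 ^ 4 ≤ (2.7182818286 : ℝ) ^ 4 := pow_le_pow_left₀ (Real.exp_pos 1).le this.le 4
    have h4 : (2.7182818286 : ℝ) ^ 4 ≤ 100 := by norm_num
    linarith
  rw [← hLd] at hL ⊢
  have hRh : 0 < R * h := by positivity
  have hlogn : L / 2 ≤ Real.log (ord n / (2 * Real.pi)) := by
    rw [Real.log_div (by linarith) (by positivity)]
    have a1 : Real.log T ≤ Real.log (ord n) := Real.log_le_log (by linarith) h1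
    have a2 : Real.log (2 * Real.pi) ≤ 2 := by
      rw [Real.log_le_iff_le_exp (by positivity)]
      have e1 : Real.exp 2 = Real.exp 1 * Real.exp 1 := by rw [← Real.exp_add]; norm_num
      rw [e1]
      have := Real.exp_one_gt_d9
      nlinarith
    linarith
  have hmon : ord n ≤ ord (n + m) := SG.ord_mono hn (by omega)
  have hmon2 : ord (n + m) ≤ ord (n + K) := SG.ord_mono (by omega) (by omega)
  obtain ⟨g, hg⟩ : ∃ g : ℝ, g = (ord (n + K) - ord n) / (2 * Real.pi) := ⟨_, rfl⟩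
  have hg0 : 0 ≤ g := by rw [hg]; exact div_nonneg (by linarith) (by positivity)
  have hgm : (ord (n + m) - ord n) / (2 * Real.pi) ≤ g := by
    rw [hg]
    exact div_le_div_of_nonneg_right (by linarith) (by positivity)
  have hgK : g * (L / 2) ≤ 4 * (R * h) := by
    have a1 := SS_ge (r := K) hn
    rw [← hg] at a1
    have a2 : g * (L / 2) ≤ g * Real.log (ord n / (2 * Real.pi)) := mul_le_mul_of_nonneg_left hlogn hg0
    have a3 := (abs_le.1 hS).2
    linarith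
  have hg8 : g ≤ 8 * (R * h) / L := by
    rw [le_div_iff₀ (by linarith)]
    linarith
  have hg16 : g ≤ 1 / 16 := by
    refine hg8.trans ?_
    rw [div_le_iff₀ (by linarith)]
    linarith
  have h5 := SS_gL hT hn h1 h2 (r := m) (hgm.trans hg16)
  refine h5.trans ?_
  have h6 : 24 * (R * h) / L = 3 * (8 * (R * h) / L) := by ring
  rw [h6]
  linarith

/-- pointwise comparison -/
lemma ptw {R : ℝ} {w : ℝ → ℝ} (hw : Ts R w) : ∃ C : ℝ, 0 < C ∧ ∀ h T : ℝ, 1 ≤ h → 1 ≤ R * h → 100 ≤ T →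
    128 * (R * h) ≤ Real.log T → 48 ≤ Real.log T → ∀ n K : ℕ, 1 ≤ n → T ≤ ord n → ord n ≤ 2 * T →
    2 * (R * h) ≤ K → (K : ℝ) ≤ 3 * (R * h) → |SS K n - K| ≤ R * h / 2 →
    |Z T h w (ord n) + Gs w h K n| ≤
      C * (h / Real.log T + 1 / h + (∑ m ∈ Finset.range K, (SS (m + 1) n - (m + 1)) ^ 2) / h ^ 2) := by
  obtain ⟨M2, hM2, htay⟩ := hw.cc.taylor
  obtain ⟨M1, hM1, hb1⟩ := hw.deriv.cc.bd
  have hR := hw.pos
  refine ⟨3 * M2 + 3 * R * (1152 * M2 * R ^ 2 + 24 * M1 * R) + 4 * R * M2, by positivity, ?_⟩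
  intro h T hh1 hRh hT hL hL48 n K hn h1 h2 hK1 hK2 hS
  have hpi := Real.pi_pos
  have hpi3 := Real.pi_gt_three
  have hpi4 := Real.pi_lt_d2
  have hhp : 0 < h := by linarith
  have hgs := gsmall hR hhp hT hL hn h1 h2 hK2 hS
  obtain ⟨L, hLd⟩ : ∃ L : ℝ, L = Real.log T := ⟨_, rfl⟩
  rw [← hLd] at hL hL48 hgs ⊢
  have hL0 : 0 < L := by linarith
  obtain ⟨e, he⟩ : ∃ e : ℝ, e = 24 * (R * h) / L := ⟨_, rfl⟩
  rw [← he] at hgs
  have he0 : 0 ≤ e := by rw [he]; positivity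
  have heh : e ≤ R * h / 2 := by
    rw [he, div_le_iff₀ hL0]
    have : 0 ≤ R * h * (L - 48) := mul_nonneg (by positivity) (by linarith)
    linarith
  have hRc : 2 * Real.pi * (h * R) / Real.log T ≤ T := by
    rw [← hLd, div_le_iff₀ hL0]
    have a1 : 2 * Real.pi * (h * R) ≤ 7 * (R * h) := by
      have : 0 ≤ R * h * (7 - 2 * Real.pi) := mul_nonneg (by positivity) (by linarith)
      linarith
    have a2 : L ≤ T * L := by
      have : 0 ≤ (T - 1) * L := mul_nonneg (by linarith) hL0.le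
      linarith
    linarith
  have hKff : R * h ≤ K + ff T K n := by
    have a1 := (abs_le.1 (hgs K le_rfl)).2
    have a2 := (abs_le.1 hS).1
    linarith
  rw [Z_ord hw (by linarith) hhp hn h2 hRc hKff, abel]
  have hwK : w (K / h) = 0 := by
    apply hw.zero_ge
    rw [le_div_iff₀ hhp]
    linarith
  rw [hwK, zero_mul, zero_sub]
  have hrie := riem hw htay hhp (K := K) (by linarith : R * h ≤ K)
  obtain ⟨I, hI⟩ : ∃ I : ℝ, I = h * ∫ x, w x := ⟨_, rfl⟩
  rw [← hI] at hrie ⊢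
  -- the terms
  obtain ⟨S, hSd⟩ : ∃ S : ℕ → ℝ, S = fun m => SS (m + 1) n - (m + 1) := ⟨_, rfl⟩
  obtain ⟨F, hFd⟩ : ∃ F : ℕ → ℝ, F = fun m => ff T (m + 1) n := ⟨_, rfl⟩
  have hSF : ∀ m ∈ Finset.range K, |S m - F m| ≤ e := by
    intro m hm
    rw [Finset.mem_range] at hm
    have := hgs (m + 1) (by omega)
    rw [hSd, hFd]
    push_cast at this
    exact this
  have e1 : (∑ m ∈ Finset.range K, w (((m + 1 : ℝ) + ff T (m + 1) n) / h)) - I +
      -∑ m ∈ Finset.range K, (w ((m + 1) / h) - w (m / h)) * (SS (m + 1) n - (m + 1)) =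
      (∑ m ∈ Finset.range K, (w (((m + 1 : ℝ) + F m) / h) - w ((m + 1) / h) -
        (w ((m + 1) / h) - w (m / h)) * S m)) + ((∑ m ∈ Finset.range K, w ((m + 1) / h)) - I) := by
    rw [hSd, hFd, Finset.sum_sub_distrib, Finset.sum_sub_distrib]
    ring
  rw [e1]
  have hterm : ∀ m ∈ Finset.range K, |w (((m + 1 : ℝ) + F m) / h) - w ((m + 1) / h) -
      (w ((m + 1) / h) - w (m / h)) * S m| ≤
      3 * M2 / h ^ 2 * S m ^ 2 + (2 * M2 * e ^ 2 / h ^ 2 + M1 * e / h + M2 / h ^ 2) := by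
    intro m hm
    have a0 := hSF m hm
    have a1 := htay ((m + 1) / h) (F m / h)
    have a2 := htay ((m + 1) / h) (-(1 / h))
    have a3 : ((m : ℝ) + 1) / h + F m / h = ((m + 1 : ℝ) + F m) / h := by ring
    have a4 : ((m : ℝ) + 1) / h + -(1 / h) = m / h := by ring
    rw [a3] at a1
    rw [a4] at a2
    obtain ⟨p, hp⟩ : ∃ p : ℝ, p = w (((m + 1 : ℝ) + F m) / h) - w ((m + 1) / h) - deriv w ((m + 1) / h) * (F m / h) := ⟨_, rfl⟩
    obtain ⟨q, hq⟩ : ∃ q : ℝ, q = w (m / h) - w ((m + 1) / h) - deriv w ((m + 1) / h) * (-(1 / h)) := ⟨_, rfl⟩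
    rw [← hp] at a1
    rw [← hq] at a2
    have e2 : w (((m + 1 : ℝ) + F m) / h) - w ((m + 1) / h) - (w ((m + 1) / h) - w (m / h)) * S m =
        p + q * S m + deriv w ((m + 1) / h) * ((F m - S m) / h) := by
      rw [hp, hq]
      ring
    rw [e2]
    have b1 : |p + q * S m + deriv w ((m + 1) / h) * ((F m - S m) / h)| ≤
        |p| + |q| * |S m| + |deriv w ((m + 1) / h)| * (|F m - S m| / h) := by
      refine (abs_add_le _ _).trans (add_le_add ((abs_add_le _ _).trans (add_le_add le_rfl ?_)) ?_)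
      · rw [abs_mul]
      · rw [abs_mul, abs_div, abs_of_pos hhp]
    refine b1.trans ?_
    have b2 : |p| ≤ M2 * (2 * S m ^ 2 + 2 * e ^ 2) / h ^ 2 := by
      refine a1.trans ?_
      rw [div_pow, mul_div_assoc]
      apply mul_le_mul_of_nonneg_left _ hM2.le
      apply div_le_div_of_nonneg_right _ (by positivity)
      have c1 : (S m - F m) ^ 2 ≤ e ^ 2 := by
        rw [← sq_abs]
        exact pow_le_pow_left₀ (abs_nonneg _) a0 2
      nlinarith [sq_nonneg (2 * S m - F m)]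
    have b3 : |q| * |S m| ≤ M2 / h ^ 2 * (1 + S m ^ 2) := by
      have c1 : |S m| ≤ 1 + S m ^ 2 := by
        rw [← sq_abs]
        nlinarith [sq_nonneg (|S m| - 1), abs_nonneg (S m)]
      have c2 : |q| ≤ M2 / h ^ 2 := by
        refine a2.trans (le_of_eq ?_)
        ring
      exact mul_le_mul c2 c1 (abs_nonneg _) (by positivity)
    have b4 : |deriv w ((m + 1) / h)| * (|F m - S m| / h) ≤ M1 * (e / h) := by
      have c1 : |F m - S m| ≤ e := by rw [abs_sub_comm]; exact a0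
      apply mul_le_mul (hb1 _) (div_le_div_of_nonneg_right c1 hhp.le) (by positivity) hM1.le
    have e3 : 3 * M2 / h ^ 2 * S m ^ 2 + (2 * M2 * e ^ 2 / h ^ 2 + M1 * e / h + M2 / h ^ 2) =
        M2 * (2 * S m ^ 2 + 2 * e ^ 2) / h ^ 2 + M2 / h ^ 2 * (1 + S m ^ 2) + M1 * (e / h) := by
      ring
    rw [e3]
    linarith
  have hsum : |∑ m ∈ Finset.range K, (w (((m + 1 : ℝ) + F m) / h) - w ((m + 1) / h) -
      (w ((m + 1) / h) - w (m / h)) * S m)| ≤ 3 * M2 * ((∑ m ∈ Finset.range K, S m ^ 2) / h ^ 2) +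
      K * (2 * M2 * e ^ 2 / h ^ 2 + M1 * e / h + M2 / h ^ 2) := by
    refine (Finset.abs_sum_le_sum_abs _ _).trans ((Finset.sum_le_sum hterm).trans (le_of_eq ?_))
    rw [Finset.sum_add_distrib, Finset.sum_const, Finset.card_range, nsmul_eq_mul, ← Finset.mul_sum]
    ring
  refine (abs_add_le _ _).trans ((add_le_add hsum hrie).trans ?_)
  have hS2 : (∑ m ∈ Finset.range K, (SS (m + 1) n - (m + 1)) ^ 2) = ∑ m ∈ Finset.range K, S m ^ 2 := by rw [hSd]
  rw [hS2]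
  obtain ⟨Q, hQ⟩ : ∃ Q : ℝ, Q = (∑ m ∈ Finset.range K, S m ^ 2) / h ^ 2 := ⟨_, rfl⟩
  have hQ0 : 0 ≤ Q := by rw [hQ]; positivity
  rw [← hQ]
  have f1 : (K : ℝ) * (2 * M2 * e ^ 2 / h ^ 2 + M1 * e / h + M2 / h ^ 2) ≤
      3 * R * (1152 * M2 * R ^ 2 + 24 * M1 * R) * (h / L) + 3 * R * M2 * (1 / h) := by
    have g1 : 2 * M2 * e ^ 2 / h ^ 2 + M1 * e / h + M2 / h ^ 2 =
        1152 * M2 * R ^ 2 / L ^ 2 + 24 * M1 * R / L + M2 / h ^ 2 := by
      rw [he]; field_simp; ring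
    rw [g1]
    have g2 : 1152 * M2 * R ^ 2 / L ^ 2 ≤ 1152 * M2 * R ^ 2 / L := by
      apply div_le_div_of_nonneg_left (by positivity) hL0
      nlinarith
    calc (K : ℝ) * (1152 * M2 * R ^ 2 / L ^ 2 + 24 * M1 * R / L + M2 / h ^ 2) ≤
        (3 * (R * h)) * (1152 * M2 * R ^ 2 / L + 24 * M1 * R / L + M2 / h ^ 2) := by
          apply mul_le_mul hK2 _ (by positivity) (by positivity)
          linarith
      _ = _ := by field_simp
  have f2 : ((K : ℝ) + 1) * (M2 / (4 * h ^ 2)) ≤ R * M2 * (1 / h) := by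
    calc ((K : ℝ) + 1) * (M2 / (4 * h ^ 2)) ≤ (4 * (R * h)) * (M2 / (4 * h ^ 2)) := by
          apply mul_le_mul_of_nonneg_right _ (by positivity)
          linarith
      _ = _ := by field_simp
  have hhL : 0 ≤ h / L := by positivity
  have hh0 : 0 ≤ 1 / h := by positivity
  have f3 : (3 * M2 + 3 * R * (1152 * M2 * R ^ 2 + 24 * M1 * R) + 4 * R * M2) * (h / L + 1 / h + Q) =
      3 * M2 * Q + (3 * R * (1152 * M2 * R ^ 2 + 24 * M1 * R) * (h / L) + 3 * R * M2 * (1 / h)) +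
      R * M2 * (1 / h) + (3 * M2 * (h / L + 1 / h) +
      3 * R * (1152 * M2 * R ^ 2 + 24 * M1 * R) * (1 / h + Q) + 4 * R * M2 * (h / L + Q)) := by ring
  have f4 : 0 ≤ 3 * M2 * (h / L + 1 / h) +
      3 * R * (1152 * M2 * R ^ 2 + 24 * M1 * R) * (1 / h + Q) + 4 * R * M2 * (h / L + Q) := by positivity
  rw [f3]
  linarith

end

end Pool.Agent.K6.H57.ML
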