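import Mathlib

/-! # Band limited approximation of test functions -/

set_option autoImplicit false

open MeasureTheory Set Filter Topology
open scoped FourierTransform ContDiff

namespace Pool.Agent.K6.H57.ML

noncomputable section

/-- a smooth bump -/
def bump : ContDiffBump (0 : ℝ) := ⟨1 / 2, 1, by norm_num, by norm_num⟩

/-- the cutoff -/
def chi (x : ℝ) : ℝ := bump x

lemma chi_sm : ContDiff ℝ ∞ chi := bump.contDiff

lemma chi_neg (x : ℝ) : chi (-x) = chi x := bump.neg x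

lemma chi_one {x : ℝ} (h : |x| ≤ 1 / 2) : chi x = 1 := by
  apply bump.one_of_mem_closedBall
  rw [mem_closedBall_zero_iff, Real.norm_eq_abs]
  exact h

lemma chi_zero {x : ℝ} (h : 1 ≤ |x|) : chi x = 0 := by
  apply bump.zero_of_le_dist
  rw [dist_zero_right, Real.norm_eq_abs]
  exact h

lemma chi_nonneg (x : ℝ) : 0 ≤ chi x := bump.nonneg

lemma chi_le (x : ℝ) : chi x ≤ 1 := bump.le_one

lemma chi_hcs : HasCompactSupport chi := bump.hasCompactSupport

lemma chi_cont : Continuous chi := chi_sm.continuous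

/-- smooth compactly supported functions, as Schwartz functions -/
def tS {w : ℝ → ℝ} (hw : ContDiff ℝ ∞ w) (hc : HasCompactSupport w) : SchwartzMap ℝ ℂ :=
  HasCompactSupport.toSchwartzMap (f := fun x => (w x : ℂ))
    (hc.comp_left (g := fun x : ℝ => (x : ℂ)) Complex.ofReal_zero)
    (Complex.ofRealCLM.contDiff.comp hw)

lemma tS_apply {w : ℝ → ℝ} (hw : ContDiff ℝ ∞ w) (hc : HasCompactSupport w) (x : ℝ) :
    tS hw hc x = (w x : ℂ) := rfl

/-- the Fourier transform -/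
def hat (w : ℝ → ℝ) (ξ : ℝ) : ℂ := 𝓕 (fun x : ℝ => (w x : ℂ)) ξ

lemma hat_tS {w : ℝ → ℝ} (hw : ContDiff ℝ ∞ w) (hc : HasCompactSupport w) (ξ : ℝ) :
    (𝓕 (tS hw hc)) ξ = hat w ξ := rfl

lemma hat_cont {w : ℝ → ℝ} (hw : ContDiff ℝ ∞ w) (hc : HasCompactSupport w) : Continuous (hat w) := by
  have := (𝓕 (tS hw hc)).continuous
  exact this

lemma hat_sm {w : ℝ → ℝ} (hw : ContDiff ℝ ∞ w) (hc : HasCompactSupport w) : ContDiff ℝ ∞ (hat w) := by
  have := (𝓕 (tS hw hc)).smooth ⊤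
  exact this

lemma hat_decay {w : ℝ → ℝ} (hw : ContDiff ℝ ∞ w) (hc : HasCompactSupport w) (k : ℕ) :
    ∃ C : ℝ, 0 < C ∧ ∀ ξ, |ξ| ^ k * ‖hat w ξ‖ ≤ C := by
  obtain ⟨C, hC, h⟩ := (𝓕 (tS hw hc)).decay k 0
  refine ⟨C, hC, fun ξ => ?_⟩
  have := h ξ
  rw [norm_iteratedFDeriv_zero, Real.norm_eq_abs] at this
  exact this

/-- decay -/
lemma hat_dec {w : ℝ → ℝ} (hw : ContDiff ℝ ∞ w) (hc : HasCompactSupport w) :
    ∃ C : ℝ, 0 < C ∧ ∀ ξ, ‖hat w ξ‖ ≤ C / (1 + ξ ^ 2) ^ 2 := by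
  obtain ⟨C0, hC0, h0⟩ := hat_decay hw hc 0
  obtain ⟨C4, hC4, h4⟩ := hat_decay hw hc 4
  refine ⟨2 * (C0 + C4), by positivity, fun ξ => ?_⟩
  rw [le_div_iff₀ (by positivity)]
  have e1 := h0 ξ
  have e2 := h4 ξ
  rw [pow_zero, one_mul] at e1
  have e3 : |ξ| ^ 4 = ξ ^ 4 := by
    rw [show |ξ| ^ 4 = (|ξ| ^ 2) ^ 2 by ring, sq_abs]
    ring
  rw [e3] at e2
  have e4 : (1 + ξ ^ 2) ^ 2 ≤ 2 * (1 + ξ ^ 4) := by nlinarith [sq_nonneg (1 - ξ ^ 2)]
  calc ‖hat w ξ‖ * (1 + ξ ^ 2) ^ 2 ≤ ‖hat w ξ‖ * (2 * (1 + ξ ^ 4)) :=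
        mul_le_mul_of_nonneg_left e4 (norm_nonneg _)
    _ = 2 * (‖hat w ξ‖ + ξ ^ 4 * ‖hat w ξ‖) := by ring
    _ ≤ _ := by linarith

lemma hat_neg (w : ℝ → ℝ) (ξ : ℝ) : hat w (-ξ) = (starRingEnd ℂ) (hat w ξ) := by
  unfold hat
  rw [Real.fourier_eq', Real.fourier_eq', ← integral_conj]
  refine integral_congr_ae (ae_of_all _ fun x => ?_)
  simp only [smul_eq_mul, map_mul, Complex.conj_ofReal, ← Complex.exp_conj]
  congr 2
  simp only [Complex.conj_I, inner_neg_right]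
  push_cast
  ring

/-- Lipschitz bound -/
lemma hat_lip {w : ℝ → ℝ} (hw : ContDiff ℝ ∞ w) (hc : HasCompactSupport w) :
    ∃ C : ℝ, 0 < C ∧ ∀ x y, ‖hat w x - hat w y‖ ≤ C * |x - y| := by
  obtain ⟨C, hC, h⟩ := (𝓕 (tS hw hc)).decay 0 1
  refine ⟨C, hC, fun x y => ?_⟩
  have hd : ∀ x : ℝ, ‖deriv (hat w) x‖ ≤ C := by
    intro x
    have h1 := h x
    rw [pow_zero, one_mul] at h1
    have h2 : ‖iteratedFDeriv ℝ 1 (hat w) x‖ = ‖deriv (hat w) x‖ := by
      rw [norm_iteratedFDeriv_eq_norm_iteratedDeriv, iteratedDeriv_one]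
    rw [← h2]
    exact h1
  have hdiff : Differentiable ℝ (hat w) := (hat_sm hw hc).differentiable (by simp)
  have := Convex.norm_image_sub_le_of_norm_deriv_le (s := (Set.univ : Set ℝ)) (f := hat w) (C := C)
    (fun x _ => hdiff x) (fun x _ => hd x) convex_univ (Set.mem_univ y) (Set.mem_univ x)
  rwa [Real.norm_eq_abs] at this

/-! ### the kernel -/

/-- the kernel -/
def KK (s : ℝ) : ℝ := (hat chi s).re

lemma hat_chi_real (s : ℝ) : (KK s : ℂ) = hat chi s := by
  have h1 : (starRingEnd ℂ) (hat chi s) = hat chi s := by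
    rw [← hat_neg]
    unfold hat
    rw [Real.fourier_eq', Real.fourier_eq']
    have := integral_neg_eq_self (μ := (volume : Measure ℝ))
      (fun v : ℝ => Complex.exp (((-2 * Real.pi * inner ℝ v s : ℝ) : ℂ) * Complex.I) • ((chi v : ℝ) : ℂ))
    rw [← this]
    refine integral_congr_ae (ae_of_all _ fun x => ?_)
    simp only [chi_neg, inner_neg_left, inner_neg_right]
  exact Complex.conj_eq_iff_re.1 h1

lemma KK_neg (s : ℝ) : KK (-s) = KK s := by
  unfold KK
  rw [hat_neg, Complex.conj_re]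

lemma KK_cont : Continuous KK := Complex.continuous_re.comp (hat_cont chi_sm chi_hcs)

lemma KK_dec (k : ℕ) : ∃ C : ℝ, 0 < C ∧ ∀ s, |s| ^ k * |KK s| ≤ C := by
  obtain ⟨C, hC, h⟩ := hat_decay chi_sm chi_hcs k
  refine ⟨C, hC, fun s => le_trans ?_ (h s)⟩
  apply mul_le_mul_of_nonneg_left _ (by positivity)
  rw [← hat_chi_real, Complex.norm_real, Real.norm_eq_abs]

/-- integrability of the moments -/
lemma KK_mom (k : ℕ) : Integrable fun s : ℝ => s ^ k * KK s := by
  obtain ⟨C0, hC0, h0⟩ := KK_dec k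
  obtain ⟨C2, hC2, h2⟩ := KK_dec (k + 2)
  have h3 : Integrable fun s : ℝ => (C0 + C2) * (1 + s ^ 2)⁻¹ := integrable_inv_one_add_sq.const_mul _
  refine h3.mono' (((continuous_pow k).mul KK_cont).aestronglyMeasurable) (ae_of_all _ fun s => ?_)
  rw [Real.norm_eq_abs, abs_mul, abs_pow]
  have e : |s| ^ (k + 2) * |KK s| = s ^ 2 * (|s| ^ k * |KK s|) := by
    rw [pow_add, ← sq_abs s]
    ring
  have e2 := h2 s
  rw [e] at e2
  have e0 := h0 s
  rw [← div_eq_mul_inv, le_div_iff₀ (by positivity)]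
  nlinarith

lemma KK_int : ∫ s, KK s = 1 := by
  have h1 : 𝓕⁻ (𝓕 (fun x : ℝ => (chi x : ℂ))) = fun x : ℝ => (chi x : ℂ) := by
    apply Continuous.fourierInv_fourier_eq
    · exact Complex.continuous_ofReal.comp chi_cont
    · exact (tS chi_sm chi_hcs).integrable
    · exact (𝓕 (tS chi_sm chi_hcs)).integrable
  have h2 := congrFun h1 0
  rw [Real.fourierInv_eq'] at h2
  have e0 : chi 0 = 1 := chi_one (by norm_num)
  simp only [inner_zero_right, mul_zero, Complex.ofReal_zero, zero_mul, Complex.exp_zero, one_smul, e0,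
    Complex.ofReal_one] at h2
  have h3 : ∫ s, ((KK s : ℝ) : ℂ) = 1 := by
    rw [← h2]
    refine integral_congr_ae (ae_of_all _ fun s => ?_)
    exact hat_chi_real s
  have h4 : (((∫ s, KK s : ℝ)) : ℂ) = 1 :=
    (integral_ofReal (𝕜 := ℂ) (f := KK) (μ := volume)).symm.trans h3
  exact_mod_cast h4

lemma KK_odd : ∫ s : ℝ, s * KK s = 0 := by
  have h := integral_neg_eq_self (μ := (volume : Measure ℝ)) (fun s : ℝ => s * KK s)
  simp only [KK_neg] at h
  have h2 : ∫ s : ℝ, -s * KK s = -∫ s : ℝ, s * KK s := by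
    rw [← integral_neg]
    refine integral_congr_ae (ae_of_all _ fun s => ?_)
    simp only
    ring
  rw [h2] at h
  linarith

/-- smooth compactly supported functions -/
structure Cc (v : ℝ → ℝ) : Prop where
  sm : ContDiff ℝ ∞ v
  cs : HasCompactSupport v

lemma Cc.cont {v : ℝ → ℝ} (h : Cc v) : Continuous v := h.sm.continuous

lemma Cc.bd {v : ℝ → ℝ} (h : Cc v) : ∃ M : ℝ, 0 < M ∧ ∀ x, |v x| ≤ M := by
  obtain ⟨M, hM⟩ := h.cont.bounded_above_of_compact_support h.cs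
  refine ⟨|M| + 1, by positivity, fun x => ?_⟩
  have := hM x
  rw [Real.norm_eq_abs] at this
  linarith [le_abs_self M]

lemma Cc.deriv {v : ℝ → ℝ} (h : Cc v) : Cc (deriv v) :=
  ⟨(contDiff_infty_iff_deriv.1 h.sm).2, h.cs.deriv⟩

lemma Cc.hd {v : ℝ → ℝ} (h : Cc v) (x : ℝ) : HasDerivAt v (_root_.deriv v x) x :=
  ((h.sm.differentiable (by simp)) x).hasDerivAt

lemma Cc.lip {v : ℝ → ℝ} (h : Cc v) : ∃ M : ℝ, 0 < M ∧ ∀ x y, |v x - v y| ≤ M * |x - y| := by
  obtain ⟨M, hM, hb⟩ := h.deriv.bd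
  refine ⟨M, hM, fun x y => ?_⟩
  have := Convex.norm_image_sub_le_of_norm_deriv_le (s := (Set.univ : Set ℝ)) (f := v) (C := M)
    (fun x _ => (h.hd x).differentiableAt) (fun x _ => by rw [Real.norm_eq_abs]; exact hb x)
    convex_univ (Set.mem_univ y) (Set.mem_univ x)
  rwa [Real.norm_eq_abs, Real.norm_eq_abs] at this

/-- Taylor's formula -/
lemma Cc.taylor {v : ℝ → ℝ} (h : Cc v) : ∃ M : ℝ, 0 < M ∧ ∀ x u,
    |v (x + u) - v x - _root_.deriv v x * u| ≤ M * u ^ 2 := by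
  obtain ⟨M, hM, hl⟩ := h.deriv.lip
  refine ⟨M, hM, fun x u => ?_⟩
  obtain ⟨g, hg⟩ : ∃ g : ℝ → ℝ, g = fun y => v y - _root_.deriv v x * y := ⟨_, rfl⟩
  have hgd : ∀ y, HasDerivAt g (_root_.deriv v y - _root_.deriv v x) y := by
    intro y
    rw [hg]
    have := (h.hd y).fun_sub ((hasDerivAt_id' y).const_mul (_root_.deriv v x))
    simpa using this
  have hb : ∀ y ∈ Set.uIcc x (x + u), ‖_root_.deriv g y‖ ≤ M * |u| := by
    intro y hy
    rw [(hgd y).deriv, Real.norm_eq_abs]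
    refine (hl y x).trans ?_
    apply mul_le_mul_of_nonneg_left _ hM.le
    have := Set.abs_sub_left_of_mem_uIcc hy
    rwa [add_sub_cancel_left] at this
  have := Convex.norm_image_sub_le_of_norm_deriv_le (s := Set.uIcc x (x + u)) (f := g) (C := M * |u|)
    (fun y _ => (hgd y).differentiableAt) hb (convex_uIcc _ _) (Set.left_mem_uIcc)
    (Set.right_mem_uIcc)
  rw [hg] at this
  simp only [Real.norm_eq_abs, add_sub_cancel_left] at this
  have e : v (x + u) - _root_.deriv v x * (x + u) - (v x - _root_.deriv v x * x) =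
      v (x + u) - v x - _root_.deriv v x * u := by ring
  rw [e] at this
  refine this.trans (le_of_eq ?_)
  rw [mul_assoc, ← sq, sq_abs]

lemma Cc.mul {v : ℝ → ℝ} (h : Cc v) {f : ℝ → ℝ} (hf : ContDiff ℝ ∞ f) : Cc fun x => f x * v x :=
  ⟨hf.mul h.sm, h.cs.mul_left⟩

lemma Cc.conv_int {v : ℝ → ℝ} (h : Cc v) (k : ℕ) (H x : ℝ) :
    Integrable fun s : ℝ => s ^ k * KK s * v (x - s / H) := by
  obtain ⟨M, hM, hb⟩ := h.bd
  refine (KK_mom k).mul_bdd (c := M) ?_ (ae_of_all _ fun s => ?_)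
  · exact (h.cont.comp (by fun_prop)).aestronglyMeasurable
  · rw [Real.norm_eq_abs]
    exact hb _

/-- first order -/
lemma convA {v : ℝ → ℝ} (h : Cc v) : ∃ C : ℝ, 0 < C ∧ ∀ H : ℝ, 0 < H → ∀ x,
    |(∫ s, KK s * v (x - s / H)) - v x| ≤ C / H ^ 2 := by
  obtain ⟨M, hM, hT⟩ := h.taylor
  have hI : 0 ≤ ∫ s : ℝ, |s ^ 2 * KK s| := integral_nonneg fun _ => abs_nonneg _
  refine ⟨M * (∫ s : ℝ, |s ^ 2 * KK s|) + 1, by positivity, fun H hH x => ?_⟩
  have i0 : Integrable fun s : ℝ => KK s * v (x - s / H) := by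
    have := h.conv_int 0 H x
    simpa using this
  have i1 : Integrable fun s : ℝ => v x * KK s := by
    have := (KK_mom 0).const_mul (v x)
    simpa using this
  have i2 : Integrable fun s : ℝ => (_root_.deriv v x / H) * (s * KK s) := by
    have := (KK_mom 1).const_mul (_root_.deriv v x / H)
    simpa using this
  have e1 : (∫ s, KK s * v (x - s / H)) - v x =
      ∫ s, (KK s * v (x - s / H) - v x * KK s + (_root_.deriv v x / H) * (s * KK s)) := by
    have a1 := integral_add (i0.sub i1) i2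
    simp only [Pi.sub_apply] at a1
    rw [a1, integral_sub i0 i1, integral_const_mul, integral_const_mul, KK_int, KK_odd]
    ring
  rw [e1]
  refine (abs_integral_le_integral_abs).trans ?_
  have i3 : Integrable fun s : ℝ => M / H ^ 2 * |s ^ 2 * KK s| := (KK_mom 2).abs.const_mul _
  refine (integral_mono_of_nonneg (ae_of_all _ fun _ => abs_nonneg _) i3
    (ae_of_all _ fun s => ?_)).trans ?_
  · simp only
    have h1 := hT x (-(s / H))
    have e2 : KK s * v (x - s / H) - v x * KK s + (_root_.deriv v x / H) * (s * KK s) =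
        KK s * (v (x + -(s / H)) - v x - _root_.deriv v x * -(s / H)) := by
      rw [← sub_eq_add_neg]
      ring
    rw [e2, abs_mul]
    calc |KK s| * _ ≤ |KK s| * (M * (-(s / H)) ^ 2) := mul_le_mul_of_nonneg_left h1 (abs_nonneg _)
      _ = M / H ^ 2 * |s ^ 2 * KK s| := by
          rw [abs_mul, abs_of_nonneg (sq_nonneg s), neg_sq, div_pow]
          ring
  · rw [integral_const_mul, div_mul_eq_mul_div]
    apply div_le_div_of_nonneg_right _ (by positivity)
    linarith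

lemma convB {v : ℝ → ℝ} (h : Cc v) : ∃ C : ℝ, 0 < C ∧ ∀ H : ℝ, 0 < H → ∀ x,
    |∫ s, (s * KK s) * v (x - s / H)| ≤ C / H := by
  obtain ⟨M, hM, hT⟩ := h.lip
  have hI : 0 ≤ ∫ s : ℝ, |s ^ 2 * KK s| := integral_nonneg fun _ => abs_nonneg _
  refine ⟨M * (∫ s : ℝ, |s ^ 2 * KK s|) + 1, by positivity, fun H hH x => ?_⟩
  have i0 : Integrable fun s : ℝ => (s * KK s) * v (x - s / H) := by
    have := h.conv_int 1 H x
    simpa using this
  have i1 : Integrable fun s : ℝ => v x * (s * KK s) := by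
    have := (KK_mom 1).const_mul (v x)
    simpa using this
  have e1 : (∫ s, (s * KK s) * v (x - s / H)) =
      ∫ s, ((s * KK s) * v (x - s / H) - v x * (s * KK s)) := by
    rw [integral_sub i0 i1, integral_const_mul, KK_odd]
    ring
  rw [e1]
  refine (abs_integral_le_integral_abs).trans ?_
  have i3 : Integrable fun s : ℝ => M / H * |s ^ 2 * KK s| := (KK_mom 2).abs.const_mul _
  refine (integral_mono_of_nonneg (ae_of_all _ fun _ => abs_nonneg _) i3
    (ae_of_all _ fun s => ?_)).trans ?_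
  · simp only
    have h1 := hT (x - s / H) x
    have e2 : (s * KK s) * v (x - s / H) - v x * (s * KK s) = (s * KK s) * (v (x - s / H) - v x) := by
      ring
    have e3 : |x - s / H - x| = |s| / H := by
      rw [sub_sub_cancel_left, abs_neg, abs_div, abs_of_pos hH]
    rw [e3] at h1
    rw [e2, abs_mul]
    calc |s * KK s| * _ ≤ |s * KK s| * (M * (|s| / H)) := mul_le_mul_of_nonneg_left h1 (abs_nonneg _)
      _ = M / H * |s ^ 2 * KK s| := by
          rw [abs_mul, abs_mul, abs_pow]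
          ring
  · rw [integral_const_mul, div_mul_eq_mul_div]
    apply div_le_div_of_nonneg_right _ (by positivity)
    linarith

lemma convC {v : ℝ → ℝ} (h : Cc v) : ∃ C : ℝ, 0 < C ∧ ∀ H x : ℝ,
    |∫ s, (s ^ 2 * KK s) * v (x - s / H)| ≤ C := by
  obtain ⟨M, hM, hb⟩ := h.bd
  have hI : 0 ≤ ∫ s : ℝ, |s ^ 2 * KK s| := integral_nonneg fun _ => abs_nonneg _
  refine ⟨M * (∫ s : ℝ, |s ^ 2 * KK s|) + 1, by positivity, fun H x => ?_⟩
  refine (abs_integral_le_integral_abs).trans ?_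
  have i3 : Integrable fun s : ℝ => M * |s ^ 2 * KK s| := (KK_mom 2).abs.const_mul _
  refine (integral_mono_of_nonneg (ae_of_all _ fun _ => abs_nonneg _) i3
    (ae_of_all _ fun s => ?_)).trans ?_
  · simp only
    rw [abs_mul, mul_comm M]
    exact mul_le_mul_of_nonneg_left (hb _) (abs_nonneg _)
  · rw [integral_const_mul]
    linarith

/-- the band limited approximation -/
def bl (H : ℝ) (w : ℝ → ℝ) (x : ℝ) : ℝ := ∫ s, KK s * w (x - s / H)

/-- **approximation** -/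
theorem bl_near {w : ℝ → ℝ} (h : Cc w) : ∃ C : ℝ, 0 < C ∧ ∀ H : ℝ, 0 < H → ∀ x,
    |bl H w x - w x| ≤ C / H ^ 2 / (1 + x ^ 2) := by
  have h1 : Cc fun x => x * w x := h.mul contDiff_id
  have h2 : Cc fun x => x ^ 2 * w x := h.mul (contDiff_id.pow 2)
  obtain ⟨C0, hC0, g0⟩ := convA h
  obtain ⟨C1, hC1, g1⟩ := convA h2
  obtain ⟨C2, hC2, g2⟩ := convB h1
  obtain ⟨C3, hC3, g3⟩ := convC h
  refine ⟨C0 + C1 + 2 * C2 + C3, by positivity, fun H hH x => ?_⟩
  rw [le_div_iff₀ (by positivity)]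
  have i0 : Integrable fun s : ℝ => KK s * w (x - s / H) := by
    have := h.conv_int 0 H x
    simpa using this
  have i2 : Integrable fun s : ℝ => KK s * ((x - s / H) ^ 2 * w (x - s / H)) := by
    have := h2.conv_int 0 H x
    simpa using this
  have i1 : Integrable fun s : ℝ => (2 / H) * ((s * KK s) * ((x - s / H) * w (x - s / H))) := by
    have := (h1.conv_int 1 H x).const_mul (2 / H)
    simpa using this
  have i3 : Integrable fun s : ℝ => (1 / H ^ 2) * ((s ^ 2 * KK s) * w (x - s / H)) := by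
    have := (h.conv_int 2 H x).const_mul (1 / H ^ 2)
    simpa using this
  have e1 : x ^ 2 * bl H w x = (∫ s, KK s * ((x - s / H) ^ 2 * w (x - s / H))) +
      (2 / H) * (∫ s, (s * KK s) * ((x - s / H) * w (x - s / H))) +
      (1 / H ^ 2) * ∫ s, (s ^ 2 * KK s) * w (x - s / H) := by
    have a1 := integral_add (i2.add i1) i3
    have a2 := integral_add i2 i1
    simp only [Pi.add_apply] at a1 a2
    rw [← integral_const_mul (2 / H), ← integral_const_mul (1 / H ^ 2), ← a2, ← a1]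
    unfold bl
    rw [← integral_const_mul]
    refine integral_congr_ae (ae_of_all _ fun s => ?_)
    simp only
    field_simp
    ring
  have b0 := g0 H hH x
  have b1 := g1 H hH x
  have b2 := g2 H hH x
  have b3 := g3 H x
  have k1 : |x ^ 2 * (bl H w x - w x)| ≤ C1 / H ^ 2 + 2 / H * (C2 / H) + 1 / H ^ 2 * C3 := by
    have e2 : x ^ 2 * (bl H w x - w x) =
      ((∫ s, KK s * ((x - s / H) ^ 2 * w (x - s / H))) - x ^ 2 * w x) +
      (2 / H) * (∫ s, (s * KK s) * ((x - s / H) * w (x - s / H))) +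
      (1 / H ^ 2) * ∫ s, (s ^ 2 * KK s) * w (x - s / H) := by
      rw [mul_sub, e1]
      ring
    rw [e2]
    refine (abs_add_le _ _).trans (add_le_add ((abs_add_le _ _).trans (add_le_add b1 ?_)) ?_)
    · rw [abs_mul, abs_of_pos (by positivity : (0 : ℝ) < 2 / H)]
      exact mul_le_mul_of_nonneg_left b2 (by positivity)
    · rw [abs_mul, abs_of_pos (by positivity : (0 : ℝ) < 1 / H ^ 2)]
      exact mul_le_mul_of_nonneg_left b3 (by positivity)
  rw [abs_mul, abs_of_nonneg (sq_nonneg x)] at k1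
  have k0 : |bl H w x - w x| ≤ C0 / H ^ 2 := b0
  have e4 : (C0 + C1 + 2 * C2 + C3) / H ^ 2 = C0 / H ^ 2 + (C1 / H ^ 2 + 2 / H * (C2 / H) + 1 / H ^ 2 * C3) := by
    field_simp
    ring
  rw [e4]
  linarith

end

end Pool.Agent.K6.H57.ML
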