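import Pool.Agent.K6.H57.ML.Ker
import Pool.Agent.R320.JL.Vol

/-! # Smooth statistics of the zeros and the number variance -/

set_option autoImplicit false

open MeasureTheory Set Filter Topology
open scoped ContDiff

namespace Pool.Agent.K6.H57.ML

open SG (ord NZ)
open Pool.Agent.R320.JL (YY YY_meas varB0)
open Pool.Agent.Y743.NC (dev dev_nonneg dev_int)

noncomputable section

/-- test functions with support in `(0, R)` -/
structure Ts (R : ℝ) (v : ℝ → ℝ) : Prop where
  cc : Cc v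
  pos : 0 < R
  supp : tsupport v ⊆ Ioo 0 R

lemma Ts.zero_of {R : ℝ} {v : ℝ → ℝ} (h : Ts R v) {x : ℝ} (hx : x ∉ Ioo 0 R) : v x = 0 :=
  image_eq_zero_of_notMem_tsupport fun hc => hx (h.supp hc)

lemma Ts.zero_le {R : ℝ} {v : ℝ → ℝ} (h : Ts R v) {x : ℝ} (hx : x ≤ 0) : v x = 0 :=
  h.zero_of fun hc => absurd hc.1 (not_lt.2 hx)

lemma Ts.zero_ge {R : ℝ} {v : ℝ → ℝ} (h : Ts R v) {x : ℝ} (hx : R ≤ x) : v x = 0 :=
  h.zero_of fun hc => absurd hc.2 (not_lt.2 hx)

lemma Ts.deriv {R : ℝ} {v : ℝ → ℝ} (h : Ts R v) : Ts R (deriv v) :=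
  ⟨h.cc.deriv, h.pos, tsupport_deriv_subset.trans h.supp⟩

lemma Ts.mul {R : ℝ} {v : ℝ → ℝ} (h : Ts R v) {f : ℝ → ℝ} (hf : ContDiff ℝ ∞ f) :
    Ts R fun x => f x * v x :=
  ⟨h.cc.mul hf, h.pos, (tsupport_mul_subset_right (f := f) (g := v)).trans h.supp⟩

lemma Ts.int_eq {R : ℝ} {v : ℝ → ℝ} (h : Ts R v) : ∫ x, v x = ∫ x in (0 : ℝ)..R, v x := by
  rw [intervalIntegral.integral_eq_integral_of_support_subset]
  intro x hx
  have := h.supp (subset_tsupport _ hx)
  exact ⟨this.1, this.2.le⟩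

lemma Ts.parts {R : ℝ} {v : ℝ → ℝ} (h : Ts R v) :
    ∫ y in (0 : ℝ)..R, _root_.deriv v y * y = -∫ x, v x := by
  have h1 := intervalIntegral.integral_mul_deriv_eq_deriv_mul (a := 0) (b := R)
    (u := fun y : ℝ => y) (v := v) (u' := fun _ => 1) (v' := _root_.deriv v)
    (fun x _ => hasDerivAt_id' x) (fun x _ => h.cc.hd x) (by simp)
    (h.deriv.cc.cont.intervalIntegrable _ _)
  rw [h.zero_ge le_rfl, h.zero_le le_rfl] at h1
  simp only [mul_zero, sub_zero, one_mul, zero_sub] at h1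
  rw [h.int_eq, ← h1]
  refine intervalIntegral.integral_congr fun y _ => ?_
  ring

lemma Ts.ind {R : ℝ} {v : ℝ → ℝ} (h : Ts R v) {x : ℝ} (hx : 0 ≤ x) :
    ∫ y in (0 : ℝ)..R, (Ici x).indicator (_root_.deriv v) y = -v x := by
  rw [intervalIntegral.integral_of_le h.pos.le, setIntegral_indicator measurableSet_Ici]
  rcases le_or_gt x R with hxR | hxR
  · have h1 : ∫ y in x..R, _root_.deriv v y = v R - v x :=
      intervalIntegral.integral_eq_sub_of_hasDerivAt (fun y _ => h.cc.hd y)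
        (h.deriv.cc.cont.intervalIntegrable _ _)
    rw [h.zero_ge le_rfl, zero_sub, intervalIntegral.integral_of_le hxR] at h1
    rw [← h1]
    rcases hx.eq_or_lt with h0 | h0
    · rw [← h0]
      congr 2
      ext y
      simp only [mem_inter_iff, mem_Ioc, mem_Ici]
      constructor
      · rintro ⟨⟨a, b⟩, c⟩; exact ⟨a, b⟩
      · rintro ⟨a, b⟩; exact ⟨⟨a, b⟩, a.le⟩
    · rw [← integral_Icc_eq_integral_Ioc]
      congr 2
      ext y
      simp only [mem_inter_iff, mem_Ioc, mem_Ici, mem_Icc]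
      constructor
      · rintro ⟨⟨a, b⟩, c⟩; exact ⟨c, b⟩
      · rintro ⟨a, b⟩; exact ⟨⟨by linarith, b⟩, a⟩
  · have : Ioc 0 R ∩ Ici x = ∅ := by
      ext y
      simp only [mem_inter_iff, mem_Ioc, mem_Ici, mem_empty_iff_false, iff_false]
      rintro ⟨⟨a, b⟩, c⟩
      linarith
    rw [this, h.zero_ge hxR.le]
    simp

/-- the centred statistic -/
def Z (T h : ℝ) (v : ℝ → ℝ) (t : ℝ) : ℝ :=
  (∑ n ∈ Finset.Icc 1 (NZ (3 * T)), v (Real.log T * (ord n - t) / (2 * Real.pi * h))) - h * ∫ x, v x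

lemma Z_deriv {R : ℝ} {v : ℝ → ℝ} (hv : Ts R v) (T h t : ℝ) :
    HasDerivAt (Z T h v) (-(Real.log T / (2 * Real.pi * h)) * Z T h (deriv v) t) t := by
  have h0 : ∫ x, deriv v x = 0 :=
    integral_eq_zero_of_hasDerivAt_of_integrable (fun x => hv.cc.hd x)
      (hv.deriv.cc.cont.integrable_of_hasCompactSupport hv.deriv.cc.cs)
      (hv.cc.cont.integrable_of_hasCompactSupport hv.cc.cs)
  have e : -(Real.log T / (2 * Real.pi * h)) * Z T h (deriv v) t =
      ∑ n ∈ Finset.Icc 1 (NZ (3 * T)), deriv v (Real.log T * (ord n - t) / (2 * Real.pi * h)) *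
        (Real.log T * (0 - 1) / (2 * Real.pi * h)) := by
    unfold Z
    rw [h0, mul_zero, sub_zero, Finset.mul_sum]
    refine Finset.sum_congr rfl fun n _ => ?_
    ring
  rw [e]
  unfold Z
  refine HasDerivAt.sub_const _ ?_
  refine HasDerivAt.fun_sum fun n _ => ?_
  refine HasDerivAt.comp t (hv.cc.hd _) ?_
  have h1 : HasDerivAt (fun t : ℝ => ord n - t) (0 - 1) t := (hasDerivAt_const t _).fun_sub (hasDerivAt_id' t)
  exact (h1.const_mul (Real.log T)).div_const _

lemma Z_cont {v : ℝ → ℝ} (hv : Continuous v) (T h : ℝ) : Continuous (Z T h v) := by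
  unfold Z
  refine Continuous.sub ?_ continuous_const
  refine continuous_finsetSum _ fun n _ => ?_
  exact hv.comp (by fun_prop)

/-- **representation by the counting function** -/
theorem Z_YY {R : ℝ} {v : ℝ → ℝ} (hv : Ts R v) {T h t : ℝ} (hT : 1 < T) (hh : 0 < h)
    (ht1 : T ≤ t) (ht2 : t ≤ 2 * T) (hR : 2 * Real.pi * (h * R) / Real.log T ≤ T) :
    Z T h v t = -∫ y in (0 : ℝ)..R, deriv v y * YY T (h * y) t := by
  have hL : 0 < Real.log T := Real.log_pos hT
  have hpi := Real.pi_pos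
  obtain ⟨x, hx⟩ : ∃ x : ℕ → ℝ, x = fun n => Real.log T * (ord n - t) / (2 * Real.pi * h) := ⟨_, rfl⟩
  have hxle : ∀ n : ℕ, ∀ y : ℝ, x n ≤ y ↔ ord n ≤ t + 2 * Real.pi * (h * y) / Real.log T := by
    intro n y
    rw [hx]
    simp only
    rw [div_le_iff₀ (by positivity), ← sub_le_iff_le_add', le_div_iff₀ hL]
    constructor <;> intro h1 <;> linarith
  have hNm : NZ t ≤ NZ (3 * T) := SG.NZ_mono (by linarith)
  have hord : ∀ n ∈ Finset.Ioc (NZ t) (NZ (3 * T)), 1 ≤ n ∧ t < ord n := by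
    intro n hn
    rw [Finset.mem_Ioc] at hn
    refine ⟨by omega, ?_⟩
    by_contra hcon
    push Not at hcon
    have := (SG.ord_le_iff (by omega) _).mp hcon
    omega
  have hx0 : ∀ n ∈ Finset.Ioc (NZ t) (NZ (3 * T)), 0 ≤ x n := by
    intro n hn
    have := (hord n hn).2
    rw [hx]
    simp only
    have : 0 < ord n - t := by linarith
    positivity
  -- the sum
  have h1 : ∑ n ∈ Finset.Icc 1 (NZ (3 * T)), v (x n) = ∑ n ∈ Finset.Ioc (NZ t) (NZ (3 * T)), v (x n) := by
    symm
    apply Finset.sum_subset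
    · intro n hn
      rw [Finset.mem_Ioc] at hn
      rw [Finset.mem_Icc]
      omega
    · intro n hn hn2
      rw [Finset.mem_Icc] at hn
      have h2 : n ≤ NZ t := by
        by_contra hcon
        exact hn2 (Finset.mem_Ioc.2 ⟨by omega, hn.2⟩)
      have h3 := (SG.ord_le_iff hn.1 _).mpr h2
      apply hv.zero_le
      rw [hx]
      simp only
      apply div_nonpos_of_nonpos_of_nonneg _ (by positivity)
      apply mul_nonpos_of_nonneg_of_nonpos hL.le
      linarith
  -- the counting function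
  have hc : ∀ y ∈ uIcc 0 R, ((NZ (t + 2 * Real.pi * (h * y) / Real.log T) : ℝ) - NZ t) * deriv v y =
      ∑ n ∈ Finset.Ioc (NZ t) (NZ (3 * T)), (Ici (x n)).indicator (deriv v) y := by
    intro y hy
    rw [uIcc_of_le hv.pos.le] at hy
    have h2 : NZ (t + 2 * Real.pi * (h * y) / Real.log T) ≤ NZ (3 * T) := by
      apply SG.NZ_mono
      have : 2 * Real.pi * (h * y) / Real.log T ≤ 2 * Real.pi * (h * R) / Real.log T := by
        have := hy.2
        gcongr
      linarith
    have h3 : NZ t ≤ NZ (t + 2 * Real.pi * (h * y) / Real.log T) := by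
      apply SG.NZ_mono
      have : 0 ≤ 2 * Real.pi * (h * y) / Real.log T := by
        have := hy.1
        positivity
      linarith
    have h4 : ∑ n ∈ Finset.Ioc (NZ t) (NZ (3 * T)), (Ici (x n)).indicator (deriv v) y =
        ∑ n ∈ Finset.Ioc (NZ t) (NZ (t + 2 * Real.pi * (h * y) / Real.log T)), deriv v y := by
      rw [← Finset.sum_subset (Finset.Ioc_subset_Ioc_right h2)]
      · refine Finset.sum_congr rfl fun n hn => ?_
        rw [Finset.mem_Ioc] at hn
        rw [indicator_of_mem]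
        rw [mem_Ici, hxle]
        exact (SG.ord_le_iff (by omega) _).mpr hn.2
      · intro n hn hn2
        rw [Finset.mem_Ioc] at hn
        rw [indicator_of_notMem]
        rw [mem_Ici, hxle]
        intro hcon
        have := (SG.ord_le_iff (by omega) _).mp hcon
        exact hn2 (Finset.mem_Ioc.2 ⟨hn.1, this⟩)
    rw [h4, Finset.sum_const, Nat.card_Ioc, nsmul_eq_mul, Nat.cast_sub h3]
  have hii : ∀ n, IntervalIntegrable ((Ici (x n)).indicator (deriv v)) volume 0 R := by
    intro n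
    rw [intervalIntegrable_iff]
    have : IntegrableOn (deriv v) (uIoc 0 R) :=
      (intervalIntegrable_iff.1 (hv.deriv.cc.cont.intervalIntegrable (μ := volume) 0 R))
    exact this.indicator measurableSet_Ici
  have h5 : ∫ y in (0 : ℝ)..R, ((NZ (t + 2 * Real.pi * (h * y) / Real.log T) : ℝ) - NZ t) * deriv v y =
      -∑ n ∈ Finset.Ioc (NZ t) (NZ (3 * T)), v (x n) := by
    rw [intervalIntegral.integral_congr hc, intervalIntegral.integral_finsetSum fun n _ => hii n,
      ← Finset.sum_neg_distrib]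
    exact Finset.sum_congr rfl fun n hn => hv.ind (hx0 n hn)
  have hci : IntervalIntegrable (fun y => ((NZ (t + 2 * Real.pi * (h * y) / Real.log T) : ℝ) - NZ t) *
      deriv v y) volume 0 R := by
    have h6 : IntervalIntegrable (fun y => ∑ n ∈ Finset.Ioc (NZ t) (NZ (3 * T)),
        (Ici (x n)).indicator (deriv v) y) volume 0 R := by
      have := IntervalIntegrable.sum (μ := volume) (a := 0) (b := R) (Finset.Ioc (NZ t) (NZ (3 * T)))
        (f := fun n => (Ici (x n)).indicator (deriv v)) (fun n _ => hii n)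
      refine this.congr fun y _ => ?_
      simp
    refine h6.congr fun y hy => ?_
    exact (hc y (uIoc_subset_uIcc hy)).symm
  have h7 : ∫ y in (0 : ℝ)..R, deriv v y * YY T (h * y) t =
      (∫ y in (0 : ℝ)..R, ((NZ (t + 2 * Real.pi * (h * y) / Real.log T) : ℝ) - NZ t) * deriv v y) -
        h * ∫ y in (0 : ℝ)..R, deriv v y * y := by
    rw [← intervalIntegral.integral_const_mul, ← intervalIntegral.integral_sub hci]
    · refine intervalIntegral.integral_congr fun y _ => ?_
      unfold YY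
      ring
    · apply Continuous.intervalIntegrable
      have := hv.deriv.cc.cont
      fun_prop
  rw [h7, h5, hv.parts]
  unfold Z
  rw [hx] at h1
  simp only at h1
  rw [h1, hx]
  ring

end

end Pool.Agent.K6.H57.ML
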