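import Pool.Agent.K6.H57.ML.Nv

/-! # The mean of the absolute value of a smooth statistic -/

set_option autoImplicit false

open MeasureTheory Set Filter Topology
open scoped ContDiff

namespace Pool.Agent.K6.H57.ML

open SG (ord NZ)
open Pool.Agent.R320.JL (YY YY_meas varB0)
open Pool.Agent.Y743.NC (dev dev_nonneg dev_int)

noncomputable section

lemma YY_meas2 (T h : ℝ) : Measurable fun p : ℝ × ℝ => YY T (h * p.2) p.1 := by
  unfold YY
  have h1 : Measurable fun t : ℝ => (NZ t : ℝ) := measurable_from_nat.comp (SG.NZ_mono.measurable)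
  have h2 : Measurable fun p : ℝ × ℝ => (NZ (p.1 + 2 * Real.pi * (h * p.2) / Real.log T) : ℝ) :=
    h1.comp (by fun_prop)
  have h3 : Measurable fun p : ℝ × ℝ => (NZ p.1 : ℝ) := h1.comp measurable_fst
  exact (h2.sub h3).sub (by fun_prop)

lemma YY_sq (T a t : ℝ) : YY T a t ^ 2 = dev T a t := rfl

theorem Z_L1 (B : ℝ) (hB : 1 ≤ B) : ∃ C T0 : ℝ, 1 ≤ C ∧ 10 ≤ T0 ∧ ∀ T : ℝ, T0 ≤ T →
    ∀ (R : ℝ) (v : ℝ → ℝ), Ts R v → ∀ h : ℝ, 0 < h → (h * R) * Real.log (h * R) ≤ B * Real.log T →
    2 * Real.pi * (h * R) / Real.log T ≤ T → ∀ D : ℝ, (∀ y, |deriv v y| ≤ D) →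
    ∫ t in Icc T (2 * T), |Z T h v t| ≤ D * R * (T * Real.sqrt (C + Real.log (1 + h * R))) := by
  obtain ⟨C, T0, hC, hT0, hvar⟩ := varB0 B hB
  refine ⟨C, T0, hC, hT0, fun T hT R v hv h hh hRB hRT D hD => ?_⟩
  have hT10 : 10 ≤ T := hT0.trans hT
  have hT1 : 1 < T := by linarith
  have hTp : 0 < T := by linarith
  have hL : 0 < Real.log T := Real.log_pos hT1
  have hR := hv.pos
  have hD0 : 0 ≤ D := (abs_nonneg _).trans (hD 0)
  have hlog : 0 ≤ Real.log (1 + h * R) := Real.log_nonneg (by nlinarith [mul_pos hh hR])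
  obtain ⟨s, hs⟩ : ∃ s : ℝ, s = Real.sqrt (C + Real.log (1 + h * R)) := ⟨_, rfl⟩
  have hs2 : s ^ 2 = C + Real.log (1 + h * R) := by rw [hs, Real.sq_sqrt (by linarith)]
  have hs0 : 0 < s := by rw [hs]; exact Real.sqrt_pos.2 (by linarith)
  rw [← hs]
  -- one window
  have hwin : ∀ y ∈ Ioc 0 R, ∫ t in Icc T (2 * T), |YY T (h * y) t| ≤ T * s := by
    intro y hy
    have ha0 : 0 ≤ h * y := by have := hy.1; positivity
    have haR : h * y ≤ h * R := mul_le_mul_of_nonneg_left hy.2 hh.le
    have haB : (h * y) * Real.log (h * y) ≤ B * Real.log T := by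
      rcases le_or_gt (h * y) 1 with h1 | h1
      · have := Real.log_nonpos ha0 h1
        have h2 : 0 ≤ B * Real.log T := by positivity
        nlinarith
      · refine le_trans ?_ hRB
        apply mul_le_mul haR (Real.log_le_log (by linarith) haR) (Real.log_nonneg h1.le) (by linarith)
    have h1 := hvar T hT (h * y) ha0 haB
    have h2 : Real.log (1 + h * y) ≤ Real.log (1 + h * R) := Real.log_le_log (by linarith) (by linarith)
    have hIf : volume (Icc T (2 * T)) ≠ ⊤ := by rw [Real.volume_Icc]; exact ENNReal.ofReal_ne_top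
    have i1 : IntegrableOn (fun t => (s + (1 / s) * dev T (h * y) t) / 2) (Icc T (2 * T)) :=
      ((integrableOn_const hIf).add ((dev_int T _ _ _).const_mul _)).div_const 2
    have h3 : ∫ t in Icc T (2 * T), |YY T (h * y) t| ≤
        ∫ t in Icc T (2 * T), (s + (1 / s) * dev T (h * y) t) / 2 := by
      refine integral_mono_of_nonneg (ae_of_all _ fun _ => abs_nonneg _) i1 (ae_of_all _ fun t => ?_)
      simp only
      rw [← YY_sq]
      have h6 : 0 ≤ (s - |YY T (h * y) t|) ^ 2 / s := by positivity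
      have h7 : (s - |YY T (h * y) t|) ^ 2 / s = s - 2 * |YY T (h * y) t| + 1 / s * |YY T (h * y) t| ^ 2 := by
        field_simp
        ring
      rw [sq_abs] at h7
      linarith
    refine h3.trans ?_
    have q5 : IntegrableOn (fun _ : ℝ => s) (Icc T (2 * T)) := integrableOn_const hIf
    have a4 := integral_add (μ := volume.restrict (Icc T (2 * T))) q5
      ((dev_int T (h * y) T (2 * T)).const_mul (1 / s))
    rw [integral_div, a4, integral_const_mul, setIntegral_const, Real.volume_real_Icc_of_le (by linarith),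
      smul_eq_mul]
    have h8 : 1 / s * (∫ t in Icc T (2 * T), dev T (h * y) t) ≤ 1 / s * (T * s ^ 2) := by
      apply mul_le_mul_of_nonneg_left _ (by positivity)
      rw [hs2]
      refine h1.trans ?_
      apply mul_le_mul_of_nonneg_left _ hTp.le
      linarith
    have h9 : 1 / s * (T * s ^ 2) = T * s := by field_simp
    have h10 : (2 * T - T) * s = T * s := by ring
    rw [h10]
    linarith
  -- Fubini
  obtain ⟨G, hG⟩ : ∃ G : ℝ × ℝ → ℝ, G = fun p => |deriv v p.2| * |YY T (h * p.2) p.1| := ⟨_, rfl⟩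
  have hGm : Measurable G := by
    rw [hG]
    have h1 : Measurable fun p : ℝ × ℝ => |deriv v p.2| :=
      (hv.deriv.cc.cont.measurable.comp measurable_snd).abs
    exact h1.mul (YY_meas2 T h).abs
  have hGi : Integrable G ((volume.restrict (Icc T (2 * T))).prod (volume.restrict (Ioc 0 R))) := by
    rw [Measure.prod_restrict]
    have hfin : (volume.prod volume : Measure (ℝ × ℝ)) (Icc T (2 * T) ×ˢ Ioc 0 R) ≠ ⊤ := by
      rw [Measure.prod_prod, Real.volume_Icc, Real.volume_Ioc]
      exact ENNReal.mul_ne_top ENNReal.ofReal_ne_top ENNReal.ofReal_ne_top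
    refine Measure.integrableOn_of_bounded (M := D * (NZ (3 * T) + h * R)) hfin hGm.aestronglyMeasurable ?_
    refine (ae_restrict_iff' (measurableSet_Icc.prod measurableSet_Ioc)).2 (ae_of_all _ fun p hp => ?_)
    obtain ⟨⟨p1, p2⟩, ⟨p3, p4⟩⟩ := hp
    rw [hG, Real.norm_eq_abs, abs_mul, abs_abs, abs_abs]
    apply mul_le_mul (hD _) _ (abs_nonneg _) hD0
    unfold YY
    have e1 : 2 * Real.pi * (h * p.2) / Real.log T ≤ 2 * Real.pi * (h * R) / Real.log T := by
      have := Real.pi_pos
      gcongr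
    have e2 : (NZ (p.1 + 2 * Real.pi * (h * p.2) / Real.log T) : ℝ) ≤ NZ (3 * T) := by
      exact_mod_cast SG.NZ_mono (by linarith)
    have e3 : (NZ p.1 : ℝ) ≤ NZ (3 * T) := by
      exact_mod_cast SG.NZ_mono (by linarith)
    have e4 : (0 : ℝ) ≤ NZ p.1 := Nat.cast_nonneg _
    have e5 : (0 : ℝ) ≤ NZ (p.1 + 2 * Real.pi * (h * p.2) / Real.log T) := Nat.cast_nonneg _
    have e6 : h * p.2 ≤ h * R := mul_le_mul_of_nonneg_left p4 hh.le
    have e7 : 0 ≤ h * p.2 := by positivity
    rw [abs_le]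
    constructor <;> linarith
  have hswap := integral_integral_swap (f := fun t y => G (t, y)) hGi
  have h1 : ∫ t in Icc T (2 * T), |Z T h v t| ≤ ∫ t in Icc T (2 * T), ∫ y in Ioc 0 R, G (t, y) := by
    refine integral_mono_of_nonneg (ae_of_all _ fun _ => abs_nonneg _) hGi.integral_prod_left ?_
    refine (ae_restrict_iff' measurableSet_Icc).2 (ae_of_all _ fun t ht => ?_)
    simp only
    rw [Z_YY hv hT1 hh ht.1 ht.2 hRT, abs_neg, intervalIntegral.integral_of_le hR.le]
    refine (abs_integral_le_integral_abs).trans (le_of_eq ?_)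
    refine integral_congr_ae (ae_of_all _ fun y => ?_)
    rw [hG]
    simp only
    rw [abs_mul]
  refine h1.trans ?_
  rw [hswap]
  have hRf : volume (Ioc 0 R) ≠ ⊤ := by rw [Real.volume_Ioc]; exact ENNReal.ofReal_ne_top
  have h2 : ∫ y in Ioc 0 R, ∫ t in Icc T (2 * T), G (t, y) ≤ ∫ y in Ioc 0 R, D * (T * s) := by
    refine setIntegral_mono_on hGi.integral_prod_right (integrableOn_const hRf) measurableSet_Ioc
      fun y hy => ?_
    have h3 : ∫ t in Icc T (2 * T), G (t, y) = |deriv v y| * ∫ t in Icc T (2 * T), |YY T (h * y) t| := by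
      rw [← integral_const_mul]
      refine integral_congr_ae (ae_of_all _ fun t => ?_)
      rw [hG]
    rw [h3]
    exact mul_le_mul (hD y) (hwin y hy) (integral_nonneg fun _ => abs_nonneg _) hD0
  refine h2.trans (le_of_eq ?_)
  rw [setIntegral_const, Real.volume_real_Ioc_of_le hR.le, smul_eq_mul, sub_zero]
  ring

end

end Pool.Agent.K6.H57.ML
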