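import Pool.Agent.K6.H57.ML.Ta
import Pool.Agent.R320.JL.Palm

/-! # The law of the smooth statistic at the zeros -/

set_option autoImplicit false

open MeasureTheory Set Filter Topology
open scoped ContDiff FourierTransform

namespace Pool.Agent.K6.H57.ML

open SG (ord NZ)
open Pool.Agent.R320.JL (palmF varB0 exp_lip)
open Pool.Agent.Y743.NC (dev dev_nonneg dev_int)

noncomputable section

/-- primitive -/
def Pm (G : ℝ → ℝ) (x : ℝ) : ℝ := ∫ u in (0 : ℝ)..x, G u

lemma Pm_cont {G : ℝ → ℝ} (hG : Continuous G) : Continuous (Pm G) :=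
  intervalIntegral.continuous_primitive (fun a b => hG.intervalIntegrable a b) 0

lemma Pm_sub {G : ℝ → ℝ} (hG : Continuous G) (a b : ℝ) : Pm G b - Pm G a = ∫ u in a..b, G u :=
  intervalIntegral.integral_interval_sub_left (hG.intervalIntegrable _ _) (hG.intervalIntegrable _ _)

lemma shift_avg {G : ℝ → ℝ} (hG : Continuous G) (hG0 : ∀ u, 0 ≤ G u) {T l : ℝ} (hl : 0 ≤ l) (hlT : l ≤ T) :
    ∫ t in T..(2 * T - l), (Pm G (t + l) - Pm G t) ≤ l * ∫ u in T..(2 * T), G u := by
  have e1 : ∀ t, Pm G (t + l) - Pm G t = ∫ v in (0 : ℝ)..l, G (t + v) := by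
    intro t
    rw [Pm_sub hG, intervalIntegral.integral_comp_add_left, add_zero]
  simp only [e1]
  rw [intervalIntegral_intervalIntegral_swap]
  · have h1 : ∫ v in (0 : ℝ)..l, ∫ t in T..(2 * T - l), G (t + v) ≤
        ∫ _v in (0 : ℝ)..l, ∫ u in T..(2 * T), G u := by
      apply intervalIntegral.integral_mono_on hl
      · apply Continuous.intervalIntegrable
        have e2 : ∀ v, ∫ t in T..(2 * T - l), G (t + v) = Pm G (2 * T - l + v) - Pm G (T + v) := by
          intro v
          rw [Pm_sub hG, intervalIntegral.integral_comp_add_right]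
        simp only [e2]
        have := Pm_cont hG
        fun_prop
      · exact intervalIntegrable_const
      · intro v hv
        rw [intervalIntegral.integral_comp_add_right]
        have h2 : Ioc (T + v) (2 * T - l + v) ⊆ Ioc T (2 * T) :=
          Ioc_subset_Ioc (by linarith [hv.1]) (by linarith [hv.2])
        rw [intervalIntegral.integral_of_le (by linarith), intervalIntegral.integral_of_le (by linarith)]
        exact setIntegral_mono_set (hG.integrableOn_Ioc) (ae_of_all _ hG0)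
          (Filter.Eventually.of_forall h2)
    refine h1.trans (le_of_eq ?_)
    rw [intervalIntegral.integral_const, smul_eq_mul, sub_zero]
  · have hc : Continuous (Function.uncurry fun t v : ℝ => G (t + v)) := by
      have : (Function.uncurry fun t v : ℝ => G (t + v)) = fun p : ℝ × ℝ => G (p.1 + p.2) := by
        funext p; rfl
      rw [this]
      fun_prop
    refine (hc.continuousOn.integrableOn_compact (isCompact_uIcc.prod isCompact_uIcc)).mono_set
      (Set.prod_mono uIoc_subset_uIcc uIoc_subset_uIcc)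

lemma markov {F : ℝ → ℝ} (hF : Continuous F) (hF0 : ∀ t, 0 ≤ F t) {a b δ : ℝ} (hδ : 0 < δ) (hab : a ≤ b) :
    volume.real ({t | δ < F t} ∩ Icc a b) ≤ (∫ t in a..b, F t) / δ := by
  have h1 := mul_meas_ge_le_integral_of_nonneg (μ := volume.restrict (Icc a b)) (f := F)
    (ae_of_all _ hF0) hF.continuousOn.integrableOn_Icc δ
  rw [le_div_iff₀ hδ, mul_comm, intervalIntegral.integral_of_le hab, ← integral_Icc_eq_integral_Ioc]
  refine le_trans ?_ h1
  apply mul_le_mul_of_nonneg_left _ hδ.le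
  rw [measureReal_restrict_apply' measurableSet_Icc]
  refine measureReal_mono (inter_subset_inter_left _ fun t (ht : δ < F t) => (show δ ≤ F t from ht.le)) ?_
  exact ((measure_mono inter_subset_right).trans_lt (by rw [Real.volume_Icc]; exact ENNReal.ofReal_lt_top)).ne

/-- the shift of the statistic -/
lemma Z_shift {R : ℝ} {w : ℝ → ℝ} (hw : Ts R w) {T h a b : ℝ} (hL : 0 < Real.log T) (hh : 0 < h)
    {l : ℝ} (hab : a ≤ b) (hb : b ≤ a + l) : |Z T h w b - Z T h w a| ≤
    Real.log T / (2 * Real.pi * h) * (Pm (fun u => |Z T h (deriv w) u|) (a + l) -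
      Pm (fun u => |Z T h (deriv w) u|) a) := by
  have hpi := Real.pi_pos
  have hc : Continuous fun u => |Z T h (deriv w) u| := (Z_cont hw.deriv.cc.cont T h).abs
  have hc2 : Continuous fun u => -(Real.log T / (2 * Real.pi * h)) * Z T h (deriv w) u :=
    continuous_const.mul (Z_cont hw.deriv.cc.cont T h)
  have h1 : ∫ u in a..b, -(Real.log T / (2 * Real.pi * h)) * Z T h (deriv w) u = Z T h w b - Z T h w a :=
    intervalIntegral.integral_eq_sub_of_hasDerivAt (fun u _ => Z_deriv hw T h u) (hc2.intervalIntegrable _ _)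
  rw [← h1, Pm_sub hc]
  have h2 : |∫ u in a..b, -(Real.log T / (2 * Real.pi * h)) * Z T h (deriv w) u| ≤
      ∫ u in a..b, Real.log T / (2 * Real.pi * h) * |Z T h (deriv w) u| := by
    have := intervalIntegral.abs_integral_le_integral_abs (μ := volume) hab
      (f := fun u => -(Real.log T / (2 * Real.pi * h)) * Z T h (deriv w) u)
    refine this.trans (le_of_eq ?_)
    refine intervalIntegral.integral_congr fun u _ => ?_
    rw [abs_mul, abs_neg, abs_of_pos (by positivity : 0 < Real.log T / (2 * Real.pi * h))]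
  refine h2.trans ?_
  rw [intervalIntegral.integral_const_mul]
  apply mul_le_mul_of_nonneg_left _ (by positivity)
  rw [intervalIntegral.integral_of_le hab, intervalIntegral.integral_of_le (by linarith)]
  exact setIntegral_mono_set (hc.integrableOn_Ioc) (ae_of_all _ fun _ => abs_nonneg _)
    (Filter.Eventually.of_forall (Ioc_subset_Ioc_right hb))

/-- **the law at the zeros** -/
theorem palmZ (RH : RiemannHypothesis) {R : ℝ} {w : ℝ → ℝ} (hw : Ts R w) (B : ℝ) (hB : 1 ≤ B)
    (ε : ℝ) (hε : 0 < ε) : ∃ h0 : ℝ, 3 ≤ h0 ∧ ∀ h : ℝ, h0 ≤ h → ∀ T : ℝ, 1 ≤ T →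
    h * Real.log h ^ 2 ≤ B * Real.log T → ∀ A A' : ℝ, T + Real.log T + 20 ≤ A → A + 1 ≤ A' →
    A' ≤ 2 * T - Real.log T - 20 →
    ‖(∑ n ∈ Finset.Ioc (NZ A) (NZ A'), Complex.exp (Complex.I * (Z T h w (ord n) : ℂ))) -
      ((Real.log T / (2 * Real.pi) * ((A' - A) * Real.exp (-J w)) : ℝ) : ℂ)‖ ≤ ε * (T * Real.log T) := by
  have hpi := Real.pi_pos
  have hpi4 := Real.pi_lt_d2
  have hpi3 := Real.pi_gt_three
  obtain ⟨C, T1, hC, hT1, hvar⟩ := varB0 B hB
  obtain ⟨C2, T2, hC2, hT2, hZ⟩ := Z_L1 B hB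
  obtain ⟨D, hD, hDb⟩ := hw.deriv.deriv.cc.bd
  have hR := hw.pos
  obtain ⟨h1, hh1, hta⟩ := tavg RH hw B hB (ε / 4) (by positivity)
  -- the parameters
  obtain ⟨M, hM⟩ : ∃ M : ℝ, M = max 1 (36 * 64 * (C + 1) / ε ^ 2) := ⟨_, rfl⟩
  have hM1 : 1 ≤ M := by rw [hM]; exact le_max_left _ _
  have hM0 : 0 < M := by linarith
  obtain ⟨s, hs⟩ : ∃ s : ℝ, s = Real.sqrt (C + Real.log (1 + M)) := ⟨_, rfl⟩
  have hlM : 0 ≤ Real.log (1 + M) := Real.log_nonneg (by linarith)
  have hs2 : s ^ 2 = C + Real.log (1 + M) := by rw [hs, Real.sq_sqrt (by linarith)]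
  have hs0 : 0 < s := by rw [hs]; exact Real.sqrt_pos.2 (by linarith)
  have hsM : s ≤ ε / 48 * M := by
    rw [hs, Real.sqrt_le_left (by positivity)]
    have a1 : 36 * 64 * (C + 1) / ε ^ 2 ≤ M := by rw [hM]; exact le_max_right _ _
    rw [div_le_iff₀ (by positivity)] at a1
    have a2 : Real.log (1 + M) ≤ M := by
      have := Real.log_le_sub_one_of_pos (show (0 : ℝ) < 1 + M by linarith)
      linarith
    have a3 : C + Real.log (1 + M) ≤ (C + 1) * M := by nlinarith
    have a4 : (C + 1) * M ≤ (M * ε ^ 2 / (36 * 64)) * M := by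
      apply mul_le_mul_of_nonneg_right _ hM0.le
      linarith
    refine (a3.trans a4).trans (le_of_eq ?_)
    ring
  obtain ⟨δ, hδ⟩ : ∃ δ : ℝ, δ = min 1 (ε / 8) := ⟨_, rfl⟩
  have hδ0 : 0 < δ := by rw [hδ]; positivity
  have hδ1 : δ ≤ 1 := by rw [hδ]; exact min_le_left _ _
  have hδε : δ ≤ ε / 8 := by rw [hδ]; exact min_le_right _ _
  obtain ⟨h3, hh3, hcond⟩ := cond hR hB (max (max h1 1) ((M * D * R / δ * (16 / ε)) ^ 2 * (C2 + R)))
    (min 1 (1 / (2 * Real.pi * R))) (max (max (max T1 T2) 100) (Real.exp (M * Real.log M + 2 * Real.pi * M + 32 * M / ε)))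
    (by positivity)
  refine ⟨h3, hh3, fun h hh T hT hc A A' hA hAA hA' => ?_⟩
  obtain ⟨c1, c2, c3, c4, c5⟩ := hcond h hh T hT hc
  have d1 : h1 ≤ h := ((le_max_left _ _).trans (le_max_left _ _)).trans c1
  have d2 : 1 ≤ h := ((le_max_right _ _).trans (le_max_left _ _)).trans c1
  have d3 : (M * D * R / δ * (16 / ε)) ^ 2 * (C2 + R) ≤ h := (le_max_right _ _).trans c1
  have d4 : T1 ≤ T := ((le_max_left _ _).trans ((le_max_left _ _).trans (le_max_left _ _))).trans c3
  have d5 : T2 ≤ T := ((le_max_right _ _).trans ((le_max_left _ _).trans (le_max_left _ _))).trans c3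
  have d6 : 100 ≤ T := ((le_max_right _ _).trans (le_max_left _ _)).trans c3
  have d7 : Real.exp (M * Real.log M + 2 * Real.pi * M + 32 * M / ε) ≤ T := (le_max_right _ _).trans c3
  have hTp : 0 < T := by linarith
  have hT1' : 1 < T := by linarith
  have hhp : 0 < h := by linarith
  obtain ⟨L, hL⟩ : ∃ L : ℝ, L = Real.log T := ⟨_, rfl⟩
  have hL1 : 1 ≤ L := by rw [hL]; exact c5
  have hL0 : 0 < L := by linarith
  have hLM : M * Real.log M + 2 * Real.pi * M + 32 * M / ε ≤ L := by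
    rw [hL, Real.le_log_iff_exp_le hTp]; exact d7
  have hMl : 0 ≤ M * Real.log M := mul_nonneg hM0.le (Real.log_nonneg hM1)
  have hLM2 : 2 * Real.pi * M ≤ L := by
    have : 0 < 32 * M / ε := by positivity
    linarith
  have hLM3 : 32 * M / ε ≤ L := by
    have : 0 < 2 * Real.pi * M := by positivity
    linarith
  have hLM4 : M * Real.log M ≤ L := by
    have : 0 < 2 * Real.pi * M := by positivity
    have : 0 < 32 * M / ε := by positivity
    linarith
  obtain ⟨ℓ, hℓ⟩ : ∃ ℓ : ℝ, ℓ = M * (2 * Real.pi / L) := ⟨_, rfl⟩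
  have hℓ0 : 0 < ℓ := by rw [hℓ]; positivity
  have hℓ1 : ℓ ≤ 1 := by
    have : M * (2 * Real.pi / L) = 2 * Real.pi * M / L := by ring
    rw [hℓ, this, div_le_one hL0]
    exact hLM2
  have hLT : L ≤ T := by rw [hL]; exact (Real.log_le_sub_one_of_pos hTp).trans (by linarith)
  -- the exceptional set
  obtain ⟨G, hG⟩ : ∃ G : ℝ → ℝ, G = fun u => |Z T h (deriv w) u| := ⟨_, rfl⟩
  have hGc : Continuous G := by rw [hG]; exact (Z_cont hw.deriv.cc.cont T h).abs
  have hG0 : ∀ u, 0 ≤ G u := fun u => by rw [hG]; exact abs_nonneg _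
  obtain ⟨F1, hF1⟩ : ∃ F1 : ℝ → ℝ, F1 = fun t => L / (2 * Real.pi * h) * (Pm G (t + ℓ) - Pm G t) := ⟨_, rfl⟩
  have hF1c : Continuous F1 := by
    rw [hF1]
    have := Pm_cont hGc
    fun_prop
  have hF10 : ∀ t, 0 ≤ F1 t := by
    intro t
    rw [hF1]
    have : 0 ≤ Pm G (t + ℓ) - Pm G t := by
      rw [Pm_sub hGc]
      exact intervalIntegral.integral_nonneg (by linarith) fun u _ => hG0 u
    positivity
  obtain ⟨W, hW⟩ : ∃ W : Set ℝ, W = {t | δ < F1 t} ∩ Icc T (2 * T - ℓ) := ⟨_, rfl⟩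
  have hWm : MeasurableSet W := by
    rw [hW]
    exact (isOpen_lt continuous_const hF1c).measurableSet.inter measurableSet_Icc
  have hRB : 2 * Real.pi * (h * R) / Real.log T ≤ T := by
    have a1 : h / Real.log T ≤ 1 / (2 * Real.pi * R) := c2.trans (min_le_right _ _)
    have a2 : 2 * Real.pi * (h * R) / Real.log T = 2 * Real.pi * R * (h / Real.log T) := by ring
    rw [a2]
    have a3 : 2 * Real.pi * R * (h / Real.log T) ≤ 2 * Real.pi * R * (1 / (2 * Real.pi * R)) := by gcongr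
    have a4 : 2 * Real.pi * R * (1 / (2 * Real.pi * R)) = 1 := by field_simp
    linarith
  have hWvol : volume.real (W ∩ Icc T (2 * T)) ≤ ε / 16 * T := by
    have a1 : volume.real (W ∩ Icc T (2 * T)) ≤ volume.real ({t | δ < F1 t} ∩ Icc T (2 * T - ℓ)) := by
      rw [hW]
      refine measureReal_mono inter_subset_left ?_
      exact ((measure_mono inter_subset_right).trans_lt (by rw [Real.volume_Icc]; exact ENNReal.ofReal_lt_top)).ne
    refine a1.trans ((markov hF1c hF10 hδ0 (by linarith)).trans ?_)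
    rw [div_le_iff₀ hδ0]
    have a2 : ∫ t in T..(2 * T - ℓ), F1 t = L / (2 * Real.pi * h) * ∫ t in T..(2 * T - ℓ), (Pm G (t + ℓ) - Pm G t) := by
      rw [hF1, intervalIntegral.integral_const_mul]
    have a3 := shift_avg hGc hG0 hℓ0.le (by linarith : ℓ ≤ T)
    have a4 := hZ T d5 R (deriv w) hw.deriv h hhp c4 hRB D hDb
    have a5 : ∫ u in T..(2 * T), G u ≤ D * R * (T * Real.sqrt (C2 + Real.log (1 + h * R))) := by
      rw [intervalIntegral.integral_of_le (by linarith), ← integral_Icc_eq_integral_Ioc, hG]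
      exact a4
    have a6 : Real.sqrt (C2 + Real.log (1 + h * R)) ≤ Real.sqrt (C2 + R) * Real.sqrt h := by
      rw [← Real.sqrt_mul (by positivity)]
      apply Real.sqrt_le_sqrt
      have : Real.log (1 + h * R) ≤ h * R := by
        have := Real.log_le_sub_one_of_pos (show (0 : ℝ) < 1 + h * R by positivity)
        linarith
      nlinarith
    have a7 : M * D * R / δ * (16 / ε) * Real.sqrt (C2 + R) ≤ Real.sqrt h := by
      apply Real.le_sqrt_of_sq_le
      rw [mul_pow, Real.sq_sqrt (by positivity)]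
      exact d3
    have a8 : M * D * R * Real.sqrt (C2 + R) * 16 ≤ Real.sqrt h * (δ * ε) := by
      have : M * D * R / δ * (16 / ε) * Real.sqrt (C2 + R) = M * D * R * Real.sqrt (C2 + R) * 16 / (δ * ε) := by
        field_simp
      rw [this, div_le_iff₀ (by positivity)] at a7
      exact a7
    have hsh : Real.sqrt h * Real.sqrt h = h := Real.mul_self_sqrt hhp.le
    have hsh0 : 0 < Real.sqrt h := Real.sqrt_pos.2 hhp
    rw [a2]
    calc L / (2 * Real.pi * h) * ∫ t in T..(2 * T - ℓ), (Pm G (t + ℓ) - Pm G t) ≤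
        L / (2 * Real.pi * h) * (ℓ * (D * R * (T * (Real.sqrt (C2 + R) * Real.sqrt h)))) := by
          apply mul_le_mul_of_nonneg_left _ (by positivity)
          refine a3.trans (mul_le_mul_of_nonneg_left (a5.trans ?_) hℓ0.le)
          gcongr
      _ = (M * D * R * Real.sqrt (C2 + R) * 16) * (T / 16 * (Real.sqrt h / h)) := by
          rw [hℓ]; field_simp
      _ ≤ (Real.sqrt h * (δ * ε)) * (T / 16 * (Real.sqrt h / h)) := by gcongr
      _ = (Real.sqrt h * Real.sqrt h) / h * (ε / 16 * T * δ) := by ring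
      _ = _ := by rw [hsh]; field_simp
  have hpalm := palmF (T := T) (M := M) (s := s) (δ := δ) (A := A) (B' := A') hT1' hM0 hs0
    hδ0.le (by linarith) (by rw [← hL, ← hℓ]; linarith) (by rw [← hL, ← hℓ]; linarith) (by linarith)
    (fun n => Complex.exp (Complex.I * (Z T h w (ord n) : ℂ)))
    (fun n => by rw [Complex.norm_exp_I_mul_ofReal])
    (fun t => Complex.exp (Complex.I * (Z T h w t : ℂ)))
    (by
      have := Z_cont hw.cc.cont T h
      apply Continuous.measurable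
      fun_prop)
    (fun t => by rw [Complex.norm_exp_I_mul_ofReal]) W hWm (by
      intro n hn1 hn2 hn3 t ht1 ht2 htW
      rw [← hL, ← hℓ] at ht1
      have htJ : t ∈ Icc T (2 * T - ℓ) := ⟨by linarith, by linarith⟩
      have h2 : F1 t ≤ δ := by
        by_contra hcon
        push Not at hcon
        exact htW (by rw [hW]; exact ⟨hcon, htJ⟩)
      refine (exp_lip _ _).trans ((Z_shift hw (by rw [← hL]; exact hL0) hhp (l := ℓ) ht2.le (by linarith)).trans ?_)
      rw [hF1, hG, hL] at h2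
      exact h2)
  have hleb := hta h d1 T hT hc A A' (by linarith) (by linarith) (by linarith)
  have hdev := hvar T d4 M hM0.le (by rw [← hL]; nlinarith)
  rw [← hL] at hpalm hA' hA ⊢
  rw [← hℓ] at hpalm
  obtain ⟨S1, hs1⟩ : ∃ S1 : ℂ, S1 = ∑ n ∈ Finset.Ioc (NZ A) (NZ A'), Complex.exp (Complex.I * (Z T h w (ord n) : ℂ)) := ⟨_, rfl⟩
  obtain ⟨I1, hI1⟩ : ∃ I1 : ℂ, I1 = ∫ t in A..A', Complex.exp (Complex.I * (Z T h w t : ℂ)) := ⟨_, rfl⟩
  rw [← hs1, ← hI1] at hpalm
  rw [← hI1] at hleb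
  rw [← hs1]
  obtain ⟨m1, hm1⟩ : ∃ m1 : ℝ, m1 = (A' - A) * Real.exp (-J w) := ⟨_, rfl⟩
  rw [← hm1] at hleb ⊢
  have hdevs : (s * T + (1 / s) * ∫ t in Icc T (2 * T), dev T M t) / 2 ≤ s * T := by
    have a1 : (1 / s) * ∫ t in Icc T (2 * T), dev T M t ≤ (1 / s) * (T * s ^ 2) := by
      rw [hs2]; gcongr
    have a2 : (1 / s) * (T * s ^ 2) = s * T := by field_simp
    linarith
  have hE : M * (δ * T + 2 * volume.real (W ∩ Icc T (2 * T)) + 4 * ℓ) +
      (3 + δ) * ((s * T + (1 / s) * ∫ t in Icc T (2 * T), dev T M t) / 2) ≤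
      M * (ε / 2 * T) := by
    have a1 : (3 + δ) * ((s * T + (1 / s) * ∫ t in Icc T (2 * T), dev T M t) / 2) ≤
        4 * (s * T) := by
      have b1 : 0 ≤ s * T := by positivity
      have b2 : 0 ≤ 3 + δ := by positivity
      calc _ ≤ (3 + δ) * (s * T) := mul_le_mul_of_nonneg_left hdevs b2
        _ ≤ 4 * (s * T) := mul_le_mul_of_nonneg_right (by linarith) b1
    have a2 : 4 * (s * T) ≤ M * (ε / 12 * T) := by
      have : s * T ≤ (ε / 48 * M) * T := mul_le_mul_of_nonneg_right hsM hTp.le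
      linarith
    have a3 : 4 * ℓ ≤ ε / 8 * T := by
      rw [div_le_iff₀ hε] at hLM3
      have b1 : 32 ≤ 32 * M := by linarith
      have b2 : L * ε ≤ T * ε := by gcongr
      linarith
    have a4 : δ * T ≤ ε / 8 * T := mul_le_mul_of_nonneg_right hδε hTp.le
    have a5 : M * (δ * T + 2 * volume.real (W ∩ Icc T (2 * T)) + 4 * ℓ) ≤
        M * (ε / 8 * T + 2 * (ε / 16 * T) + ε / 8 * T) := by
      apply mul_le_mul_of_nonneg_left _ hM0.le
      linarith
    have a6 : 0 ≤ M * (ε * T) := by positivity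
    linarith
  have hp2 := hpalm.trans hE
  have e1 : S1 - ((L / (2 * Real.pi) * m1 : ℝ) : ℂ) =
      ((1 / ℓ : ℝ) : ℂ) * ((ℓ : ℂ) * S1 - (M : ℂ) * I1) +
      ((L / (2 * Real.pi) : ℝ) : ℂ) * (I1 - (m1 : ℂ)) := by
    have b1 : ((1 / ℓ : ℝ) : ℂ) * (ℓ : ℂ) = 1 := by
      rw [← Complex.ofReal_mul, one_div, inv_mul_cancel₀ hℓ0.ne', Complex.ofReal_one]
    have b2 : ((1 / ℓ : ℝ) : ℂ) * (M : ℂ) = ((L / (2 * Real.pi) : ℝ) : ℂ) := by
      rw [← Complex.ofReal_mul]
      congr 1
      rw [hℓ]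
      field_simp
    calc _ = (((1 / ℓ : ℝ) : ℂ) * (ℓ : ℂ)) * S1 - ((L / (2 * Real.pi) * m1 : ℝ) : ℂ) := by rw [b1]; ring
      _ = _ := by
        rw [mul_sub, ← mul_assoc, ← mul_assoc, b2]
        push_cast
        ring
  rw [e1]
  have n1 : ‖((1 / ℓ : ℝ) : ℂ) * ((ℓ : ℂ) * S1 - (M : ℂ) * I1)‖ ≤ ε / 4 * (T * L) := by
    rw [norm_mul, Complex.norm_real, Real.norm_of_nonneg (by positivity)]
    calc 1 / ℓ * ‖(ℓ : ℂ) * S1 - (M : ℂ) * I1‖ ≤ 1 / ℓ * (M * (ε / 2 * T)) := by gcongr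
      _ = L / (2 * Real.pi) * (ε / 2 * T) := by rw [hℓ]; field_simp
      _ ≤ L / 2 * (ε / 2 * T) := by
          gcongr
          linarith
      _ = _ := by ring
  have n2 : ‖((L / (2 * Real.pi) : ℝ) : ℂ) * (I1 - (m1 : ℂ))‖ ≤ ε / 4 * (T * L) := by
    rw [norm_mul, Complex.norm_real, Real.norm_of_nonneg (by positivity)]
    calc L / (2 * Real.pi) * ‖I1 - (m1 : ℂ)‖ ≤ L / 1 * (ε / 4 * T) := by
          gcongr
          linarith
      _ = _ := by ring
  refine (norm_add_le _ _).trans ((add_le_add n1 n2).trans ?_)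
  have : 0 ≤ ε * (T * L) := by positivity
  linarith

end

end Pool.Agent.K6.H57.ML
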