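import Pool.Agent.K6.H57.ML.Bt
import Pool.Agent.K6.H57.ML.Ef
import Pool.Agent.H382P.Mert

/-! # The variance of the prime polynomial -/

set_option autoImplicit false

open MeasureTheory Set Filter Topology
open scoped ContDiff NNReal

namespace Pool.Agent.K6.H57.ML

open SP (bt)
open Pool.Agent.R320.JL (PP nz)
open Pool.Agent.Y743.CL (Pr mem_Pr VS VS_nonneg)

noncomputable section

/-- half of the limiting variance -/
def J (w : ℝ → ℝ) : ℝ := ∫ ξ in Ioi (0 : ℝ), ξ * ‖hat w ξ‖ ^ 2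

lemma rp3 {c : ℝ} (hc : 0 < c) : IntegrableOn (fun s : ℝ => s ^ (-3 : ℝ)) (Ioi c) ∧
    ∫ s in Ioi c, s ^ (-3 : ℝ) = 1 / c ^ 2 / 2 := by
  refine ⟨integrableOn_Ioi_rpow_of_lt (by norm_num) hc, ?_⟩
  rw [integral_Ioi_rpow_of_lt (by norm_num) hc]
  have : c ^ (-3 + 1 : ℝ) = 1 / c ^ 2 := by
    rw [show (-3 + 1 : ℝ) = -2 by norm_num, Real.rpow_neg hc.le, one_div]
    norm_num
  rw [this]
  ring

lemma rp2 {c : ℝ} (hc : 0 < c) : IntegrableOn (fun s : ℝ => s ^ (-2 : ℝ)) (Ioi c) ∧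
    ∫ s in Ioi c, s ^ (-2 : ℝ) = 1 / c := by
  refine ⟨integrableOn_Ioi_rpow_of_lt (by norm_num) hc, ?_⟩
  rw [integral_Ioi_rpow_of_lt (by norm_num) hc]
  have : c ^ (-2 + 1 : ℝ) = 1 / c := by
    rw [show (-2 + 1 : ℝ) = -1 by norm_num, Real.rpow_neg_one, one_div]
  rw [this]
  ring

/-- a tail bound -/
lemma tail_bd {ι : Type*} (S : Finset ι) (a ξ : ι → ℝ) (ha : ∀ i ∈ S, 0 ≤ a i) {B C1 : ℝ} (hB : 0 < B)
    (h : ∀ s, B ≤ s → ∑ i ∈ S.filter (fun i => ξ i ≤ s), a i ≤ C1 * s) :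
    ∑ i ∈ S.filter (fun i => B < ξ i), a i / ξ i ^ 2 ≤ 2 * C1 / B := by
  have h3 := rp3 hB
  have h2 := rp2 hB
  have e1 : ∀ i ∈ S.filter (fun i => B < ξ i), a i / ξ i ^ 2 =
      ∫ s in Ioi B, (Ici (ξ i)).indicator (fun s => 2 * a i * s ^ (-3 : ℝ)) s := by
    intro i hi
    have hi2 := (Finset.mem_filter.1 hi).2
    rw [setIntegral_indicator measurableSet_Ici]
    have : Ioi B ∩ Ici (ξ i) = Ici (ξ i) := by
      apply inter_eq_right.2
      intro x hx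
      exact lt_of_lt_of_le hi2 hx
    rw [this, integral_Ici_eq_integral_Ioi, integral_const_mul, (rp3 (hB.trans hi2)).2]
    ring
  have i1 : ∀ i ∈ S.filter (fun i => B < ξ i),
      IntegrableOn ((Ici (ξ i)).indicator (fun s => 2 * a i * s ^ (-3 : ℝ))) (Ioi B) := by
    intro i _
    exact (h3.1.const_mul _).indicator measurableSet_Ici
  rw [Finset.sum_congr rfl e1, ← integral_finsetSum _ i1]
  have e2 : 2 * C1 / B = ∫ s in Ioi B, 2 * C1 * s ^ (-2 : ℝ) := by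
    rw [integral_const_mul, h2.2]
    ring
  rw [e2]
  refine setIntegral_mono_on (integrable_finsetSum _ i1) (h2.1.const_mul _) measurableSet_Ioi
    fun s hs => ?_
  have hs' : B < s := hs
  have hs0 : 0 < s := hB.trans hs'
  have hs3 : 0 < s ^ (-3 : ℝ) := Real.rpow_pos_of_pos hs0 _
  have e3 : ∑ i ∈ S.filter (fun i => B < ξ i), (Ici (ξ i)).indicator (fun s => 2 * a i * s ^ (-3 : ℝ)) s ≤
      ∑ i ∈ S.filter (fun i => ξ i ≤ s), 2 * a i * s ^ (-3 : ℝ) := by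
    rw [Finset.sum_filter, Finset.sum_filter]
    refine Finset.sum_le_sum fun i hi => ?_
    have hai := ha i hi
    rw [indicator_apply]
    split_ifs with g1 g2 g3 g3 g4
    · exact le_rfl
    · exact absurd (mem_Ici.1 g2) g3
    · positivity
    · exact le_rfl
    · positivity
    · exact le_rfl
  refine e3.trans ?_
  have e4 : ∑ i ∈ S.filter (fun i => ξ i ≤ s), 2 * a i * s ^ (-3 : ℝ) =
      2 * s ^ (-3 : ℝ) * ∑ i ∈ S.filter (fun i => ξ i ≤ s), a i := by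
    rw [Finset.mul_sum]
    refine Finset.sum_congr rfl fun i _ => ?_
    ring
  rw [e4]
  have e5 : s ^ (-2 : ℝ) = s ^ (-3 : ℝ) * s := by
    rw [← Real.rpow_add_one hs0.ne']
    norm_num
  rw [e5]
  calc 2 * s ^ (-3 : ℝ) * ∑ i ∈ S.filter (fun i => ξ i ≤ s), a i ≤ 2 * s ^ (-3 : ℝ) * (C1 * s) :=
        mul_le_mul_of_nonneg_left (h s hs'.le) (by positivity)
    _ = _ := by ring

/-- the primes with `e log p ≤ s` -/
lemma wm_a : ∃ C0 : ℝ, 0 < C0 ∧ ∀ (X : ℕ) (e s : ℝ), 0 < e → 0 ≤ s →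
    ∑ p ∈ (Pr X).filter (fun p : ℕ => e * Real.log (p : ℝ) ≤ s), Real.log p / p * e ≤ s + C0 * e := by
  obtain ⟨C, hC⟩ := Pool.Agent.Helper923.HMertens.mertens_log
  refine ⟨|C| + 1, by positivity, fun X e s he hs => ?_⟩
  obtain ⟨N, hN⟩ : ∃ N : ℕ, N = ⌊Real.exp (s / e)⌋₊ := ⟨_, rfl⟩
  have hN1 : 1 ≤ N := by
    rw [hN]
    apply Nat.le_floor
    push_cast
    rw [Real.one_le_exp_iff]
    positivity
  have hsub : (Pr X).filter (fun p : ℕ => e * Real.log (p : ℝ) ≤ s) ⊆ (Finset.Icc 1 N).filter Nat.Prime := by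
    intro p hp
    obtain ⟨h1, h2⟩ := Finset.mem_filter.1 hp
    have h3 := (mem_Pr.1 h1).1
    have hp0 : (0 : ℝ) < p := by exact_mod_cast h3.pos
    refine Finset.mem_filter.2 ⟨Finset.mem_Icc.2 ⟨h3.one_le, ?_⟩, h3⟩
    rw [hN]
    apply Nat.le_floor
    rw [← Real.log_le_iff_le_exp hp0, le_div_iff₀ he, mul_comm]
    exact h2
  rw [← Finset.sum_mul]
  have h4 : ∑ p ∈ (Pr X).filter (fun p : ℕ => e * Real.log (p : ℝ) ≤ s), Real.log p / p ≤
      ∑ p ∈ (Finset.Icc 1 N).filter Nat.Prime, Real.log (p : ℝ) / p := by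
    refine Finset.sum_le_sum_of_subset_of_nonneg hsub fun p _ _ => ?_
    have := Real.log_natCast_nonneg p
    positivity
  have h5 := (abs_le.1 (hC N hN1)).2
  have h6 : Real.log N ≤ s / e := by
    have hN0 : (0 : ℝ) < N := by exact_mod_cast hN1
    rw [Real.log_le_iff_le_exp hN0, hN]
    exact Nat.floor_le (Real.exp_pos _).le
  have h7 : ∑ p ∈ (Pr X).filter (fun p : ℕ => e * Real.log (p : ℝ) ≤ s), Real.log p / p ≤ s / e + (|C| + 1) := by
    refine h4.trans ?_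
    have h8 := le_abs_self C
    have h9 : ∑ p ∈ (Finset.Icc 1 N).filter Nat.Prime, Real.log p / p - Real.log N ≤ C := h5
    linarith
  calc _ ≤ (s / e + (|C| + 1)) * e := mul_le_mul_of_nonneg_right h7 he.le
    _ = _ := by field_simp

/-- the truncated density -/
def Gd (w : ℝ → ℝ) (B ξ : ℝ) : ℝ := ξ * ‖hat w ξ‖ ^ 2 * chi (ξ / (2 * B))

lemma Gd_cc {w : ℝ → ℝ} (hw : Cc w) {B : ℝ} (hB : 0 < B) : Cc (Gd w B) := by
  constructor
  · unfold Gd
    apply ContDiff.mul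
    · exact contDiff_id.mul ((hat_sm hw.sm hw.cs).norm_sq ℂ)
    · exact chi_sm.comp (contDiff_id.div_const _)
  · refine HasCompactSupport.of_support_subset_isCompact (isCompact_Icc (a := -(2 * B)) (b := 2 * B)) ?_
    intro u hu
    by_contra hcon
    apply hu
    unfold Gd
    rw [chi_zero, mul_zero]
    rw [abs_div, abs_of_pos (by positivity : 0 < 2 * B), le_div_iff₀ (by positivity), one_mul]
    by_contra h2
    push Not at h2
    exact hcon ⟨(abs_lt.1 h2).1.le, (abs_lt.1 h2).2.le⟩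

lemma Gd_zero (w : ℝ → ℝ) {B ξ : ℝ} (hB : 0 < B) (h : 2 * B ≤ ξ) : Gd w B ξ = 0 := by
  unfold Gd
  rw [chi_zero, mul_zero]
  rw [abs_div, abs_of_pos (by positivity : 0 < 2 * B), le_div_iff₀ (by positivity), one_mul,
    abs_of_nonneg (by linarith)]
  exact h

/-- the sum over the primes of the truncated density -/
lemma Gd_mert {w : ℝ → ℝ} (hw : Cc w) {B : ℝ} (hB : 2 ≤ B) : ∃ C : ℝ, 0 < C ∧ ∀ (X : ℕ) (e : ℝ),
    0 < e → e ≤ 1 → Real.exp (2 * B / e) ≤ X →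
    |∑ p ∈ Pr X, Real.log p / p * e * Gd w B (e * Real.log p) - ∫ ξ in (0 : ℝ)..(2 * B), Gd w B ξ| ≤
      C * e := by
  have hB0 : 0 < B := by linarith
  obtain ⟨M, hM, hl⟩ := (Gd_cc hw hB0).lip
  obtain ⟨H, hH⟩ : ∃ H : ℝ → ℂ, H = fun u => ((2 * B * Gd w B (2 * B * u) : ℝ) : ℂ) := ⟨_, rfl⟩
  have hLip : LipschitzWith (⟨2 * B * (M * (2 * B)), by positivity⟩ : ℝ≥0) H := by
    refine LipschitzWith.of_dist_le_mul fun x y => ?_
    rw [dist_eq_norm, Real.dist_eq, hH]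
    simp only
    rw [← Complex.ofReal_sub, Complex.norm_real, Real.norm_eq_abs, ← mul_sub, abs_mul,
      abs_of_pos (by positivity : 0 < 2 * B)]
    have h1 := hl (2 * B * x) (2 * B * y)
    rw [← mul_sub, abs_mul, abs_of_pos (by positivity : 0 < 2 * B)] at h1
    show 2 * B * _ ≤ 2 * B * (M * (2 * B)) * |x - y|
    calc _ ≤ 2 * B * (M * (2 * B * |x - y|)) := mul_le_mul_of_nonneg_left h1 (by positivity)
      _ = _ := by ring
  obtain ⟨C, hC, hm⟩ := SP.mert H _ hLip (fun u hu => by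
    rw [hH]
    simp only
    rw [Gd_zero w hB0 (by nlinarith)]
    simp)
  refine ⟨C, hC, fun X e he he1 hX => ?_⟩
  have hT' : (10 : ℝ) ≤ Real.exp (2 * B / e) := by
    have h3 : (10 : ℝ) ≤ Real.exp 3 := by
      have := Real.exp_one_gt_d9
      have h4 : Real.exp 3 = Real.exp 1 ^ 3 := by rw [← Real.exp_nat_mul]; norm_num
      rw [h4]
      have h5 : (2.7 : ℝ) ^ 3 ≤ Real.exp 1 ^ 3 := by gcongr; linarith
      norm_num at h5 ⊢
      linarith
    refine h3.trans (Real.exp_le_exp.2 ?_)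
    rw [le_div_iff₀ he]
    nlinarith
  have h1 := hm (Real.exp (2 * B / e)) hT'
  rw [Real.log_exp] at h1
  have hS : ∑ p ∈ Pr X, Real.log p / p * e * Gd w B (e * Real.log p) =
      ∑ p ∈ (Finset.Icc 1 ⌊Real.exp (2 * B / e)⌋₊).filter Nat.Prime,
        Real.log p / p * e * Gd w B (e * Real.log p) := by
    symm
    apply Finset.sum_subset
    · intro p hp
      obtain ⟨g1, g2⟩ := Finset.mem_filter.1 hp
      rw [Finset.mem_Icc] at g1
      refine mem_Pr.2 ⟨g2, ?_⟩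
      have : ((⌊Real.exp (2 * B / e)⌋₊ : ℕ) : ℝ) ≤ X := (Nat.floor_le (Real.exp_pos _).le).trans hX
      have h5 : ⌊Real.exp (2 * B / e)⌋₊ ≤ X := by exact_mod_cast this
      omega
    · intro p hp hp2
      have hpp := (mem_Pr.1 hp).1
      have hp0 : (0 : ℝ) < p := by exact_mod_cast hpp.pos
      have h5 : Real.exp (2 * B / e) < p := by
        by_contra hcon
        push Not at hcon
        exact hp2 (Finset.mem_filter.2 ⟨Finset.mem_Icc.2 ⟨hpp.one_le, Nat.le_floor hcon⟩, hpp⟩)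
      have h6 : 2 * B / e ≤ Real.log p := by
        rw [Real.le_log_iff_exp_le hp0]
        exact h5.le
      rw [Gd_zero w hB0, mul_zero]
      rw [div_le_iff₀ he] at h6
      linarith
  have hI : (∫ u in (0 : ℝ)..1, H u) = ((∫ ξ in (0 : ℝ)..(2 * B), Gd w B ξ : ℝ) : ℂ) := by
    rw [hH]
    rw [intervalIntegral.integral_ofReal, intervalIntegral.integral_const_mul]
    congr 1
    have := intervalIntegral.integral_comp_mul_left (a := 0) (b := 1) (Gd w B) (c := 2 * B) (by positivity)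
    rw [this, mul_zero, mul_one, smul_eq_mul, ← mul_assoc, mul_inv_cancel₀ (by positivity), one_mul]
  rw [hI] at h1
  have hS2 : ((1 / (2 * B / e) : ℝ) : ℂ) * ∑ p ∈ (Finset.Icc 1 ⌊Real.exp (2 * B / e)⌋₊).filter Nat.Prime,
      ((Real.log p / p : ℝ) : ℂ) * H (Real.log p / (2 * B / e)) =
      ((∑ p ∈ Pr X, Real.log p / p * e * Gd w B (e * Real.log p) : ℝ) : ℂ) := by
    rw [hS, Complex.ofReal_sum, Finset.mul_sum]
    refine Finset.sum_congr rfl fun p _ => ?_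
    rw [hH]
    simp only
    have e1 : 2 * B * (Real.log p / (2 * B / e)) = e * Real.log p := by field_simp
    rw [e1, ← Complex.ofReal_mul, ← Complex.ofReal_mul]
    congr 1
    field_simp
  rw [hS2, ← Complex.ofReal_sub, Complex.norm_real, Real.norm_eq_abs] at h1
  refine h1.trans ?_
  rw [div_le_iff₀ (by positivity)]
  have e2 : C * e * (2 * B / e) = C * (2 * B) := by field_simp
  rw [e2]
  nlinarith

lemma J_int {w : ℝ → ℝ} (hw : Cc w) : IntegrableOn (fun ξ => ξ * ‖hat w ξ‖ ^ 2) (Ioi 0) ∧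
    ∃ C : ℝ, 0 < C ∧ ∀ ξ : ℝ, 0 ≤ ξ → ξ * ‖hat w ξ‖ ^ 2 ≤ C * (1 + ξ ^ 2)⁻¹ := by
  obtain ⟨C, hC, h1⟩ := hat_dec hw.sm hw.cs
  have hb : ∀ ξ : ℝ, 0 ≤ ξ → ξ * ‖hat w ξ‖ ^ 2 ≤ C ^ 2 * (1 + ξ ^ 2)⁻¹ := by
    intro ξ hξ
    have h2 := h1 ξ
    have h3 : (1 : ℝ) ≤ 1 + ξ ^ 2 := by nlinarith [sq_nonneg ξ]
    have h4 : ξ ≤ 1 + ξ ^ 2 := by nlinarith [sq_nonneg (ξ - 1)]
    calc ξ * ‖hat w ξ‖ ^ 2 ≤ (1 + ξ ^ 2) * (C / (1 + ξ ^ 2) ^ 2) ^ 2 := by gcongr
      _ = C ^ 2 * ((1 + ξ ^ 2)⁻¹ * ((1 + ξ ^ 2)⁻¹) ^ 2) := by field_simp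
      _ ≤ C ^ 2 * ((1 + ξ ^ 2)⁻¹ * 1) := by
          gcongr
          have : (1 + ξ ^ 2)⁻¹ ≤ 1 := inv_le_one_of_one_le₀ h3
          have h5 : 0 ≤ (1 + ξ ^ 2)⁻¹ := by positivity
          nlinarith
      _ = _ := by ring
  refine ⟨?_, C ^ 2, by positivity, hb⟩
  refine Integrable.mono' ((integrable_inv_one_add_sq.const_mul (C ^ 2)).integrableOn) ?_ ?_
  · apply Continuous.aestronglyMeasurable
    have := hat_cont hw.sm hw.cs
    fun_prop
  · refine (ae_restrict_iff' measurableSet_Ioi).2 (ae_of_all _ fun ξ hξ => ?_)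
    have hξ' : (0 : ℝ) < ξ := hξ
    rw [Real.norm_of_nonneg (by positivity)]
    exact hb ξ hξ'.le

lemma J_trunc {w : ℝ → ℝ} (hw : Cc w) (η : ℝ) (hη : 0 < η) : ∃ B0 : ℝ, ∀ B : ℝ, B0 ≤ B → 0 < B →
    |(∫ ξ in (0 : ℝ)..(2 * B), Gd w B ξ) - J w| ≤ η := by
  obtain ⟨hi, C, hC, hb⟩ := J_int hw
  have ht : Tendsto (fun B : ℝ => ∫ ξ in Ioi (0 : ℝ), Gd w B ξ) atTop (𝓝 (J w)) := by
    unfold J
    refine tendsto_integral_filter_of_dominated_convergence (fun ξ => C * (1 + ξ ^ 2)⁻¹) ?_ ?_ ?_ ?_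
    · filter_upwards [eventually_gt_atTop 0] with B hB
      exact (Gd_cc hw hB).cont.aestronglyMeasurable
    · refine Filter.Eventually.of_forall fun B => ?_
      refine (ae_restrict_iff' measurableSet_Ioi).2 (ae_of_all _ fun ξ hξ => ?_)
      have hξ' : (0 : ℝ) < ξ := hξ
      have h1 := chi_nonneg (ξ / (2 * B))
      have h2 := chi_le (ξ / (2 * B))
      unfold Gd
      rw [Real.norm_of_nonneg (by positivity)]
      calc ξ * ‖hat w ξ‖ ^ 2 * chi (ξ / (2 * B)) ≤ ξ * ‖hat w ξ‖ ^ 2 * 1 := by gcongr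
        _ ≤ _ := by rw [mul_one]; exact hb ξ hξ'.le
    · exact (integrable_inv_one_add_sq.const_mul C).integrableOn
    · refine (ae_restrict_iff' measurableSet_Ioi).2 (ae_of_all _ fun ξ hξ => ?_)
      have hξ' : (0 : ℝ) < ξ := hξ
      refine tendsto_const_nhds.congr' ?_
      filter_upwards [eventually_ge_atTop ξ, eventually_gt_atTop 0] with B hB hB0
      unfold Gd
      rw [chi_one, mul_one]
      rw [abs_of_pos (by positivity), div_le_div_iff₀ (by positivity) (by norm_num)]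
      linarith
  have h1 := ht.eventually (Metric.closedBall_mem_nhds _ hη)
  obtain ⟨B0, hB0⟩ := h1.exists_forall_of_atTop
  refine ⟨B0, fun B hB hB1 => ?_⟩
  have h2 := hB0 B hB
  rw [Real.dist_eq] at h2
  have h3 : ∫ ξ in Ioi (0 : ℝ), Gd w B ξ = ∫ ξ in (0 : ℝ)..(2 * B), Gd w B ξ := by
    have h4 : Ioi (0 : ℝ) = Ioc 0 (2 * B) ∪ Ioi (2 * B) := (Ioc_union_Ioi_eq_Ioi (by positivity)).symm
    have hGi : Integrable (Gd w B) := (Gd_cc hw hB1).cont.integrable_of_hasCompactSupport (Gd_cc hw hB1).cs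
    rw [h4, setIntegral_union (by
      rw [Set.disjoint_left]; intro x hx hx2; exact absurd hx.2 (not_le.2 hx2)) measurableSet_Ioi
      hGi.integrableOn hGi.integrableOn, intervalIntegral.integral_of_le (by positivity)]
    have h5 : ∫ ξ in Ioi (2 * B), Gd w B ξ = 0 := by
      rw [setIntegral_congr_fun (g := fun _ => (0 : ℝ)) measurableSet_Ioi fun ξ hξ => ?_]
      · simp
      · exact Gd_zero w hB1 (le_of_lt hξ)
    rw [h5, add_zero]
  rwa [h3] at h2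

end

end Pool.Agent.K6.H57.ML
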